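import Mathlib

section

namespace Pool.Agent.MP_f492a7_an

open Finset
open scoped BigOperators

theorem ex_le {Ω : Type*} [Fintype Ω] {f g : Ω → ℝ} (h : ∀ x, f x ≤ g x) :
    𝔼 x, f x ≤ 𝔼 x, g x := Finset.expect_le_expect fun x _ => h x

theorem ex_nonneg {Ω : Type*} [Fintype Ω] {f : Ω → ℝ} (h : ∀ x, 0 ≤ f x) :
    0 ≤ 𝔼 x, f x := Finset.expect_nonneg fun x _ => h x

theorem ex_congr {Ω : Type*} [Fintype Ω] {f g : Ω → ℝ} (h : ∀ x, f x = g x) :
    𝔼 x, f x = 𝔼 x, g x := Finset.expect_congr rfl fun x _ => h x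

theorem ex_const {Ω : Type*} [Fintype Ω] [Nonempty Ω] (a : ℝ) : 𝔼 _x : Ω, a = a :=
  Fintype.expect_const a

theorem ex_add {Ω : Type*} [Fintype Ω] (f g : Ω → ℝ) :
    𝔼 x, (f x + g x) = 𝔼 x, f x + 𝔼 x, g x := Finset.expect_add_distrib _ _ _

theorem ex_sub {Ω : Type*} [Fintype Ω] (f g : Ω → ℝ) :
    𝔼 x, (f x - g x) = 𝔼 x, f x - 𝔼 x, g x := Finset.expect_sub_distrib _ _ _

theorem ex_mul {Ω : Type*} [Fintype Ω] (a : ℝ) (f : Ω → ℝ) :
    𝔼 x, a * f x = a * 𝔼 x, f x := (Finset.mul_expect _ _ _).symm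

theorem ex_mul' {Ω : Type*} [Fintype Ω] (a : ℝ) (f : Ω → ℝ) :
    𝔼 x, f x * a = (𝔼 x, f x) * a := (Finset.expect_mul _ _ _).symm

theorem ex_sum {Ω J : Type*} [Fintype Ω] (s : Finset J) (f : Ω → J → ℝ) :
    𝔼 x, ∑ j ∈ s, f x j = ∑ j ∈ s, 𝔼 x, f x j := Finset.expect_sum_comm _ _ _

theorem ex_comm {Ω Ω' : Type*} [Fintype Ω] [Fintype Ω'] (f : Ω → Ω' → ℝ) :
    𝔼 x, 𝔼 y, f x y = 𝔼 y, 𝔼 x, f x y := Finset.expect_comm _ _ _

theorem ex_prod {Ω Ω' : Type*} [Fintype Ω] [Fintype Ω'] (f : Ω × Ω' → ℝ) :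
    𝔼 z, f z = 𝔼 x, 𝔼 y, f (x, y) := by
  rw [← Finset.expect_product, Finset.univ_product_univ]

theorem ex_invol {Ω : Type*} [Fintype Ω] {φ : Ω → Ω} (hφ : Function.Involutive φ) (f : Ω → ℝ) :
    𝔼 x, f (φ x) = 𝔼 x, f x :=
  Fintype.expect_equiv hφ.toPerm _ _ fun _ => rfl

theorem ex_shift {G : Type*} [Fintype G] [AddCommGroup G] (v : G) (f : G → ℝ) :
    𝔼 x, f (x + v) = 𝔼 x, f x :=
  Fintype.expect_equiv (Equiv.addRight v) _ _ fun _ => rfl

theorem ex_shift' {G : Type*} [Fintype G] [AddCommGroup G] (v : G) (f : G → ℝ) :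
    𝔼 x, f (x - v) = 𝔼 x, f x := by
  simpa [sub_eq_add_neg] using ex_shift (-v) f

theorem ex_abs {Ω : Type*} [Fintype Ω] (f : Ω → ℝ) : |𝔼 x, f x| ≤ 𝔼 x, |f x| :=
  Finset.abs_expect_le _ _

theorem ex_pi_prod {ι Ω : Type*} [Fintype ι] [DecidableEq ι] [Fintype Ω] (g : ι → Ω → ℝ) :
    𝔼 ω : ι → Ω, ∏ i, g i (ω i) = ∏ i, 𝔼 x, g i x := by
  simp only [Fintype.expect_eq_sum_div_card]
  rw [Finset.prod_div_distrib, Finset.prod_univ_sum, Fintype.piFinset_univ]
  simp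

theorem ex_coord {ι Ω : Type*} [Fintype ι] [DecidableEq ι] [Fintype Ω] [Nonempty Ω] (i : ι)
    (g : Ω → ℝ) : 𝔼 ω : ι → Ω, g (ω i) = 𝔼 x, g x := by
  have := ex_pi_prod (ι := ι) (fun l x => if l = i then g x else 1)
  simp only [Finset.prod_ite_eq', Finset.mem_univ, if_true] at this
  rw [this, Finset.prod_eq_single i]
  · simp
  · intro l _ hl; simp [hl]
  · simp

theorem ex_pair {ι Ω : Type*} [Fintype ι] [DecidableEq ι] [Fintype Ω] [Nonempty Ω] {i l : ι}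
    (hil : i ≠ l) (g g' : Ω → ℝ) :
    𝔼 ω : ι → Ω, g (ω i) * g' (ω l) = (𝔼 x, g x) * 𝔼 x, g' x := by
  have := ex_pi_prod (ι := ι) (fun k x => (if k = i then g x else 1) * (if k = l then g' x else 1))
  simp only [Finset.prod_mul_distrib, Finset.prod_ite_eq', Finset.mem_univ, if_true] at this
  rw [this, Finset.prod_eq_mul i l hil]
  · simp [hil, hil.symm]
  · intro k _ hk; simp [hk.1, hk.2]
  · simp
  · simp

theorem ex_bool (g : Bool → ℝ) : 𝔼 b, g b = (g true + g false) / 2 := by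
  rw [Fintype.expect_eq_sum_div_card]
  simp

theorem ex_sq_sum {ι : Type*} [Fintype ι] [DecidableEq ι] (g : ι → Bool → ℝ)
    (h : ∀ j, g j false = - g j true) :
    𝔼 τ : ι → Bool, (∑ j, g j (τ j)) ^ 2 = ∑ j, g j true ^ 2 := by
  simp only [sq, Finset.sum_mul_sum]
  rw [ex_sum]
  refine Finset.sum_congr rfl fun i _ => ?_
  rw [ex_sum, Finset.sum_eq_single i]
  · rw [ex_coord i (fun b => g i b * g i b), ex_bool, h]; ring
  · intro l _ hl
    rw [ex_pair hl.symm, ex_bool (g l), h]; ring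
  · simp

theorem ex_push {ι Ω B : Type*} [Fintype ι] [DecidableEq ι] [Fintype Ω] [Fintype B]
    [DecidableEq B] (φ : Ω → B) (hφ : ∀ g : B → ℝ, 𝔼 ω, g (φ ω) = 𝔼 b, g b)
    (F : (ι → B) → ℝ) : 𝔼 ω : ι → Ω, F (fun i => φ (ω i)) = 𝔼 b, F b := by
  have key : ∀ b : ι → B, F b = ∑ b0 : ι → B, F b0 * ∏ i, (if b i = b0 i then (1 : ℝ) else 0) := by
    intro b
    rw [Finset.sum_eq_single b]
    · simp
    · intro b0 _ hb
      obtain ⟨i, hi⟩ := Function.ne_iff.1 hb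
      rw [Finset.prod_eq_zero (Finset.mem_univ i) (by simp [hi.symm]), mul_zero]
    · simp
  rw [ex_congr fun ω => key _, ex_congr fun b => key b, ex_sum, ex_sum]
  refine Finset.sum_congr rfl fun b0 _ => ?_
  rw [ex_mul, ex_mul, ex_pi_prod (fun i ω => if φ ω = b0 i then (1 : ℝ) else 0),
    ex_pi_prod (fun i b => if b = b0 i then (1 : ℝ) else 0)]
  congr 1
  exact Finset.prod_congr rfl fun i _ => hφ (fun b => if b = b0 i then 1 else 0)

theorem jensen_rpow {Ω : Type*} [Fintype Ω] [Nonempty Ω] {p : ℝ} (hp : 1 ≤ p) {z : Ω → ℝ}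
    (hz : ∀ x, 0 ≤ z x) : (𝔼 x, z x) ^ p ≤ 𝔼 x, z x ^ p := by
  have hc : (0 : ℝ) < Fintype.card Ω := by exact_mod_cast Fintype.card_pos
  have := Real.rpow_arith_mean_le_arith_mean_rpow Finset.univ
    (fun _ : Ω => (Fintype.card Ω : ℝ)⁻¹) z (fun _ _ => by positivity)
    (by simp) (fun x _ => hz x) hp
  simpa only [Fintype.expect_eq_sum_div_card, div_eq_inv_mul, Finset.mul_sum] using this

theorem jensen_abs {Ω : Type*} [Fintype Ω] [Nonempty Ω] {p : ℝ} (hp : 1 ≤ p) (z : Ω → ℝ) :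
    |𝔼 x, z x| ^ p ≤ 𝔼 x, |z x| ^ p :=
  (Real.rpow_le_rpow (abs_nonneg _) (ex_abs z) (by linarith)).trans
    (jensen_rpow hp fun x => abs_nonneg (z x))

theorem jensen_concave {Ω : Type*} [Fintype Ω] [Nonempty Ω] {θ : ℝ} (h0 : 0 < θ) (h1 : θ ≤ 1)
    {z : Ω → ℝ} (hz : ∀ x, 0 ≤ z x) : 𝔼 x, z x ^ θ ≤ (𝔼 x, z x) ^ θ := by
  have h := jensen_rpow (p := θ⁻¹) (one_le_inv_iff₀.2 ⟨h0, h1⟩) (z := fun x => z x ^ θ)
    (fun x => Real.rpow_nonneg (hz x) _)
  simp only [Real.rpow_rpow_inv (hz _) h0.ne'] at h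
  have h2 := Real.rpow_le_rpow (Real.rpow_nonneg (ex_nonneg fun x => Real.rpow_nonneg (hz x) _) _)
    h h0.le
  rwa [Real.rpow_inv_rpow (ex_nonneg fun x => Real.rpow_nonneg (hz x) _) h0.ne'] at h2

theorem jensen_neg {Ω : Type*} [Fintype Ω] [Nonempty Ω] {θ : ℝ} (h0 : 0 ≤ θ) (h1 : θ ≤ 1)
    {z : Ω → ℝ} (hz : ∀ x, 0 < z x) : (𝔼 x, z x) ^ (-θ) ≤ 𝔼 x, z x ^ (-θ) := by
  set M := 𝔼 x, z x with hM
  have hMpos : 0 < M := Finset.expect_pos (fun x _ => hz x) Finset.univ_nonempty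
  have key : ∀ x, M ^ (-θ) * (1 - θ * (z x / M - 1)) ≤ z x ^ (-θ) := by
    intro x
    have hq : 0 < z x / M := div_pos (hz x) hMpos
    have hb := rpow_one_add_le_one_add_mul_self (s := z x / M - 1) (by linarith) h0 h1
    rw [add_sub_cancel] at hb
    have hpos : 0 < (z x / M) ^ θ := Real.rpow_pos_of_pos hq _
    have e : z x ^ (-θ) = M ^ (-θ) * ((z x / M) ^ θ)⁻¹ := by
      rw [Real.div_rpow (hz x).le hMpos.le, Real.rpow_neg (hz x).le, Real.rpow_neg hMpos.le]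
      have := Real.rpow_pos_of_pos hMpos θ
      field_simp
    rw [e]
    refine mul_le_mul_of_nonneg_left ?_ (Real.rpow_nonneg hMpos.le _)
    have h3 : 2 - (z x / M) ^ θ ≤ ((z x / M) ^ θ)⁻¹ := by
      rw [← one_div, le_div_iff₀ hpos]
      nlinarith [sq_nonneg ((z x / M) ^ θ - 1)]
    linarith
  calc M ^ (-θ) = 𝔼 x, M ^ (-θ) * (1 - θ * (z x / M - 1)) := by
        rw [ex_mul, ex_sub, ex_mul, ex_sub, ex_const, ← Finset.expect_div, ← hM,
          div_self hMpos.ne']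
        ring
    _ ≤ _ := ex_le key

theorem add_rpow_le {p a b : ℝ} (hp : 0 ≤ p) (ha : 0 ≤ a) (hb : 0 ≤ b) :
    (a + b) ^ p ≤ 2 ^ p * (a ^ p + b ^ p) := by
  have ha' := Real.rpow_nonneg ha p
  have hb' := Real.rpow_nonneg hb p
  have h2 : (0 : ℝ) ≤ 2 ^ p := by positivity
  rcases le_total a b with h | h
  · calc (a + b) ^ p ≤ (2 * b) ^ p := Real.rpow_le_rpow (by positivity) (by linarith) hp
      _ = 2 ^ p * b ^ p := Real.mul_rpow (by norm_num) hb
      _ ≤ _ := by gcongr; linarith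
  · calc (a + b) ^ p ≤ (2 * a) ^ p := Real.rpow_le_rpow (by positivity) (by linarith) hp
      _ = 2 ^ p * a ^ p := Real.mul_rpow (by norm_num) ha
      _ ≤ _ := by gcongr; linarith

theorem young' {p q a b : ℝ} (hpq : p.HolderConjugate q) (ha : 0 ≤ a) (hb : 0 ≤ b) :
    a * b ≤ a ^ p + b ^ q := by
  have h := Real.young_inequality_of_nonneg ha hb hpq
  have h1 : a ^ p / p ≤ a ^ p := div_le_self (Real.rpow_nonneg ha _) hpq.lt.le
  have h2 : b ^ q / q ≤ b ^ q := div_le_self (Real.rpow_nonneg hb _) hpq.symm.lt.le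
  linarith

end Pool.Agent.MP_f492a7_an

end

section

namespace Pool.Agent.MP_f492a7_an

open Finset
open scoped BigOperators

/-- triple average -/
noncomputable def E3 {C P : Type} [Fintype C] [Fintype P] (H : C → P → P → ℝ) : ℝ :=
  𝔼 c, 𝔼 a, 𝔼 b, H c a b

section
variable {C P : Type} [Fintype C] [Fintype P]

theorem E3_le {H H' : C → P → P → ℝ} (h : ∀ c a b, H c a b ≤ H' c a b) : E3 H ≤ E3 H' :=
  ex_le fun c => ex_le fun a => ex_le fun b => h c a b

theorem E3_congr {H H' : C → P → P → ℝ} (h : ∀ c a b, H c a b = H' c a b) : E3 H = E3 H' :=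
  ex_congr fun c => ex_congr fun a => ex_congr fun b => h c a b

theorem E3_nonneg {H : C → P → P → ℝ} (h : ∀ c a b, 0 ≤ H c a b) : 0 ≤ E3 H :=
  ex_nonneg fun c => ex_nonneg fun a => ex_nonneg fun b => h c a b

theorem E3_add (H H' : C → P → P → ℝ) :
    E3 (fun c a b => H c a b + H' c a b) = E3 H + E3 H' := by
  simp only [E3, ex_add]

theorem E3_mul (x : ℝ) (H : C → P → P → ℝ) : E3 (fun c a b => x * H c a b) = x * E3 H := by
  simp only [E3, ex_mul]

theorem E3_sum {J : Type} (s : Finset J) (H : J → C → P → P → ℝ) :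
    E3 (fun c a b => ∑ j ∈ s, H j c a b) = ∑ j ∈ s, E3 (H j) := by
  simp only [E3, ex_sum]

theorem E3_ex {J : Type} [Fintype J] (H : J → C → P → P → ℝ) :
    E3 (fun c a b => 𝔼 j, H j c a b) = 𝔼 j, E3 (H j) := by
  simp only [E3]
  rw [ex_comm (fun j c => 𝔼 a, 𝔼 b, H j c a b)]
  refine ex_congr fun c => ?_
  rw [ex_comm (fun j a => 𝔼 b, H j c a b)]
  refine ex_congr fun a => ?_
  rw [ex_comm (fun j b => H j c a b)]

theorem E3_perm1 (k : C → P → P → P → ℝ) :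
    E3 (fun c a b => 𝔼 e, k c a e b) = E3 (fun c a e => 𝔼 b, k c a e b) :=
  ex_congr fun c => ex_congr fun a => ex_comm (fun b e => k c a e b)

theorem E3_perm2 (k : C → P → P → P → ℝ) :
    E3 (fun c a b => 𝔼 e, k c e b a) = E3 (fun c e b => 𝔼 a, k c e b a) := by
  refine ex_congr fun c => ?_
  rw [ex_congr fun a => ex_comm (fun b e => k c e b a), ex_comm (fun a e => 𝔼 b, k c e b a)]
  exact ex_congr fun e => ex_comm (fun a b => k c e b a)

end

theorem exists_params {s : ℝ} (hs : 1 < s) : ∃ t η : ℝ, 0 < t ∧ t < 2 ∧ 0 < η ∧ η < 1 / 2 ∧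
    2 * (t ^ (-s) * η ^ (-(1 - s⁻¹))) < 1 := by
  have hs0 : 0 < s := by linarith
  set δ := (s - 1) ^ 2 / s with hδ
  have hδ0 : 0 < δ := by
    have : 0 < s - 1 := by linarith
    positivity
  refine ⟨2 ^ (1 - δ / (3 * s)), 2 ^ (-1 - δ / 3), by positivity, ?_, by positivity, ?_, ?_⟩
  · have : (2 : ℝ) ^ (1 - δ / (3 * s)) < 2 ^ (1 : ℝ) :=
      Real.rpow_lt_rpow_of_exponent_lt (by norm_num) (by
        have : 0 < δ / (3 * s) := by positivity
        linarith)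
    simpa using this
  · have : (2 : ℝ) ^ (-1 - δ / 3) < 2 ^ (-1 : ℝ) :=
      Real.rpow_lt_rpow_of_exponent_lt (by norm_num) (by linarith)
    rw [Real.rpow_neg_one] at this
    simpa using this
  · rw [← Real.rpow_mul (by norm_num), ← Real.rpow_mul (by norm_num),
      ← Real.rpow_add (by norm_num), mul_comm, ← Real.rpow_add_one (by norm_num)]
    refine Real.rpow_lt_one_of_one_lt_of_neg (by norm_num) ?_
    have e1 : (1 - δ / (3 * s)) * -s = -s + δ / 3 := by field_simp; ring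
    have e2 : δ = s - 2 + s⁻¹ := by rw [hδ]; field_simp; ring
    have h3 : 0 < s⁻¹ := by positivity
    rw [e1]
    nlinarith

theorem half_add_rpow {s t u z : ℝ} (hs : 0 < s) (ht0 : 0 < t) (ht2 : t < 2) :
    |u / 2 + z| ^ s ≤ t ^ (-s) * |u| ^ s + (1 - t / 2) ^ (-s) * |z| ^ s := by
  have hl : 0 < 1 - t / 2 := by linarith
  have h1 : |u / 2 + z| ≤ |u| / 2 + |z| := by
    refine (abs_add_le _ _).trans ?_
    rw [abs_div, abs_two]
  have e1 : t ^ (-s) * |u| ^ s = (|u| / t) ^ s := by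
    rw [Real.div_rpow (abs_nonneg _) ht0.le, Real.rpow_neg ht0.le]; ring
  have e2 : (1 - t / 2) ^ (-s) * |z| ^ s = (|z| / (1 - t / 2)) ^ s := by
    rw [Real.div_rpow (abs_nonneg _) hl.le, Real.rpow_neg hl.le]; ring
  rw [e1, e2]
  have p1 : 0 ≤ (|u| / t) ^ s := by positivity
  have p2 : 0 ≤ (|z| / (1 - t / 2)) ^ s := by positivity
  set x := |u| / t with hx
  set y := |z| / (1 - t / 2) with hy
  have hu : |u| = t * x := by rw [hx]; field_simp
  have hz : |z| = (1 - t / 2) * y := by rw [hy, mul_div_cancel₀ _ hl.ne']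
  rcases le_total x y with h | h
  · have : |u / 2 + z| ≤ y := by rw [hu, hz] at h1; nlinarith
    exact (Real.rpow_le_rpow (abs_nonneg _) this hs.le).trans (by linarith)
  · have : |u / 2 + z| ≤ x := by rw [hu, hz] at h1; nlinarith
    exact (Real.rpow_le_rpow (abs_nonneg _) this hs.le).trans (by linarith)

theorem abs_le_weight {s w L : ℝ} (hs : 1 < s) (hL : 0 < L) :
    |w| ≤ |w| ^ s * L ^ (-(1 - s⁻¹)) + L ^ s⁻¹ := by
  have hs0 : 0 < s := by linarith
  have p1 : 0 ≤ |w| ^ s * L ^ (-(1 - s⁻¹)) := by positivity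
  have p2 : 0 < L ^ s⁻¹ := by positivity
  rcases le_total |w| (L ^ s⁻¹) with h | h
  · linarith
  · have hw : 0 < |w| := p2.trans_le h
    have h1 : L ^ (1 - s⁻¹) ≤ |w| ^ (s - 1) := by
      have := Real.rpow_le_rpow p2.le h (show 0 ≤ s - 1 by linarith)
      rwa [← Real.rpow_mul hL.le, show s⁻¹ * (s - 1) = 1 - s⁻¹ by field_simp] at this
    have h2 : |w| ^ s = |w| * |w| ^ (s - 1) := by
      rw [mul_comm, ← Real.rpow_add_one hw.ne']; simp
    have h3 : 0 < L ^ (1 - s⁻¹) := by positivity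
    have : |w| ≤ |w| ^ s * L ^ (-(1 - s⁻¹)) := by
      rw [Real.rpow_neg hL.le, h2, ← div_eq_mul_inv, le_div_iff₀ h3]
      gcongr
    linarith

theorem fixed_point {s : ℝ} (hs : 1 < s) : ∃ Cs : ℝ, 0 ≤ Cs ∧
    ∀ (C P : Type) [Fintype C] [Fintype P] [Nonempty P] (W D V : C → P → P → ℝ)
      (Z : C → P → P → P → ℝ), (∀ c a b, 0 < V c a b) →
      (∀ c a e b, W c a b = W c a e / 2 + Z c a e b) →
      (∀ c a e b, W c a b = W c e b / 2 + - Z c e b a) →
      (∀ c a e b, |D c a b| ≤ |D c a e| + |D c e b|) →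
      (E3 (fun c a e => 𝔼 b, |Z c a e b| ^ s * V c a e ^ (-(1 - s⁻¹)) * |D c a e|) ≤
        E3 (fun c a e => V c a e ^ s⁻¹ * |D c a e|)) →
      E3 (fun c a b => |W c a b| * |D c a b|) ≤
        Cs * E3 (fun c a b => (V c a b ^ s⁻¹ + (𝔼 e, V c a e) ^ s⁻¹ + (𝔼 e, V c e b) ^ s⁻¹ +
          (𝔼 e, 𝔼 e', V c e e') ^ s⁻¹) * |D c a b|) := by
  obtain ⟨t, η, ht0, ht2, hη0, hη, hρ⟩ := exists_params hs
  have hs0 : 0 < s := by linarith
  have hsi0 : 0 < s⁻¹ := by positivity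
  have hsi1 : s⁻¹ ≤ 1 := inv_le_one_of_one_le₀ hs.le
  set θ := 1 - s⁻¹ with hθ
  have hθ0 : 0 ≤ θ := by linarith
  have hθ1 : θ ≤ 1 := by linarith
  set ρ := 2 * (t ^ (-s) * η ^ (-θ)) with hρdef
  set c2 := 2 * ((1 - t / 2) ^ (-s) * η ^ (-θ)) with hc2
  have hl : 0 < 1 - t / 2 := by linarith
  have hc20 : 0 ≤ c2 := by positivity
  set α := η / (1 - η) with hα
  set β := 2 * η * α / (1 - 2 * η) with hβ
  have h1η : 0 < 1 - η := by linarith
  have h2η : 0 < 1 - 2 * η := by linarith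
  have hα0 : 0 < α := by positivity
  have hβ0 : 0 < β := by positivity
  have hαe : η * (α + 1) = α := by rw [hα]; field_simp; ring
  have hβe : η * (2 * α + 2 * β) = β := by
    have : (1 - 2 * η) * β = 2 * η * α := by rw [hβ, mul_div_cancel₀ _ h2η.ne']
    linarith
  have h1ρ : 0 < 1 - ρ := by linarith
  refine ⟨c2 / (1 - ρ) + (α + β) ^ s⁻¹, by positivity, ?_⟩
  intro C P _ _ _ W D V Z hV hW1 hW2 hD hZ
  let V1 : C → P → ℝ := fun c a => 𝔼 e, V c a e
  let V2 : C → P → ℝ := fun c b => 𝔼 e, V c e b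
  let V0 : C → ℝ := fun c => 𝔼 e, 𝔼 e', V c e e'
  have hpos : ∀ {f : P → ℝ}, (∀ e, 0 < f e) → 0 < 𝔼 e, f e := fun h =>
    Finset.expect_pos (fun e _ => h e) Finset.univ_nonempty
  have hV1 : ∀ c a, 0 < V1 c a := fun c a => hpos fun e => hV c a e
  have hV2 : ∀ c b, 0 < V2 c b := fun c b => hpos fun e => hV c e b
  have hV0 : ∀ c, 0 < V0 c := fun c => hpos fun e => hV1 c e
  have hV20 : ∀ c, 𝔼 b, V2 c b = V0 c := fun c => ex_comm (fun b e => V c e b)
  let L : C → P → P → ℝ := fun c a b => α * (V1 c a + V2 c b) + β * V0 c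
  have hL : ∀ c a b, 0 < L c a b := fun c a b => by
    have := hV1 c a; have := hV2 c b; have := hV0 c
    positivity
  have hLe : ∀ c a b, L c a b = 𝔼 e, η * (L c a e + L c e b + V c a e + V c e b) := by
    intro c a b
    simp only [L, ex_mul, ex_add, ex_const, hV20]
    show _ = η * (α * (V1 c a + V0 c) + β * V0 c + (α * (V0 c + V2 c b) + β * V0 c) + V1 c a +
      V2 c b)
    linear_combination (-(V1 c a + V2 c b)) * hαe - V0 c * hβe
  set Q := E3 (fun c a b => |W c a b| ^ s * L c a b ^ (-θ) * |D c a b|) with hQ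
  set X := E3 (fun c a e => V c a e ^ s⁻¹ * |D c a e|) with hX
  have hanti : ∀ {x y : ℝ}, 0 < x → x ≤ y → (η * y) ^ (-θ) ≤ η ^ (-θ) * x ^ (-θ) := by
    intro x y hx hxy
    rw [← Real.mul_rpow hη0.le hx.le]
    exact Real.rpow_le_rpow_of_nonpos (by positivity) (by gcongr) (by linarith)
  have step : ∀ c a b, |W c a b| ^ s * L c a b ^ (-θ) * |D c a b| ≤
      𝔼 e, ((ρ / 2 * (|W c a e| ^ s * L c a e ^ (-θ) * |D c a e|) +
        c2 / 2 * (|Z c a e b| ^ s * V c a e ^ (-θ) * |D c a e|)) +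
        (ρ / 2 * (|W c e b| ^ s * L c e b ^ (-θ) * |D c e b|) +
        c2 / 2 * (|Z c e b a| ^ s * V c e b ^ (-θ) * |D c e b|))) := by
    intro c a b
    have hM : ∀ e, 0 < η * (L c a e + L c e b + V c a e + V c e b) := fun e => by
      have := hL c a e; have := hL c e b; have := hV c a e; have := hV c e b
      positivity
    have hj := jensen_neg hθ0 hθ1 hM
    rw [← hLe] at hj
    calc |W c a b| ^ s * L c a b ^ (-θ) * |D c a b|
        ≤ |W c a b| ^ s * (𝔼 e, (η * (L c a e + L c e b + V c a e + V c e b)) ^ (-θ)) *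
          |D c a b| := by gcongr
      _ = 𝔼 e, |W c a b| ^ s * (η * (L c a e + L c e b + V c a e + V c e b)) ^ (-θ) *
          |D c a b| := by rw [ex_mul', ex_mul]
      _ ≤ _ := by
        refine ex_le fun e => ?_
        set M := (η * (L c a e + L c e b + V c a e + V c e b)) ^ (-θ) with hMdef
        have hM0 : 0 ≤ M := Real.rpow_nonneg (hM e).le _
        have l1 := hL c a e
        have l2 := hL c e b
        have l3 := hV c a e
        have l4 := hV c e b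
        have m1 : M ≤ η ^ (-θ) * L c a e ^ (-θ) := hanti l1 (by linarith)
        have m2 : M ≤ η ^ (-θ) * L c e b ^ (-θ) := hanti l2 (by linarith)
        have m3 : M ≤ η ^ (-θ) * V c a e ^ (-θ) := hanti l3 (by linarith)
        have m4 : M ≤ η ^ (-θ) * V c e b ^ (-θ) := hanti l4 (by linarith)
        have w1 : |W c a b| ^ s ≤ t ^ (-s) * |W c a e| ^ s + (1 - t / 2) ^ (-s) * |Z c a e b| ^ s := by
          rw [hW1 c a e b]; exact half_add_rpow hs0 ht0 ht2
        have w2 : |W c a b| ^ s ≤ t ^ (-s) * |W c e b| ^ s + (1 - t / 2) ^ (-s) * |Z c e b a| ^ s := by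
          rw [hW2 c a e b, ← abs_neg (Z c e b a)]; exact half_add_rpow hs0 ht0 ht2
        calc |W c a b| ^ s * M * |D c a b| ≤ |W c a b| ^ s * M * (|D c a e| + |D c e b|) := by
              gcongr; exact hD c a e b
          _ = |W c a b| ^ s * M * |D c a e| + |W c a b| ^ s * M * |D c e b| := by ring
          _ ≤ (t ^ (-s) * |W c a e| ^ s + (1 - t / 2) ^ (-s) * |Z c a e b| ^ s) * M * |D c a e| +
              (t ^ (-s) * |W c e b| ^ s + (1 - t / 2) ^ (-s) * |Z c e b a| ^ s) * M * |D c e b| := by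
              gcongr
          _ = (t ^ (-s) * |W c a e| ^ s * M * |D c a e| +
                (1 - t / 2) ^ (-s) * |Z c a e b| ^ s * M * |D c a e|) +
              (t ^ (-s) * |W c e b| ^ s * M * |D c e b| +
                (1 - t / 2) ^ (-s) * |Z c e b a| ^ s * M * |D c e b|) := by ring
          _ ≤ (t ^ (-s) * |W c a e| ^ s * (η ^ (-θ) * L c a e ^ (-θ)) * |D c a e| +
                (1 - t / 2) ^ (-s) * |Z c a e b| ^ s * (η ^ (-θ) * V c a e ^ (-θ)) * |D c a e|) +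
              (t ^ (-s) * |W c e b| ^ s * (η ^ (-θ) * L c e b ^ (-θ)) * |D c e b| +
                (1 - t / 2) ^ (-s) * |Z c e b a| ^ s * (η ^ (-θ) * V c e b ^ (-θ)) * |D c e b|) := by
              gcongr
          _ = _ := by rw [hρdef, hc2]; ring
  have hQle : Q ≤ ρ * Q + c2 * X := by
    refine (E3_le step).trans ?_
    simp only [ex_add]
    rw [E3_add, E3_add, E3_add]
    rw [E3_perm1 (fun c a e _ => ρ / 2 * (|W c a e| ^ s * L c a e ^ (-θ) * |D c a e|)),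
      E3_perm1 (fun c a e b => c2 / 2 * (|Z c a e b| ^ s * V c a e ^ (-θ) * |D c a e|)),
      E3_perm2 (fun c e b _ => ρ / 2 * (|W c e b| ^ s * L c e b ^ (-θ) * |D c e b|)),
      E3_perm2 (fun c e b a => c2 / 2 * (|Z c e b a| ^ s * V c e b ^ (-θ) * |D c e b|))]
    simp only [ex_const, ex_mul, E3_mul]
    rw [← hQ]
    nlinarith
  have hQ2 : Q ≤ c2 / (1 - ρ) * X := by
    rw [div_mul_eq_mul_div, le_div_iff₀ h1ρ]; linarith
  have hLs : ∀ c a b, L c a b ^ s⁻¹ ≤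
      (α + β) ^ s⁻¹ * (V1 c a ^ s⁻¹ + V2 c b ^ s⁻¹ + V0 c ^ s⁻¹) := by
    intro c a b
    have l1 := hV1 c a
    have l2 := hV2 c b
    have l3 := hV0 c
    calc L c a b ^ s⁻¹ ≤ ((α + β) * (V1 c a + V2 c b + V0 c)) ^ s⁻¹ := by
          refine Real.rpow_le_rpow (hL c a b).le ?_ hsi0.le
          simp only [L]
          nlinarith [mul_pos hα0 l3, mul_pos hβ0 l1, mul_pos hβ0 l2]
      _ = (α + β) ^ s⁻¹ * (V1 c a + V2 c b + V0 c) ^ s⁻¹ :=
          Real.mul_rpow (by positivity) (by positivity)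
      _ ≤ _ := by
          gcongr
          refine (Real.rpow_add_le_add_rpow (by positivity) l3.le hsi0.le hsi1).trans ?_
          gcongr
          exact Real.rpow_add_le_add_rpow l1.le l2.le hsi0.le hsi1
  set Y := E3 (fun c a b => (V c a b ^ s⁻¹ + V1 c a ^ s⁻¹ + V2 c b ^ s⁻¹ + V0 c ^ s⁻¹) *
    |D c a b|) with hY
  have hXY : X ≤ Y := E3_le fun c a b => by
    have l1 := Real.rpow_nonneg (hV1 c a).le s⁻¹
    have l2 := Real.rpow_nonneg (hV2 c b).le s⁻¹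
    have l3 := Real.rpow_nonneg (hV0 c).le s⁻¹
    gcongr; linarith
  have hT : E3 (fun c a b => |W c a b| * |D c a b|) ≤ Q + (α + β) ^ s⁻¹ * Y := by
    rw [hQ, hY, ← E3_mul, ← E3_add]
    refine E3_le fun c a b => ?_
    have l0 := Real.rpow_nonneg (hV c a b).le s⁻¹
    have h1 := abs_le_weight (w := W c a b) hs (hL c a b)
    have h2 := hLs c a b
    have h3 : (0 : ℝ) ≤ (α + β) ^ s⁻¹ := by positivity
    calc |W c a b| * |D c a b| ≤ (|W c a b| ^ s * L c a b ^ (-θ) + (α + β) ^ s⁻¹ *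
          (V c a b ^ s⁻¹ + V1 c a ^ s⁻¹ + V2 c b ^ s⁻¹ + V0 c ^ s⁻¹)) * |D c a b| := by
          gcongr
          nlinarith [mul_nonneg h3 l0]
      _ = _ := by ring
  have : c2 / (1 - ρ) * X ≤ c2 / (1 - ρ) * Y := by gcongr
  show _ ≤ _ * Y
  linarith

end Pool.Agent.MP_f492a7_an

end
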