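import Mathlib
import Pool.Agent.Mg.Ff492a7p.Gf02925

section

namespace Pool.Agent.MP_f492a7_an

open Finset
open scoped BigOperators

variable {ι R : Type} [Fintype ι] [DecidableEq ι] [CommRing R] [Fintype R]

/-- bit in the ring -/
def bt (R : Type) [CommRing R] (b : Bool) : R := if b then 1 else 0
/-- bit as a real -/
def br (b : Bool) : ℝ := if b then 1 else 0
/-- bit vector -/
def bv (π : ι → Bool) : ι → R := fun i => bt R (π i)
/-- cube average -/
noncomputable def Sb (S : ι → (ι → R) → ℝ) (j : ι) (c : ι → R) : ℝ := 𝔼 γ : ι → Bool, S j (c + bv γ)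
/-- first order weight -/
noncomputable def Wt (S : ι → (ι → R) → ℝ) (c : ι → R) (a e : ι → Bool) : ℝ :=
  ∑ j, (br (e j) - br (a j)) * Sb S j c
/-- increment -/
def Dl (f : (ι → R) → ℝ) (c : ι → R) (a e : ι → Bool) : ℝ := f (c + bv e) - f (c + bv a)
/-- noise -/
noncomputable def Zt (S : ι → (ι → R) → ℝ) (c : ι → R) (a e b : ι → Bool) : ℝ :=
  ∑ j, (br (b j) - (br (a j) + br (e j)) / 2) * Sb S j c
/-- first flipped vector -/
def fa (τ a e : ι → Bool) : ι → Bool := fun j => xor (a j) (τ j && (a j == e j))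
/-- second flipped vector -/
def fe (τ a e : ι → Bool) : ι → Bool := fun j => xor (e j) (τ j && (a j == e j))
/-- flipped corner -/
def fc (τ : ι → Bool) (c : ι → R) (a e : ι → Bool) : ι → R := c + (bv a - bv (fa τ a e))
/-- offset of the smoothing point -/
def off (a e τ b : ι → Bool) : ι → R :=
  bv a - bv (fa τ a e) + bv (fun j => xor (fa τ a e j) (b j))
/-- local size -/
noncomputable def Ut (s : ℝ) (F : (ι → R) → ℝ) (c : ι → R) (a e : ι → Bool) : ℝ :=
  𝔼 τ : ι → Bool, 𝔼 b : ι → Bool, F (c + off a e τ b) ^ s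

theorem E3_flip (τ : ι → Bool) (H : (ι → R) → (ι → Bool) → (ι → Bool) → ℝ) :
    E3 (fun c a e => H (fc τ c a e) (fa τ a e) (fe τ a e)) = E3 H := by
  have h1 : ∀ H : (ι → R) → (ι → Bool) → (ι → Bool) → ℝ,
      E3 H = 𝔼 z : (ι → Bool) × (ι → Bool), 𝔼 c, H c z.1 z.2 := by
    intro H
    rw [ex_prod (fun z : (ι → Bool) × (ι → Bool) => 𝔼 c, H c z.1 z.2), E3,
      ex_comm (fun c a => 𝔼 e, H c a e)]
    exact ex_congr fun a => ex_comm (fun c e => H c a e)
  rw [h1, h1]
  have hinv : Function.Involutive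
      (fun z : (ι → Bool) × (ι → Bool) => (fa τ z.1 z.2, fe τ z.1 z.2)) := by
    rintro ⟨a, e⟩
    refine Prod.ext (funext fun j => ?_) (funext fun j => ?_)
    · simp only [fa, fe]; cases a j <;> cases e j <;> cases τ j <;> rfl
    · simp only [fa, fe]; cases a j <;> cases e j <;> cases τ j <;> rfl
  rw [← ex_invol hinv (fun z => 𝔼 c, H c z.1 z.2)]
  exact ex_congr fun z => ex_shift _ (fun c => H c (fa τ z.1 z.2) (fe τ z.1 z.2))

omit [Fintype ι] [DecidableEq ι] [Fintype R] in
theorem Dl_flip (f : (ι → R) → ℝ) (τ : ι → Bool) (c : ι → R) (a e : ι → Bool) :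
    Dl f (fc τ c a e) (fa τ a e) (fe τ a e) = Dl f c a e := by
  have h1 : fc τ c a e + bv (fa τ a e) = c + bv a := by rw [fc]; abel
  have h2 : fc τ c a e + bv (fe τ a e) = c + bv e := by
    funext j
    simp only [fc, bv, fa, fe, Pi.add_apply, Pi.sub_apply]
    cases a j <;> cases e j <;> cases τ j <;> simp [bt]
  rw [Dl, Dl, h1, h2]

omit [Fintype R] in
theorem Ut_flip (s : ℝ) (F : (ι → R) → ℝ) (τ : ι → Bool) (c : ι → R) (a e : ι → Bool) :
    Ut s F (fc τ c a e) (fa τ a e) (fe τ a e) = Ut s F c a e := by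
  have hinv : Function.Involutive (fun τ' : ι → Bool => fun j => xor (τ' j) (τ j)) := by
    intro τ'; funext j; simp
  rw [Ut, Ut, ← ex_invol hinv (fun τ' => 𝔼 b : ι → Bool, F (c + off a e τ' b) ^ s)]
  refine ex_congr fun τ' => ex_congr fun b => ?_
  congr 2
  funext j
  simp only [fc, off, bv, fa, fe, Pi.add_apply, Pi.sub_apply]
  cases a j <;> cases e j <;> cases τ j <;> cases τ' j <;> cases b j <;>
    simp [bt, add_assoc]

theorem ex_split (g : (ι → Bool) → ℝ) (j : ι) :
    𝔼 b, g b = 𝔼 b : ι → Bool, if b j then 0 else (g b + g (Function.update b j true)) := by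
  have hinv : Function.Involutive (fun b : ι → Bool => Function.update b j (!b j)) := by
    intro b; simp
  have h1 : 𝔼 b : ι → Bool, (if b j then g b else 0) =
      𝔼 b : ι → Bool, if b j then 0 else g (Function.update b j true) := by
    rw [← ex_invol hinv (fun b => if b j then g b else 0)]
    refine ex_congr fun b => ?_
    cases h : b j <;> simp [h]
  calc 𝔼 b, g b = 𝔼 b : ι → Bool, ((if b j then 0 else g b) + (if b j then g b else 0)) :=
        ex_congr fun b => by split_ifs <;> simp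
    _ = _ := by
        rw [ex_add, h1, ← ex_add]
        exact ex_congr fun b => by split_ifs <;> simp

theorem ex_resample (b : ι → Bool) (H : (ι → Bool) → ℝ) :
    𝔼 τ, H τ = 𝔼 τ : ι → Bool, 𝔼 τ' : ι → Bool, H (fun j => if b j then τ j else τ' j) := by
  have hinv : Function.Involutive (fun z : (ι → Bool) × (ι → Bool) =>
      ((fun j => if b j then z.1 j else z.2 j), (fun j => if b j then z.2 j else z.1 j))) := by
    rintro ⟨x, y⟩
    refine Prod.ext (funext fun j => ?_) (funext fun j => ?_) <;> cases h : b j <;> simp [h]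
  have := ex_invol hinv (fun z => H z.1)
  rw [ex_prod, ex_prod] at this
  simp only [ex_const] at this
  exact this.symm

theorem abs_br_sub (x y z : Bool) : |br x - (br y + br z) / 2| ≤ 1 := by
  cases x <;> cases y <;> cases z <;> norm_num [br, abs_le]

omit [Fintype R] in
theorem noise_bound {s : ℝ} (hs : 1 < s) (hs2 : s ≤ 2) (S : ι → (ι → R) → ℝ) (F : (ι → R) → ℝ)
    (hF0 : ∀ y, 0 ≤ F y) (hF1 : ∀ y, ∑ j, S j y ^ 2 ≤ F y ^ 2)
    (hF2 : ∀ y (σ : ι → Bool),
      ∑ j, |S j (y + Pi.single j (if σ j then -1 else 1)) - S j y| ≤ F y)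
    (c : ι → R) (a e : ι → Bool) :
    𝔼 τ : ι → Bool, 𝔼 π : ι → Bool, |Zt S (fc τ c a e) (fa τ a e) (fe τ a e) π| ^ s ≤
      2 ^ s * (2 ^ s + 1) * Ut s F c a e := by
  have hs0 : 0 < s := by linarith
  let ζ : (ι → Bool) → (ι → Bool) → ι → ℝ := fun τ π j =>
    br (π j) - (br (fa τ a e j) + br (fe τ a e j)) / 2
  let y : (ι → Bool) → (ι → Bool) → ι → R := fun τ b => c + off a e τ b
  let X : (ι → Bool) → (ι → Bool) → (ι → Bool) → ℝ := fun τ π b =>
    ∑ j, if b j then 0 else ζ τ π j * S j (y τ b)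
  let Y : (ι → Bool) → (ι → Bool) → (ι → Bool) → ℝ := fun τ π b =>
    ∑ j, if b j then 0 else ζ τ π j *
      (S j (y τ b + Pi.single j (if fa τ a e j then -1 else 1)) - S j (y τ b))
  have hSb : ∀ τ j, Sb S j (fc τ c a e) = 𝔼 b : ι → Bool, S j (y τ b) := by
    intro τ j
    have hinv : Function.Involutive (fun b : ι → Bool => fun i => xor (fa τ a e i) (b i)) := by
      intro b; funext i; simp
    rw [Sb, ← ex_invol hinv (fun γ => S j (fc τ c a e + bv γ))]
    refine ex_congr fun b => ?_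
    simp only [y, off, fc, add_assoc]
  have hupd : ∀ τ b j, b j = false → y τ (Function.update b j true) =
      y τ b + Pi.single j (if fa τ a e j then -1 else 1) := by
    intro τ b j hb
    funext i
    simp only [y, off, bv, Pi.add_apply, Pi.sub_apply]
    by_cases hi : i = j
    · subst hi
      rw [Function.update_self, Pi.single_eq_same, hb]
      cases fa τ a e i <;> simp [bt, add_assoc, sub_eq_add_neg]
    · rw [Function.update_of_ne hi, Pi.single_eq_of_ne hi, add_zero]
  have hZ : ∀ τ π, Zt S (fc τ c a e) (fa τ a e) (fe τ a e) π =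
      𝔼 b : ι → Bool, (2 * X τ π b + Y τ π b) := by
    intro τ π
    simp only [X, Y, Finset.mul_sum, ← Finset.sum_add_distrib]
    rw [ex_sum, Zt]
    refine Finset.sum_congr rfl fun j _ => ?_
    rw [hSb, ex_split _ j, ← ex_mul]
    refine ex_congr fun b => ?_
    cases hb : b j
    · simp only [Bool.false_eq_true, if_false, hupd τ b j hb, ζ]
      ring
    · simp
  have hY : ∀ τ π b, |Y τ π b| ≤ F (y τ b) := by
    intro τ π b
    refine le_trans ?_ (hF2 (y τ b) (fa τ a e))
    refine (Finset.abs_sum_le_sum_abs _ _).trans (Finset.sum_le_sum fun j _ => ?_)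
    split_ifs
    · simp
    · simp
    all_goals
      rw [abs_mul]
      exact mul_le_of_le_one_left (abs_nonneg _) (abs_br_sub _ _ _)
  have hX : ∀ b, 𝔼 τ : ι → Bool, 𝔼 π : ι → Bool, |X τ π b| ^ s ≤
      𝔼 τ : ι → Bool, F (y τ b) ^ s := by
    intro b
    rw [ex_resample b (fun τ => 𝔼 π : ι → Bool, |X τ π b| ^ s)]
    refine ex_le fun τ => ?_
    have hy : ∀ τ' : ι → Bool, y (fun j => if b j then τ j else τ' j) b = y τ b := by
      intro τ'
      funext i
      simp only [y, off, bv, fa, Pi.add_apply, Pi.sub_apply]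
      cases b i <;> simp
    let S' : ι → ℝ := fun j => if b j then 0 else S j (y τ b)
    have hS' : ∑ j, S' j ^ 2 ≤ F (y τ b) ^ 2 := by
      refine le_trans (Finset.sum_le_sum fun j _ => ?_) (hF1 _)
      simp only [S']
      split_ifs
      · simp [sq_nonneg]
      · exact le_rfl
    let g1 : ι → Bool → ℝ := fun j x => (br x - 1 / 2) * S' j
    let g2 : ι → Bool → ℝ := fun j x =>
      (1 / 2 - (br (xor (a j) (x && (a j == e j))) + br (xor (e j) (x && (a j == e j)))) / 2) * S' j
    have hXe : ∀ τ' π : ι → Bool, X (fun j => if b j then τ j else τ' j) π b =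
        ∑ j, g1 j (π j) + ∑ j, g2 j (τ' j) := by
      intro τ' π
      simp only [X, hy, ← Finset.sum_add_distrib]
      refine Finset.sum_congr rfl fun j _ => ?_
      simp only [g1, g2, S', ζ, fa, fe]
      cases b j
      · simp only [Bool.false_eq_true, if_false]; ring
      · simp
    have h1 : 𝔼 π : ι → Bool, (∑ j, g1 j (π j)) ^ 2 ≤ (∑ j, S' j ^ 2) / 4 := by
      rw [ex_sq_sum g1 (fun j => by simp only [g1, br]; norm_num), Finset.sum_div]
      refine Finset.sum_le_sum fun j _ => le_of_eq ?_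
      simp only [g1, br]; norm_num; ring
    have h2 : 𝔼 π : ι → Bool, (∑ j, g2 j (π j)) ^ 2 ≤ (∑ j, S' j ^ 2) / 4 := by
      rw [ex_sq_sum g2 (fun j => by
        simp only [g2]; cases a j <;> cases e j <;> norm_num [br] <;> ring), Finset.sum_div]
      refine Finset.sum_le_sum fun j _ => ?_
      simp only [g2]
      have := sq_nonneg (S' j)
      cases a j <;> cases e j <;> norm_num [br] <;> nlinarith
    have h3 : 𝔼 τ' : ι → Bool, 𝔼 π : ι → Bool,
        X (fun j => if b j then τ j else τ' j) π b ^ 2 ≤ F (y τ b) ^ 2 := by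
      calc _ ≤ 𝔼 τ' : ι → Bool, 𝔼 π : ι → Bool,
            (2 * (∑ j, g1 j (π j)) ^ 2 + 2 * (∑ j, g2 j (τ' j)) ^ 2) := by
            refine ex_le fun τ' => ex_le fun π => ?_
            rw [hXe]
            nlinarith [sq_nonneg (∑ j, g1 j (π j) - ∑ j, g2 j (τ' j))]
        _ ≤ _ := by
            simp only [ex_add, ex_mul, ex_const]
            linarith
    have hsq : ∀ x : ℝ, |x| ^ s = (x ^ 2) ^ (s / 2) := by
      intro x
      rw [← sq_abs, ← Real.rpow_two, ← Real.rpow_mul (abs_nonneg _)]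
      congr 1; ring
    calc _ = 𝔼 τ' : ι → Bool, 𝔼 π : ι → Bool,
          (X (fun j => if b j then τ j else τ' j) π b ^ 2) ^ (s / 2) :=
          ex_congr fun τ' => ex_congr fun π => hsq _
      _ ≤ 𝔼 τ' : ι → Bool, (𝔼 π : ι → Bool,
          X (fun j => if b j then τ j else τ' j) π b ^ 2) ^ (s / 2) :=
          ex_le fun τ' => jensen_concave (by linarith) (by linarith) fun π => sq_nonneg _
      _ ≤ (𝔼 τ' : ι → Bool, 𝔼 π : ι → Bool,
          X (fun j => if b j then τ j else τ' j) π b ^ 2) ^ (s / 2) :=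
          jensen_concave (by linarith) (by linarith) fun τ' => ex_nonneg fun π => sq_nonneg _
      _ ≤ (F (y τ b) ^ 2) ^ (s / 2) :=
          Real.rpow_le_rpow (ex_nonneg fun τ' => ex_nonneg fun π => sq_nonneg _) h3 (by linarith)
      _ = _ := by rw [← hsq, abs_of_nonneg (hF0 _)]
  have hpt : ∀ τ π, |Zt S (fc τ c a e) (fa τ a e) (fe τ a e) π| ^ s ≤
      𝔼 b : ι → Bool, 2 ^ s * (2 ^ s * |X τ π b| ^ s + F (y τ b) ^ s) := by
    intro τ π
    rw [hZ]
    refine (jensen_abs hs.le _).trans (ex_le fun b => ?_)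
    rw [← Real.mul_rpow (by norm_num) (abs_nonneg _)]
    refine le_trans ?_ (add_rpow_le hs0.le (by positivity) (hF0 _))
    refine Real.rpow_le_rpow (abs_nonneg _) ((abs_add_le _ _).trans ?_) hs0.le
    rw [abs_mul, abs_two]
    linarith [hY τ π b]
  refine (ex_le fun τ => ex_le fun π => hpt τ π).trans ?_
  simp only [ex_mul, ex_add, ex_const]
  have h4 : 𝔼 τ : ι → Bool, 𝔼 π : ι → Bool, 𝔼 b : ι → Bool, |X τ π b| ^ s ≤ Ut s F c a e := by
    rw [ex_congr fun τ => ex_comm (fun π b => |X τ π b| ^ s),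
      ex_comm (fun τ b => 𝔼 π : ι → Bool, |X τ π b| ^ s), Ut,
      ex_comm (fun τ b => F (c + off a e τ b) ^ s)]
    exact ex_le hX
  have h5 : (0 : ℝ) < 2 ^ s := by positivity
  have h6 : Ut s F c a e = 𝔼 τ : ι → Bool, 𝔼 b : ι → Bool, F (y τ b) ^ s := rfl
  rw [← h6]
  nlinarith [mul_le_mul_of_nonneg_left h4 (mul_pos h5 h5).le]

/-- the sampling offsets -/
def vv (k : Bool × Bool) (a e : ι → Bool)
    (ξ : (ι → Bool) × (ι → Bool) × (ι → Bool) × (ι → Bool)) : ι → R :=
  off (if k.1 then a else ξ.1) (if k.2 then e else ξ.2.1) ξ.2.2.1 ξ.2.2.2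

theorem scalar_bound {s : ℝ} (hs : 1 < s) (hs2 : s ≤ 2) : ∃ Cs : ℝ, 0 ≤ Cs ∧
    ∀ (ι R : Type) [Fintype ι] [DecidableEq ι] [CommRing R] [Fintype R]
      (S : ι → (ι → R) → ℝ) (F f : (ι → R) → ℝ), (∀ y, 0 ≤ F y) →
      (∀ y, ∑ j, S j y ^ 2 ≤ F y ^ 2) →
      (∀ y (σ : ι → Bool), ∑ j, |S j (y + Pi.single j (if σ j then -1 else 1)) - S j y| ≤ F y) →
      E3 (fun c a e => |Wt S c a e| * |Dl f c a e|) ≤
        Cs * ∑ k : Bool × Bool,
          E3 (fun c a e => (𝔼 ξ, F (c + vv k a e ξ) ^ s) ^ s⁻¹ * |Dl f c a e|) := by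
  obtain ⟨C0, hC0, hfix⟩ := fixed_point hs
  have hs0 : 0 < s := by linarith
  have hsi0 : 0 < s⁻¹ := by positivity
  have hsi1 : s⁻¹ ≤ 1 := inv_le_one_of_one_le₀ hs.le
  set CZ : ℝ := 2 ^ s * (2 ^ s + 1) with hCZ
  have hCZ0 : 0 < CZ := by positivity
  refine ⟨C0 * CZ ^ s⁻¹, by positivity, ?_⟩
  intro ι R _ _ _ _ S F f hF0 hF1 hF2
  have hU0 : ∀ c a e, 0 ≤ Ut s F c a e := fun c a e =>
    ex_nonneg fun τ => ex_nonneg fun b => Real.rpow_nonneg (hF0 _) _
  set T := E3 (fun c a e => |Wt S c a e| * |Dl f c a e|) with hT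
  set B := E3 (fun c a e => (Ut s F c a e ^ s⁻¹ + (𝔼 e', Ut s F c a e') ^ s⁻¹ +
    (𝔼 a', Ut s F c a' e) ^ s⁻¹ + (𝔼 a', 𝔼 e', Ut s F c a' e') ^ s⁻¹) * |Dl f c a e|) with hB
  have hBe : ∑ k : Bool × Bool,
      E3 (fun c a e => (𝔼 ξ, F (c + vv k a e ξ) ^ s) ^ s⁻¹ * |Dl f c a e|) = B := by
    rw [← E3_sum, hB]
    refine E3_congr fun c a e => ?_
    rw [← Finset.sum_mul]
    congr 1
    simp only [Fintype.sum_prod_type, Fintype.sum_bool, ex_prod, vv, if_true, Bool.false_eq_true,
      if_false, ex_const, Ut]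
    ring
  rw [hBe]
  set D0 := E3 (fun c a e => |Dl f c a e|) with hD0
  have hD00 : 0 ≤ D0 := E3_nonneg fun c a e => abs_nonneg _
  have main : ∀ ε : ℝ, 0 < ε → T ≤ C0 * CZ ^ s⁻¹ * B + ε * (4 * C0 * D0) := by
    intro ε hε
    have hκ : 0 < ε ^ s := by positivity
    have hroot : ∀ {u : ℝ}, 0 ≤ u → (CZ * u + ε ^ s) ^ s⁻¹ ≤ CZ ^ s⁻¹ * u ^ s⁻¹ + ε := by
      intro u hu
      refine (Real.rpow_add_le_add_rpow (by positivity) hκ.le hsi0.le hsi1).trans ?_
      rw [Real.mul_rpow hCZ0.le hu, Real.rpow_rpow_inv hε.le hs0.ne']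
    have hV : ∀ c a e, 0 < CZ * Ut s F c a e + ε ^ s := fun c a e => by
      have := hU0 c a e
      positivity
    have h := hfix (ι → R) (ι → Bool) (Wt S) (Dl f) (fun c a e => CZ * Ut s F c a e + ε ^ s) (Zt S)
      hV (fun c a e b => by
        simp only [Wt, Zt, Finset.sum_div, ← Finset.sum_add_distrib]
        exact Finset.sum_congr rfl fun j _ => by ring)
      (fun c a e b => by
        simp only [Wt, Zt, Finset.sum_div, ← Finset.sum_neg_distrib, ← Finset.sum_add_distrib]
        exact Finset.sum_congr rfl fun j _ => by ring)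
      (fun c a e b => by
        have : Dl f c a b = Dl f c a e + Dl f c e b := by simp only [Dl]; ring
        rw [this]; exact abs_add_le _ _)
      (by
        set H : (ι → R) → (ι → Bool) → (ι → Bool) → ℝ := fun c a e => 𝔼 b,
          |Zt S c a e b| ^ s * (CZ * Ut s F c a e + ε ^ s) ^ (-(1 - s⁻¹)) * |Dl f c a e| with hH
        calc E3 H = 𝔼 τ : ι → Bool, E3 (fun c a e => H (fc τ c a e) (fa τ a e) (fe τ a e)) := by
              rw [ex_congr fun τ => E3_flip τ H, ex_const]
          _ = E3 (fun c a e => 𝔼 τ : ι → Bool, H (fc τ c a e) (fa τ a e) (fe τ a e)) :=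
              (E3_ex (fun τ c a e => H (fc τ c a e) (fa τ a e) (fe τ a e))).symm
          _ ≤ _ := by
              refine E3_le fun c a e => ?_
              simp only [hH, Dl_flip, Ut_flip, ex_mul']
              have h1 := noise_bound hs hs2 S F hF0 hF1 hF2 c a e
              have h2 := hV c a e
              refine mul_le_mul_of_nonneg_right ?_ (abs_nonneg _)
              calc _ ≤ (CZ * Ut s F c a e + ε ^ s) * (CZ * Ut s F c a e + ε ^ s) ^ (-(1 - s⁻¹)) := by
                    gcongr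
                    linarith
                _ = _ := by
                    rw [mul_comm, ← Real.rpow_add_one h2.ne']
                    congr 1; ring)
    refine h.trans ?_
    have h2 : E3 (fun c a b => ((CZ * Ut s F c a b + ε ^ s) ^ s⁻¹ +
        (𝔼 e, (CZ * Ut s F c a e + ε ^ s)) ^ s⁻¹ + (𝔼 e, (CZ * Ut s F c e b + ε ^ s)) ^ s⁻¹ +
        (𝔼 e, 𝔼 e', (CZ * Ut s F c e e' + ε ^ s)) ^ s⁻¹) * |Dl f c a b|) ≤
        CZ ^ s⁻¹ * B + 4 * ε * D0 := by
      rw [hB, hD0, ← E3_mul, ← E3_mul, ← E3_add]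
      refine E3_le fun c a b => ?_
      simp only [ex_add, ex_mul, ex_const]
      have r1 := hroot (hU0 c a b)
      have r2 := hroot (ex_nonneg fun e => hU0 c a e)
      have r3 := hroot (ex_nonneg fun e => hU0 c e b)
      have r4 := hroot (ex_nonneg fun e => ex_nonneg fun e' => hU0 c e e')
      have := abs_nonneg (Dl f c a b)
      nlinarith
    calc _ ≤ C0 * (CZ ^ s⁻¹ * B + 4 * ε * D0) := mul_le_mul_of_nonneg_left h2 hC0
      _ = _ := by ring
  refine le_of_forall_pos_le_add fun δ hδ => ?_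
  have hK : 0 < 4 * C0 * D0 + 1 := by positivity
  refine (main (δ / (4 * C0 * D0 + 1)) (by positivity)).trans ?_
  have : δ / (4 * C0 * D0 + 1) * (4 * C0 * D0) ≤ δ := by
    rw [div_mul_eq_mul_div, div_le_iff₀ hK]
    nlinarith
  linarith

end Pool.Agent.MP_f492a7_an

end

section

namespace Pool.Agent.MP_f492a7_an

open Finset
open scoped BigOperators

variable {ι R : Type} [Fintype ι] [DecidableEq ι] [CommRing R] [Fintype R]

/-- line sums -/
def lineSum (h : ℕ) (s : ι → (ι → R) → ℝ) (j : ι) (y : ι → R) : ℝ :=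
  ∑ i ∈ Finset.range h, s j (y - Pi.single j (i : R))

/-- smoothing error -/
noncomputable def err (f : (ι → R) → ℝ) (j : ι) (x : ι → R) : ℝ :=
  𝔼 γ : ι → Bool, 𝔼 π : ι → Bool, if π j then 0 else (f (x - bv γ + bv π) - f x)

omit [Fintype ι] [Fintype R] in
theorem lineSum_succ (h : ℕ) (s : ι → (ι → R) → ℝ) (j : ι) (y : ι → R) :
    lineSum h s j (y + Pi.single j 1) - lineSum h s j y =
      s j (y + Pi.single j 1) - s j (y + Pi.single j 1 - Pi.single j (h : R)) := by
  have := Finset.sum_range_sub' (fun i : ℕ => s j (y + Pi.single j 1 - Pi.single j (i : R))) h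
  simp only [Nat.cast_zero, Pi.single_zero, sub_zero] at this
  rw [← this, lineSum, lineSum, ← Finset.sum_sub_distrib]
  refine Finset.sum_congr rfl fun i _ => ?_
  congr 2
  rw [Nat.cast_succ, Pi.single_add]; abel

omit [Fintype ι] [Fintype R] in
theorem lineSum_pred (h : ℕ) (s : ι → (ι → R) → ℝ) (j : ι) (y : ι → R) :
    lineSum h s j (y + Pi.single j (-1)) - lineSum h s j y =
      s j (y - Pi.single j (h : R)) - s j y := by
  have := lineSum_succ h s j (y + Pi.single j (-1))
  have e : y + Pi.single j (-1) + Pi.single j (1 : R) = y := by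
    rw [add_assoc, ← Pi.single_add]; simp
  rw [e] at this
  linarith

theorem main_identity (h : ℕ) (s : ι → (ι → R) → ℝ) (f : (ι → R) → ℝ) :
    ∑ j, 𝔼 x, s j x * (f (x + Pi.single j (h : R)) - f x) =
      2 * E3 (fun c a e => Wt (lineSum h s) c a e * Dl f c a e) -
        2 * ∑ j, 𝔼 x, s j x * (err f j (x + Pi.single j (h : R)) - err f j x) := by
  let H0 : ι → (ι → R) → ℝ := fun j c => 𝔼 π : ι → Bool, if π j then 0 else f (c + bv π)
  let H : ι → (ι → R) → ℝ := fun j y => 𝔼 γ : ι → Bool, H0 j (y - bv γ)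
  have hhalf : ∀ j, 𝔼 π : ι → Bool, br (π j) = 1 / 2 := by
    intro j; rw [ex_coord j br, ex_bool]; simp [br]
  have h1 : ∀ j c, 𝔼 a : ι → Bool, 𝔼 e : ι → Bool, (br (e j) - br (a j)) * Dl f c a e =
      H0 j (c + Pi.single j 1) - H0 j c := by
    intro j c
    have e1 : ∀ a e : ι → Bool, (br (e j) - br (a j)) * Dl f c a e =
        br (e j) * f (c + bv e) - br (e j) * f (c + bv a) - br (a j) * f (c + bv e) +
          br (a j) * f (c + bv a) := by
      intro a e; simp only [Dl]; ring
    simp only [e1, ex_add, ex_sub, ex_mul, ex_mul', ex_const, hhalf]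
    have e2 : 𝔼 π : ι → Bool, (2 * (br (π j) * f (c + bv π)) - f (c + bv π)) =
        H0 j (c + Pi.single j 1) - H0 j c := by
      rw [ex_split _ j, ← ex_sub]
      refine ex_congr fun π => ?_
      cases hπ : π j
      · have : c + bv (Function.update π j true) = c + Pi.single j 1 + bv π := by
          funext i
          by_cases hi : i = j
          · subst hi; simp [bv, bt, hπ]
          · simp [bv, hi]
        simp only [Bool.false_eq_true, if_false, Function.update_self, this, br, if_true]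
        ring
      · simp
    rw [← e2, ex_sub, ex_mul]
    ring
  have h2 : E3 (fun c a e => Wt (lineSum h s) c a e * Dl f c a e) =
      ∑ j, 𝔼 y, lineSum h s j y * (H j (y + Pi.single j 1) - H j y) := by
    simp only [Wt, Finset.sum_mul]
    rw [E3_sum]
    refine Finset.sum_congr rfl fun j _ => ?_
    calc E3 (fun c a e => (br (e j) - br (a j)) * Sb (lineSum h s) j c * Dl f c a e)
        = 𝔼 c, Sb (lineSum h s) j c * (H0 j (c + Pi.single j 1) - H0 j c) := by
          refine ex_congr fun c => ?_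
          rw [← h1, ← ex_mul]
          refine ex_congr fun a => ?_
          rw [← ex_mul]
          exact ex_congr fun e => by ring
      _ = 𝔼 γ : ι → Bool, 𝔼 c, lineSum h s j (c + bv γ) * (H0 j (c + Pi.single j 1) - H0 j c) := by
          rw [ex_comm]
          exact ex_congr fun c => by rw [Sb, ex_mul']
      _ = 𝔼 γ : ι → Bool, 𝔼 y, lineSum h s j y *
            (H0 j (y + Pi.single j 1 - bv γ) - H0 j (y - bv γ)) := by
          refine ex_congr fun γ => ?_
          refine Eq.trans ?_ (ex_shift (bv γ) _)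
          refine ex_congr fun c => ?_
          rw [add_sub_cancel_right, add_right_comm, add_sub_cancel_right]
      _ = _ := by
          rw [ex_comm]
          exact ex_congr fun y => by rw [ex_mul, ex_sub]
  have h3 : ∀ j, 𝔼 y, lineSum h s j y * (H j (y + Pi.single j 1) - H j y) =
      𝔼 x, s j x * (H j (x + Pi.single j (h : R)) - H j x) := by
    intro j
    simp only [lineSum, Finset.sum_mul]
    rw [ex_sum]
    have : ∀ i : ℕ, 𝔼 y, s j (y - Pi.single j (i : R)) * (H j (y + Pi.single j 1) - H j y) =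
        𝔼 x, s j x * (H j (x + Pi.single j ((i + 1 : ℕ) : R)) - H j (x + Pi.single j (i : R))) := by
      intro i
      refine (ex_shift (Pi.single j (i : R) : ι → R) _).symm.trans ?_
      refine ex_congr fun x => ?_
      rw [add_sub_cancel_right, Nat.cast_succ, Pi.single_add, add_assoc]
    rw [Finset.sum_congr rfl fun i _ => this i, ← ex_sum]
    refine ex_congr fun x => ?_
    rw [← Finset.mul_sum, Finset.sum_range_sub (fun i : ℕ => H j (x + (Pi.single j (i : R) : ι → R)))]
    simp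
  have h4 : ∀ j x, H j x = f x / 2 + err f j x := by
    intro j x
    have e : 𝔼 π : ι → Bool, (if π j then 0 else f x) = f x / 2 := by
      rw [ex_coord j (fun b : Bool => if b then 0 else f x), ex_bool]; simp
    have e' : f x / 2 = 𝔼 _γ : ι → Bool, 𝔼 π : ι → Bool, (if π j then 0 else f x) := by
      rw [ex_const, e]
    rw [e', err, ← ex_add]
    refine ex_congr fun γ => ?_
    rw [← ex_add]
    exact ex_congr fun π => by split_ifs <;> simp
  rw [h2, Finset.mul_sum, Finset.mul_sum, ← Finset.sum_sub_distrib]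
  refine Finset.sum_congr rfl fun j _ => ?_
  rw [h3, ← ex_mul, ← ex_mul, ← ex_sub]
  refine ex_congr fun x => ?_
  rw [h4, h4]; ring

end Pool.Agent.MP_f492a7_an

end
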