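import Mathlib
import Pool.Agent.Mg.Ff492a7p.Gf02925
import Pool.Agent.Mg.Ff492a7p.Gda66c8
import Pool.Agent.MP_f492a7_an.Defs

section

namespace Pool.Agent.MP_f492a7_an

open Finset

section group
variable {Y : Type*} [AddCommGroup Y] [Lattice Y] [IsOrderedAddMonoid Y]

theorem posPart_sub_eq (a b : Y) : (a - b)⁺ = a ⊔ b - b := by
  rw [posPart_def, sup_sub, sub_self]

theorem posPart_split (a b c : Y) : (a - b)⁺ = (a ⊓ c - b)⁺ + (a - b ⊔ c)⁺ := by
  letI : DistribLattice Y := AddCommGroup.toDistribLattice Y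
  rw [posPart_sub_eq, posPart_sub_eq, posPart_sub_eq]
  have h1 : a ⊓ c ⊔ b = (a ⊔ b) ⊓ (b ⊔ c) := by rw [sup_inf_right, sup_comm c b]
  have h2 : a ⊔ (b ⊔ c) = (a ⊔ b) ⊔ (b ⊔ c) := by
    rw [sup_assoc, ← sup_assoc b b c, sup_idem]
  have h3 := inf_add_sup (a ⊔ b) (b ⊔ c)
  rw [h1, h2]
  have : (a ⊔ b) ⊓ (b ⊔ c) = a ⊔ b + (b ⊔ c) - ((a ⊔ b) ⊔ (b ⊔ c)) := by rw [← h3]; abel
  rw [this]; abel

variable {G : Type*} [DecidableEq G]

omit [AddCommGroup Y] [IsOrderedAddMonoid Y] in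
theorem le_fold_inf (f : G → Y) (a t : Y) (B : Finset G) :
    t ≤ B.fold min a f ↔ t ≤ a ∧ ∀ x ∈ B, t ≤ f x := by
  induction B using Finset.induction_on with
  | empty => simp
  | insert z B hz ih =>
    rw [Finset.fold_insert hz, le_inf_iff, ih]
    simp only [Finset.mem_insert, forall_eq_or_imp]
    tauto

omit [AddCommGroup Y] [IsOrderedAddMonoid Y] in
theorem fold_sup_le (f : G → Y) (a t : Y) (B : Finset G) :
    B.fold max a f ≤ t ↔ a ≤ t ∧ ∀ x ∈ B, f x ≤ t := by
  induction B using Finset.induction_on with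
  | empty => simp
  | insert z B hz ih =>
    rw [Finset.fold_insert hz, sup_le_iff, ih]
    simp only [Finset.mem_insert, forall_eq_or_imp]
    tauto

theorem posPart_eq_sum (f : G → Y) (D : Finset G) : ∀ a b : Y, (a - b)⁺ =
    ∑ B ∈ D.powerset, (B.fold min a f - (D \ B).fold max b f)⁺ := by
  induction D using Finset.induction_on with
  | empty => intro a b; simp
  | insert z D hz ih =>
    intro a b
    rw [Finset.sum_powerset_insert hz, posPart_split a b (f z), add_comm, ih a (b ⊔ f z),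
      ih (a ⊓ f z) b]
    congr 1
    · refine Finset.sum_congr rfl fun B hB => ?_
      have hzB : z ∉ B := fun h => hz (Finset.mem_powerset.1 hB h)
      congr 2
      refine eq_of_forall_ge_iff fun t => ?_
      rw [fold_sup_le, fold_sup_le, Finset.insert_sdiff_of_notMem _ hzB]
      simp only [Finset.mem_insert, forall_eq_or_imp, sup_le_iff]
      tauto
    · refine Finset.sum_congr rfl fun B hB => ?_
      congr 2
      · refine eq_of_forall_le_iff fun t => ?_
        rw [le_fold_inf, le_fold_inf]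
        simp only [Finset.mem_insert, forall_eq_or_imp, le_inf_iff]
        tauto
      · congr 1
        ext x
        simp only [Finset.mem_sdiff, Finset.mem_insert]
        constructor
        · rintro ⟨h1, h2⟩
          exact ⟨Or.inr h1, fun h => h.elim (fun e => hz (e ▸ h1)) h2⟩
        · rintro ⟨h1, h2⟩
          exact ⟨h1.resolve_left fun e => h2 (Or.inl e), fun h => h2 (Or.inr h)⟩

theorem exists_cut_pos [Fintype G] (f : G → Y) : ∃ u : Finset G → Y, (∀ B, 0 ≤ u B) ∧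
    ∀ x y, (f x - f y)⁺ = ∑ B : Finset G, if x ∈ B ∧ y ∉ B then u B else 0 := by
  let hi : Y := Finset.univ.fold max 0 f
  let lo : Y := Finset.univ.fold min 0 f
  have hhi : ∀ x, f x ≤ hi := fun x => ((fold_sup_le f 0 hi _).1 le_rfl).2 x (Finset.mem_univ x)
  have hlo : ∀ x, lo ≤ f x := fun x => ((le_fold_inf f 0 lo _).1 le_rfl).2 x (Finset.mem_univ x)
  refine ⟨fun B => (B.fold min hi f - (Finset.univ \ B).fold max lo f)⁺,
    fun B => posPart_nonneg _, fun x y => ?_⟩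
  rw [posPart_eq_sum f Finset.univ, Finset.powerset_univ]
  refine Finset.sum_congr rfl fun B _ => ?_
  split_ifs with h
  · congr 2
    · refine eq_of_forall_le_iff fun t => ?_
      rw [le_fold_inf, le_fold_inf]
      exact ⟨fun h' => ⟨h'.1.trans (hhi x), h'.2⟩, fun h' => ⟨h'.2 x h.1, h'.2⟩⟩
    · refine eq_of_forall_ge_iff fun t => ?_
      rw [fold_sup_le, fold_sup_le]
      exact ⟨fun h' => ⟨(hlo y).trans h'.1, h'.2⟩,
        fun h' => ⟨h'.2 y (by simp [h.2]), h'.2⟩⟩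
  · rw [posPart_eq_zero, sub_nonpos]
    have h1 := (le_fold_inf f (f x) _ B).1 le_rfl
    have h2 := (fold_sup_le f (f y) _ (Finset.univ \ B)).1 le_rfl
    by_cases hx : x ∈ B
    · have hy : y ∈ B := by tauto
      exact (h1.2 y hy).trans h2.1
    · exact h1.1.trans (h2.2 x (by simp [hx]))

end group

section normed
variable {Y : Type*} [NormedAddCommGroup Y] [NormedSpace ℝ Y] [Lattice Y] [HasSolidNorm Y]
  [IsOrderedAddMonoid Y]

theorem smul_nonneg_of_solid {u : Y} (hu : 0 ≤ u) {t : ℝ} (ht : 0 ≤ t) : 0 ≤ t • u := by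
  have h1 : ∀ k : ℕ, 0 ≤ ((2 : ℝ) ^ k)⁻¹ • u := by
    intro k
    induction k with
    | zero => simpa using hu
    | succ k ih =>
      apply nsmul_two_semiclosed
      rw [two_nsmul, ← add_smul]
      convert ih using 2
      rw [pow_succ]; field_simp; ring
  have h2 : ∀ k : ℕ, 0 ≤ ((⌊t * 2 ^ k⌋₊ : ℝ) / 2 ^ k) • u := by
    intro k
    rw [div_eq_mul_inv, mul_smul, Nat.cast_smul_eq_nsmul]
    exact nsmul_nonneg (h1 k) _
  have h3 : Filter.Tendsto (fun k : ℕ => ((⌊t * 2 ^ k⌋₊ : ℝ) / 2 ^ k)) Filter.atTop (nhds t) :=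
    (tendsto_nat_floor_mul_div_atTop ht).comp
      (tendsto_pow_atTop_atTop_of_one_lt (by norm_num : (1 : ℝ) < 2))
  exact isClosed_nonneg.mem_of_tendsto (h3.smul_const u) (Filter.Eventually.of_forall h2)

theorem exists_cut {G : Type*} [Fintype G] [DecidableEq G] (f : G → Y) :
    ∃ (u : Finset G → Y) (c : G → Finset G → ℝ), (∀ B, 0 ≤ u B) ∧
      ∀ x y, |f x - f y| = ∑ B, |c x B - c y B| • u B := by
  obtain ⟨u, hu, h⟩ := exists_cut_pos f
  refine ⟨u, fun x B => if x ∈ B then 1 else 0, hu, fun x y => ?_⟩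
  rw [← posPart_add_negPart, ← posPart_neg, neg_sub, h x y, h y x, ← Finset.sum_add_distrib]
  refine Finset.sum_congr rfl fun B _ => ?_
  by_cases hx : x ∈ B <;> by_cases hy : y ∈ B <;> simp [hx, hy]

end normed

end Pool.Agent.MP_f492a7_an

end

section

namespace Pool.Agent.MP_f492a7_an

open Finset
open scoped BigOperators

/-- sign of a bit -/
def sg (b : Bool) : ℝ := if b then 1 else -1

theorem abs_sg (b : Bool) : |sg b| = 1 := by cases b <;> simp [sg]

/-- a lattice seminorm on a finite dimensional function space with a cotype inequality -/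
structure LatSemi (K : Type) [Fintype K] (q C : ℝ) where
  N : (K → ℝ) → ℝ
  nonneg : ∀ t, 0 ≤ N t
  mono : ∀ t t' : K → ℝ, (∀ A, |t A| ≤ |t' A|) → N t ≤ N t'
  add : ∀ t t' : K → ℝ, N (fun A => t A + t' A) ≤ N t + N t'
  smul : ∀ (a : ℝ) (t : K → ℝ), N (fun A => a * t A) = |a| * N t
  cot : ∀ (J : Type) [Fintype J] [DecidableEq J] (t : J → K → ℝ),
    ∑ j, N (t j) ^ q ≤ C ^ q * 𝔼 σ : J → Bool, N (fun A => ∑ j, sg (σ j) * |t j A|) ^ q
  norming : ∀ t0 : K → ℝ, ∃ s : K → ℝ, ∑ A, s A * t0 A = N t0 ∧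
    ∀ t : K → ℝ, ∑ A, |s A| * |t A| ≤ N t

/-- averaged concavity with constant `M` -/
def AvgConc {K : Type} [Fintype K] {q C : ℝ} (S : LatSemi K q C) (r : ℕ) (M : ℝ) : Prop :=
  ∀ (Ξ : Type) [Fintype Ξ] [Nonempty Ξ] (φ : Ξ → K → ℝ), (∀ A, 𝔼 ξ, |φ ξ A| ^ r ≤ 1) →
    ∀ w : K → ℝ, 𝔼 ξ, S.N (fun A => φ ξ A * w A) ^ q ≤ M * S.N w ^ q

variable {K : Type} [Fintype K] {q C : ℝ}

theorem AvgConc.scale {S : LatSemi K q C} {r : ℕ} {M : ℝ} (h : AvgConc S r M)
    (Ξ : Type) [Fintype Ξ] [Nonempty Ξ] (φ : Ξ → K → ℝ) {ν : ℝ} (hν : 0 < ν)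
    (hφ : ∀ A, 𝔼 ξ, |φ ξ A| ^ r ≤ ν ^ r) (w : K → ℝ) :
    𝔼 ξ, S.N (fun A => φ ξ A * w A) ^ q ≤ M * ν ^ q * S.N w ^ q := by
  have h1 := h Ξ (fun ξ A => φ ξ A / ν) (fun A => by
    simp only [abs_div, div_pow, abs_of_pos hν]
    rw [← Finset.expect_div, div_le_one (by positivity)]
    exact hφ A) w
  have h2 : ∀ ξ, S.N (fun A => φ ξ A * w A) ^ q = ν ^ q * S.N (fun A => φ ξ A / ν * w A) ^ q := by
    intro ξ
    rw [← Real.mul_rpow hν.le (S.nonneg _), ← abs_of_pos hν, ← S.smul, abs_of_pos hν]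
    congr 2
    funext A
    field_simp
  rw [ex_congr h2, ex_mul]
  calc ν ^ q * 𝔼 ξ, S.N (fun A => φ ξ A / ν * w A) ^ q ≤ ν ^ q * (M * S.N w ^ q) := by
        gcongr
    _ = _ := by ring

theorem avgConc_base (S : LatSemi K q C) {r : ℕ} (hq : 1 ≤ q) (hr : q ≤ r) :
    AvgConc S r (1 + Fintype.card K) := by
  intro Ξ _ _ φ hφ w
  have key : ∀ ξ, S.N (fun A => φ ξ A * w A) ^ q ≤ (1 + ∑ A, |φ ξ A| ^ r) * S.N w ^ q := by
    intro ξ
    set σ := 1 + ∑ A, |φ ξ A| ^ r with hσ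
    have hσ1 : 1 ≤ σ := le_add_of_nonneg_right (Finset.sum_nonneg fun A _ => by positivity)
    have hle : ∀ A, |φ ξ A| ≤ σ ^ q⁻¹ := by
      intro A
      rcases le_total |φ ξ A| 1 with h | h
      · exact h.trans (Real.one_le_rpow hσ1 (by positivity))
      · have h1 : |φ ξ A| ^ q ≤ σ := by
          calc |φ ξ A| ^ q ≤ |φ ξ A| ^ (r : ℝ) := Real.rpow_le_rpow_of_exponent_le h hr
            _ = |φ ξ A| ^ r := Real.rpow_natCast _ _
            _ ≤ ∑ A, |φ ξ A| ^ r :=
                Finset.single_le_sum (f := fun A => |φ ξ A| ^ r) (fun A _ => by positivity)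
                  (Finset.mem_univ A)
            _ ≤ σ := by linarith
        calc |φ ξ A| = (|φ ξ A| ^ q) ^ q⁻¹ :=
              (Real.rpow_rpow_inv (abs_nonneg _) (by linarith)).symm
          _ ≤ σ ^ q⁻¹ := Real.rpow_le_rpow (by positivity) h1 (by positivity)
    have hpos : 0 ≤ σ ^ q⁻¹ := by positivity
    calc S.N (fun A => φ ξ A * w A) ^ q ≤ S.N (fun A => σ ^ q⁻¹ * w A) ^ q := by
          refine Real.rpow_le_rpow (S.nonneg _) (S.mono _ _ fun A => ?_) (by linarith)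
          rw [abs_mul, abs_mul, abs_of_nonneg hpos]
          gcongr
          exact hle A
      _ = σ * S.N w ^ q := by
          rw [S.smul, abs_of_nonneg hpos, Real.mul_rpow hpos (S.nonneg _),
            Real.rpow_inv_rpow (by linarith) (by linarith)]
  refine (ex_le key).trans ?_
  rw [ex_mul', ex_add, ex_const, ex_sum]
  have := Real.rpow_nonneg (S.nonneg w) q
  gcongr
  calc ∑ A, 𝔼 ξ, |φ ξ A| ^ r ≤ ∑ _A : K, (1 : ℝ) := Finset.sum_le_sum fun A _ => hφ A
    _ = _ := by simp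

theorem pow_sum_le_sparse {L r : ℕ} (hL : 0 < L) {lam : ℝ} (hlam : 0 < lam) (x : Fin L → ℝ)
    (hx : ∀ i, x i = 0 ∨ lam ≤ x i) :
    (∑ i, x i) ^ r ≤ ∑ i, x i ^ r +
      (L : ℝ) ^ r / lam ^ r * ∑ i, ∑ l, if i = l then 0 else x i ^ r * x l ^ r := by
  have hx0 : ∀ i, 0 ≤ x i := fun i => (hx i).elim (fun h => h.ge) fun h => hlam.le.trans h
  haveI : Nonempty (Fin L) := ⟨⟨0, hL⟩⟩
  obtain ⟨i, -, hi⟩ := Finset.exists_max_image Finset.univ x Finset.univ_nonempty
  have hterm : ∀ i l, (0 : ℝ) ≤ if i = l then 0 else x i ^ r * x l ^ r := by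
    intro i l
    have := hx0 i; have := hx0 l
    split_ifs <;> positivity
  have h1 : 0 ≤ ∑ i, x i ^ r := Finset.sum_nonneg fun i _ => pow_nonneg (hx0 i) _
  have h2 : 0 ≤ ∑ i, ∑ l, if i = l then 0 else x i ^ r * x l ^ r :=
    Finset.sum_nonneg fun i _ => Finset.sum_nonneg fun l _ => hterm i l
  by_cases h : ∀ l, l ≠ i → x l = 0
  · rw [Finset.sum_eq_single i (fun l _ hl => h l hl) (by simp)]
    have : x i ^ r ≤ ∑ i, x i ^ r :=
      Finset.single_le_sum (f := fun i => x i ^ r) (fun i _ => pow_nonneg (hx0 i) _)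
        (Finset.mem_univ i)
    have h3 : 0 ≤ (L : ℝ) ^ r / lam ^ r * ∑ i, ∑ l, if i = l then 0 else x i ^ r * x l ^ r := by
      positivity
    linarith
  · push Not at h
    obtain ⟨l, hl, hl0⟩ := h
    have hl1 : lam ≤ x l := (hx l).resolve_left hl0
    have h3 : ∑ j, x j ≤ L * x i := by
      calc ∑ j, x j ≤ ∑ _j : Fin L, x i := Finset.sum_le_sum fun j _ => hi j (Finset.mem_univ j)
        _ = _ := by simp
    have h4 : x i ^ r * x l ^ r ≤ ∑ i, ∑ l, if i = l then 0 else x i ^ r * x l ^ r := by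
      calc x i ^ r * x l ^ r = if i = l then 0 else x i ^ r * x l ^ r := by simp [hl.symm]
        _ ≤ ∑ l, if i = l then 0 else x i ^ r * x l ^ r :=
            Finset.single_le_sum (f := fun l => if i = l then 0 else x i ^ r * x l ^ r)
              (fun l _ => hterm i l) (Finset.mem_univ l)
        _ ≤ _ := Finset.single_le_sum
              (f := fun i => ∑ l, if i = l then 0 else x i ^ r * x l ^ r)
              (fun i _ => Finset.sum_nonneg fun l _ => hterm i l) (Finset.mem_univ i)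
    have hxi := hx0 i
    calc (∑ i, x i) ^ r ≤ (L * x i) ^ r :=
          pow_le_pow_left₀ (Finset.sum_nonneg fun i _ => hx0 i) h3 _
      _ = (L : ℝ) ^ r / lam ^ r * (x i ^ r * lam ^ r) := by
          rw [mul_pow]; field_simp
      _ ≤ (L : ℝ) ^ r / lam ^ r * (x i ^ r * x l ^ r) := by gcongr
      _ ≤ (L : ℝ) ^ r / lam ^ r * ∑ i, ∑ l, if i = l then 0 else x i ^ r * x l ^ r := by gcongr
      _ ≤ _ := by linarith

theorem cot_pos (S : LatSemi K q C) (hq : 1 ≤ q) (hC : 0 ≤ C) (J : Type) [Fintype J]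
    [DecidableEq J] (ψ : J → K → ℝ) (w : K → ℝ) :
    ∑ j, S.N (fun A => ψ j A * w A) ^ q ≤ C ^ q * S.N (fun A => (∑ j, |ψ j A|) * w A) ^ q := by
  refine (S.cot J _).trans ?_
  refine mul_le_mul_of_nonneg_left ?_ (Real.rpow_nonneg hC _)
  refine Finset.expect_le Finset.univ_nonempty fun σ _ => ?_
  refine Real.rpow_le_rpow (S.nonneg _) (S.mono _ _ fun A => ?_) (by linarith)
  refine (Finset.abs_sum_le_sum_abs _ _).trans ?_
  rw [abs_mul, abs_of_nonneg (Finset.sum_nonneg fun j _ => abs_nonneg _), Finset.sum_mul]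
  refine Finset.sum_le_sum fun j _ => ?_
  rw [abs_mul, abs_sg, one_mul, abs_abs, abs_mul]

theorem avgConc_step (S : LatSemi K q C) {r : ℕ} (hq : 1 ≤ q) (hr : 2 * q ≤ r) (hC : 0 ≤ C)
    {t : ℕ} (ht1 : 1 ≤ t) (ht : 2 * (2 ^ q * C ^ q) ≤ t) {M : ℝ} (hM : 0 ≤ M)
    (h : AvgConc S r M) : AvgConc S r (2 ^ q * (((2 * t ^ 2 : ℕ) : ℝ) ^ 2) ^ q + M / 2) := by
  intro Ξ _ _ φ hφ w
  classical
  set L : ℕ := 2 * t ^ 2 with hL
  have hLpos : 0 < L := by positivity
  have hL1 : (1 : ℝ) ≤ L := by exact_mod_cast hLpos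
  set lam : ℝ := (L : ℝ) ^ 2 with hlam
  have hlampos : 0 < lam := by positivity
  have hr1 : 1 ≤ r := by
    have : (1 : ℝ) ≤ r := by linarith
    exact_mod_cast this
  let ψ : Ξ → K → ℝ := fun ξ A => if lam < |φ ξ A| then φ ξ A else 0
  have hψle : ∀ ξ A, |ψ ξ A| ≤ |φ ξ A| := by
    intro ξ A; simp only [ψ]; split_ifs <;> simp
  have hψr : ∀ A, 𝔼 ξ, |ψ ξ A| ^ r ≤ 1 := fun A =>
    (ex_le fun ξ => pow_le_pow_left₀ (abs_nonneg _) (hψle ξ A) r).trans (hφ A)
  have hψr0 : ∀ A, 0 ≤ 𝔼 ξ, |ψ ξ A| ^ r := fun A => ex_nonneg fun ξ => by positivity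
  have hNw := Real.rpow_nonneg (S.nonneg w) q
  have h1 : ∀ ξ, S.N (fun A => φ ξ A * w A) ^ q ≤
      2 ^ q * (lam ^ q * S.N w ^ q + S.N (fun A => ψ ξ A * w A) ^ q) := by
    intro ξ
    have e : (fun A => φ ξ A * w A) = fun A => (φ ξ A - ψ ξ A) * w A + ψ ξ A * w A := by
      funext A; ring
    have h2 : S.N (fun A => (φ ξ A - ψ ξ A) * w A) ≤ lam * S.N w := by
      rw [← abs_of_pos hlampos, ← S.smul]
      refine S.mono _ _ fun A => ?_
      rw [abs_mul, abs_mul, abs_of_pos hlampos]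
      gcongr
      simp only [ψ]
      split_ifs with h3
      · simp [hlampos.le]
      · simpa using h3
    rw [← Real.mul_rpow hlampos.le (S.nonneg w)]
    refine le_trans ?_ (add_rpow_le (by linarith) (mul_nonneg hlampos.le (S.nonneg w))
      (S.nonneg _))
    refine Real.rpow_le_rpow (S.nonneg _) ?_ (by linarith)
    rw [e]
    exact (S.add _ _).trans (by linarith)
  have htpos : (0 : ℝ) < t := by exact_mod_cast ht1
  set ν : ℝ := (2 * t) ^ q⁻¹ with hν
  have hνpos : 0 < ν := by positivity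
  have hνq : ν ^ q = 2 * t := Real.rpow_inv_rpow (by positivity) (by linarith)
  have hνr : 2 * (L : ℝ) ≤ ν ^ r := by
    have h2t : (1 : ℝ) ≤ 2 * t := by
      have : (1 : ℝ) ≤ t := by exact_mod_cast ht1
      linarith
    have hν1 : 1 ≤ ν := Real.one_le_rpow h2t (by positivity)
    calc 2 * (L : ℝ) = (ν ^ q) ^ (2 : ℝ) := by
          rw [hνq, hL, Real.rpow_two]; push_cast; ring
      _ = ν ^ (q * 2) := (Real.rpow_mul hνpos.le _ _).symm
      _ ≤ ν ^ (r : ℝ) := Real.rpow_le_rpow_of_exponent_le hν1 (by linarith)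
      _ = ν ^ r := Real.rpow_natCast _ _
  have h3 : ∀ A, 𝔼 ξ : Fin L → Ξ, |(∑ j, |ψ (ξ j) A|)| ^ r ≤ ν ^ r := by
    intro A
    refine le_trans ?_ hνr
    have hp : ∀ ξ : Fin L → Ξ, |(∑ j, |ψ (ξ j) A|)| ^ r ≤ ∑ i, |ψ (ξ i) A| ^ r +
        (L : ℝ) ^ r / lam ^ r *
          ∑ i, ∑ l, if i = l then 0 else |ψ (ξ i) A| ^ r * |ψ (ξ l) A| ^ r := by
      intro ξ
      rw [abs_of_nonneg (Finset.sum_nonneg fun j _ => abs_nonneg _)]
      refine pow_sum_le_sparse hLpos hlampos (fun j => |ψ (ξ j) A|) fun j => ?_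
      simp only [ψ]
      split_ifs with h4
      · exact Or.inr h4.le
      · exact Or.inl abs_zero
    refine (ex_le hp).trans ?_
    rw [ex_add, ex_mul, ex_sum, ex_sum]
    have a1 : ∑ i : Fin L, 𝔼 ξ : Fin L → Ξ, |ψ (ξ i) A| ^ r ≤ L := by
      calc _ ≤ ∑ _i : Fin L, (1 : ℝ) := Finset.sum_le_sum fun i _ => by
            rw [ex_coord i (fun x => |ψ x A| ^ r)]; exact hψr A
        _ = _ := by simp
    have a2 : ∑ i : Fin L, 𝔼 ξ : Fin L → Ξ,
        (∑ l, if i = l then 0 else |ψ (ξ i) A| ^ r * |ψ (ξ l) A| ^ r) ≤ (L : ℝ) ^ 2 := by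
      calc _ ≤ ∑ _i : Fin L, ∑ _l : Fin L, (1 : ℝ) := by
            refine Finset.sum_le_sum fun i _ => ?_
            rw [ex_sum]
            refine Finset.sum_le_sum fun l _ => ?_
            by_cases hil : i = l
            · simp [hil]
            · simp only [hil, if_false]
              rw [ex_pair hil (fun x => |ψ x A| ^ r) (fun x => |ψ x A| ^ r)]
              exact mul_le_one₀ (hψr A) (hψr0 A) (hψr A)
        _ = _ := by simp [sq]
    have a3 : (L : ℝ) ^ r / lam ^ r * (L : ℝ) ^ 2 ≤ L := by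
      rw [hlam, div_mul_eq_mul_div, div_le_iff₀ (by positivity), ← pow_mul, ← pow_add,
        ← pow_succ']
      exact pow_le_pow_right₀ hL1 (by omega)
    have a4 : (0 : ℝ) ≤ (L : ℝ) ^ r / lam ^ r := by positivity
    nlinarith [mul_le_mul_of_nonneg_left a2 a4]
  have h4 := h.scale (Fin L → Ξ) (fun ξ A => ∑ j, |ψ (ξ j) A|) hνpos h3 w
  have h5 : (L : ℝ) * 𝔼 ξ, S.N (fun A => ψ ξ A * w A) ^ q ≤ C ^ q * (M * ν ^ q * S.N w ^ q) := by
    calc (L : ℝ) * 𝔼 ξ, S.N (fun A => ψ ξ A * w A) ^ q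
        = 𝔼 ξ : Fin L → Ξ, ∑ j, S.N (fun A => ψ (ξ j) A * w A) ^ q := by
          rw [ex_sum]
          rw [Finset.sum_congr rfl fun j _ =>
            ex_coord j (fun x => S.N (fun A => ψ x A * w A) ^ q)]
          simp
      _ ≤ 𝔼 ξ : Fin L → Ξ, C ^ q * S.N (fun A => (∑ j, |ψ (ξ j) A|) * w A) ^ q :=
          ex_le fun ξ => cot_pos S hq hC (Fin L) (fun j => ψ (ξ j)) w
      _ ≤ _ := by
          rw [ex_mul]
          exact mul_le_mul_of_nonneg_left h4 (Real.rpow_nonneg hC _)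
  have h6 : 2 ^ q * 𝔼 ξ, S.N (fun A => ψ ξ A * w A) ^ q ≤ M / 2 * S.N w ^ q := by
    rw [hνq, hL] at h5
    push_cast at h5
    set X := 𝔼 ξ, S.N (fun A => ψ ξ A * w A) ^ q
    have hX : t * X ≤ C ^ q * (M * S.N w ^ q) := by
      have : (2 * t) * (t * X) ≤ (2 * t) * (C ^ q * (M * S.N w ^ q)) := by nlinarith
      exact le_of_mul_le_mul_left this (by positivity)
    have h2q : (0 : ℝ) < 2 ^ q := by positivity
    have hMN : 0 ≤ M * S.N w ^ q := by positivity
    have : t * (2 ^ q * X) ≤ t * (M / 2 * S.N w ^ q) := by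
      calc t * (2 ^ q * X) = 2 ^ q * (t * X) := by ring
        _ ≤ 2 ^ q * (C ^ q * (M * S.N w ^ q)) := by gcongr
        _ = (2 * (2 ^ q * C ^ q)) * (M * S.N w ^ q) / 2 := by ring
        _ ≤ t * (M * S.N w ^ q) / 2 := by gcongr
        _ = _ := by ring
    exact le_of_mul_le_mul_left this htpos
  refine (ex_le h1).trans ?_
  rw [ex_mul, ex_add, ex_const]
  nlinarith

theorem exists_avgConc {r : ℕ} (hq : 1 ≤ q) (hr : 2 * q ≤ r) (hC : 0 ≤ C) :
    ∃ M : ℝ, 0 ≤ M ∧ ∀ (K : Type) [Fintype K] (S : LatSemi K q C), AvgConc S r M := by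
  obtain ⟨t, ht⟩ := exists_nat_ge (2 * (2 ^ q * C ^ q) + 1)
  have h0 : (0 : ℝ) ≤ 2 * (2 ^ q * C ^ q) := by
    have := Real.rpow_nonneg hC q
    positivity
  have ht1 : 1 ≤ t := by
    have : (1 : ℝ) ≤ t := by linarith
    exact_mod_cast this
  set a : ℝ := 2 ^ q * (((2 * t ^ 2 : ℕ) : ℝ) ^ 2) ^ q with ha
  have ha0 : 0 ≤ a := by positivity
  refine ⟨2 * a, by positivity, fun K _ S => ?_⟩
  set M0 : ℝ := 1 + Fintype.card K with hM0
  have hk : ∀ k : ℕ, AvgConc S r (2 * a + M0 * (1 / 2) ^ k) := by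
    intro k
    induction k with
    | zero =>
      intro Ξ _ _ φ hφ w
      refine (avgConc_base S hq (by linarith) Ξ φ hφ w).trans ?_
      have := Real.rpow_nonneg (S.nonneg w) q
      refine mul_le_mul_of_nonneg_right ?_ this
      rw [pow_zero, mul_one]
      linarith
    | succ k ih =>
      have := avgConc_step S hq hr hC ht1 (by linarith) (by positivity) ih
      convert this using 1
      rw [← ha]; ring
  intro Ξ _ _ φ hφ w
  have hlim : Filter.Tendsto (fun k : ℕ => (2 * a + M0 * (1 / 2 : ℝ) ^ k) * S.N w ^ q)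
      Filter.atTop (nhds ((2 * a + M0 * 0) * S.N w ^ q)) :=
    (((tendsto_pow_atTop_nhds_zero_of_lt_one (by norm_num) (by norm_num)).const_mul M0).const_add
      _).mul_const _
  rw [mul_zero, add_zero] at hlim
  exact ge_of_tendsto' hlim fun k => hk k Ξ φ hφ w

theorem khintchine_upper {J : Type} [Fintype J] [DecidableEq J] (θ : J → ℝ)
    (hθ : ∑ j, θ j ^ 2 ≤ 1) (r : ℕ) :
    𝔼 σ : J → Bool, |∑ j, sg (σ j) * θ j| ^ r ≤ 4 * r.factorial := by
  have hexp : ∀ e : ℝ, e ^ 2 = 1 → 𝔼 σ : J → Bool, Real.exp (e * ∑ j, sg (σ j) * θ j) ≤ 2 := by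
    intro e he
    simp only [Finset.mul_sum, Real.exp_sum]
    rw [ex_pi_prod (fun j b => Real.exp (e * (sg b * θ j)))]
    calc ∏ j, 𝔼 b, Real.exp (e * (sg b * θ j)) ≤ ∏ j, Real.exp (θ j ^ 2 / 2) := by
          refine Finset.prod_le_prod (fun j _ => ex_nonneg fun b => (Real.exp_pos _).le)
            fun j _ => ?_
          have := Real.cosh_le_exp_half_sq (e * θ j)
          rw [mul_pow, he, one_mul, Real.cosh_eq] at this
          rw [ex_bool]
          simpa [sg] using this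
      _ = Real.exp ((∑ j, θ j ^ 2) / 2) := by rw [Finset.sum_div, Real.exp_sum]
      _ ≤ Real.exp (1 / 2) := Real.exp_le_exp.2 (by linarith)
      _ ≤ 2 := by
          have h1 : Real.exp (1 / 2) ^ 2 = Real.exp 1 := by rw [← Real.exp_nat_mul]; norm_num
          have h2 := Real.exp_one_lt_d9
          nlinarith [Real.exp_pos (1 / 2 : ℝ)]
  have hf : (0 : ℝ) < r.factorial := by exact_mod_cast r.factorial_pos
  have key : ∀ x : ℝ, |x| ^ r ≤ r.factorial * (Real.exp (1 * x) + Real.exp (-1 * x)) := by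
    intro x
    have h := Real.pow_div_factorial_le_exp |x| (abs_nonneg x) r
    rw [div_le_iff₀ hf, mul_comm] at h
    refine h.trans ?_
    gcongr
    have := Real.exp_pos (1 * x)
    have := Real.exp_pos (-1 * x)
    rcases abs_cases x with h | h <;> rw [h.1]
    · simp only [one_mul] at *; linarith
    · simp only [neg_mul, one_mul] at *; linarith
  refine (ex_le fun σ => key _).trans ?_
  rw [ex_mul, ex_add]
  have := hexp 1 (by norm_num)
  have := hexp (-1) (by norm_num)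
  nlinarith

theorem two_concave {S : LatSemi K q C} {r : ℕ} (hr : 1 ≤ r) {M : ℝ} (hC : 0 ≤ C)
    (h : AvgConc S r M) (J : Type) [Fintype J] [DecidableEq J] (θ : J → K → ℝ)
    (hθ : ∀ A, ∑ j, θ j A ^ 2 ≤ 1) (w : K → ℝ) :
    ∑ j, S.N (fun A => θ j A * w A) ^ q ≤
      C ^ q * (M * (4 * r.factorial : ℝ) ^ q) * S.N w ^ q := by
  refine (S.cot J _).trans ?_
  have hf : (1 : ℝ) ≤ r.factorial := by exact_mod_cast r.factorial_pos
  have h1 := h.scale (J → Bool) (fun σ A => ∑ j, sg (σ j) * |θ j A|) (ν := 4 * r.factorial)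
    (by linarith) (fun A => by
      refine (khintchine_upper (fun j => |θ j A|) (by simpa using hθ A) r).trans ?_
      exact le_self_pow₀ (by linarith) (by omega)) (fun A => |w A|)
  have e1 : S.N (fun A => |w A|) = S.N w :=
    le_antisymm (S.mono _ _ fun A => by simp) (S.mono _ _ fun A => by simp)
  rw [e1] at h1
  rw [mul_assoc]
  refine mul_le_mul_of_nonneg_left ?_ (Real.rpow_nonneg hC _)
  refine le_trans (le_of_eq (ex_congr fun σ => ?_)) h1
  congr 2
  funext A
  rw [Finset.sum_mul]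
  exact Finset.sum_congr rfl fun j _ => by rw [abs_mul, mul_assoc]

theorem dual_avg {S : LatSemi K q C} {r : ℕ} {M p s : ℝ} (hpq : p.HolderConjugate q)
    (hs : s.HolderConjugate r) (h : AvgConc S r M) (Ξ : Type) [Fintype Ξ] [Nonempty Ξ]
    (F : Ξ → K → ℝ) (hF : ∀ ξ A, 0 ≤ F ξ A) (Φ : Ξ → ℝ) (hΦ0 : ∀ ξ, 0 ≤ Φ ξ)
    (hΦ : ∀ ξ (t : K → ℝ), ∑ A, F ξ A * |t A| ≤ Φ ξ * S.N t) (δ : K → ℝ) :
    ∑ A, (𝔼 ξ, F ξ A ^ s) ^ s⁻¹ * |δ A| ≤ 𝔼 ξ, Φ ξ ^ p + M * S.N δ ^ q := by
  have hs1 : 1 < s := hs.lt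
  have hs0 : 0 < s := by linarith
  set Λ : K → ℝ := fun A => (𝔼 ξ, F ξ A ^ s) ^ s⁻¹ with hΛ
  have hE : ∀ A, 0 ≤ 𝔼 ξ, F ξ A ^ s := fun A => ex_nonneg fun ξ => Real.rpow_nonneg (hF ξ A) _
  have hΛ0 : ∀ A, 0 ≤ Λ A := fun A => Real.rpow_nonneg (hE A) _
  have hΛs : ∀ A, Λ A ^ s = 𝔼 ξ, F ξ A ^ s := fun A => Real.rpow_inv_rpow (hE A) hs0.ne'
  let φ : Ξ → K → ℝ := fun ξ A => (F ξ A / Λ A) ^ (s - 1)
  have hφ0 : ∀ ξ A, 0 ≤ φ ξ A := fun ξ A => Real.rpow_nonneg (div_nonneg (hF ξ A) (hΛ0 A)) _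
  have hφr : ∀ A, 𝔼 ξ, |φ ξ A| ^ r ≤ 1 := by
    intro A
    have e : ∀ ξ, |φ ξ A| ^ r = F ξ A ^ s / Λ A ^ s := by
      intro ξ
      rw [abs_of_nonneg (hφ0 ξ A), ← Real.rpow_natCast,
        ← Real.rpow_mul (div_nonneg (hF ξ A) (hΛ0 A)), hs.sub_one_mul_conj,
        Real.div_rpow (hF ξ A) (hΛ0 A)]
    rw [ex_congr e, ← Finset.expect_div, ← hΛs]
    exact div_self_le_one _
  have hFφ : ∀ A, 𝔼 ξ, F ξ A * φ ξ A = Λ A := by
    intro A
    rcases (hΛ0 A).eq_or_lt with h0 | h0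
    · have : ∀ ξ, F ξ A * φ ξ A = 0 := by
        intro ξ
        simp only [φ, ← h0, div_zero]
        rw [Real.zero_rpow (by linarith), mul_zero]
      rw [ex_congr this, ex_const, ← h0]
    · have e : ∀ ξ, F ξ A * φ ξ A = F ξ A ^ s / Λ A ^ (s - 1) := by
        intro ξ
        simp only [φ]
        rw [Real.div_rpow (hF ξ A) h0.le, ← mul_div_assoc]
        congr 1
        conv_rhs => rw [show s = 1 + (s - 1) by ring]
        rw [Real.rpow_add' (hF ξ A) (by linarith), Real.rpow_one]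
      rw [ex_congr e, ← Finset.expect_div, ← hΛs, ← Real.rpow_sub h0]
      simp
  calc ∑ A, Λ A * |δ A| = 𝔼 ξ, ∑ A, F ξ A * |φ ξ A * δ A| := by
        rw [ex_sum]
        refine Finset.sum_congr rfl fun A _ => ?_
        rw [← hFφ A, ← ex_mul']
        exact ex_congr fun ξ => by rw [abs_mul, abs_of_nonneg (hφ0 ξ A), mul_assoc]
    _ ≤ 𝔼 ξ, (Φ ξ ^ p + S.N (fun A => φ ξ A * δ A) ^ q) :=
        ex_le fun ξ => (hΦ ξ _).trans (young' hpq (hΦ0 ξ) (S.nonneg _))
    _ ≤ _ := by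
        rw [ex_add]
        exact add_le_add le_rfl (h Ξ φ hφr δ)

end Pool.Agent.MP_f492a7_an

end

section

namespace Pool.Agent.MP_f492a7_an

open Finset
open scoped BigOperators

section
variable {ι R : Type} [Fintype ι] [DecidableEq ι] [CommRing R] [Fintype R]

theorem E3_shift {Ξ : Type} [Fintype Ξ] [Nonempty Ξ] (g : (ι → R) → ℝ)
    (v : (ι → Bool) → (ι → Bool) → Ξ → ι → R) :
    E3 (fun c a e => 𝔼 ξ, g (c + v a e ξ)) = 𝔼 y, g y := by
  rw [E3, ex_comm (fun c a => 𝔼 e, 𝔼 ξ, g (c + v a e ξ))]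
  refine (ex_congr fun a => ?_).trans (ex_const _)
  rw [ex_comm (fun c e => 𝔼 ξ, g (c + v a e ξ))]
  refine (ex_congr fun e => ?_).trans (ex_const _)
  rw [ex_comm (fun c ξ => g (c + v a e ξ))]
  exact (ex_congr fun ξ => ex_shift _ g).trans (ex_const _)

theorem E3_edge (g : (ι → R) → (ι → R) → ℝ) :
    𝔼 x, 𝔼 γ : ι → Bool, 𝔼 π : ι → Bool, g (x - bv γ + bv π) x =
      E3 (fun c a e => g (c + bv e) (c + bv a)) := by
  rw [E3, ex_comm, ex_comm (fun c a => 𝔼 e : ι → Bool, g (c + bv e) (c + bv a))]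
  refine ex_congr fun γ => ?_
  refine (ex_shift (bv γ) _).symm.trans (ex_congr fun c => ex_congr fun e => ?_)
  rw [add_sub_cancel_right]

omit [DecidableEq ι] in
theorem sum_rpow_le {p q m : ℝ} (hpq : p.HolderConjugate q) (hm : 0 < m)
    (hn : (Fintype.card ι : ℝ) ≤ m ^ q) (z : ι → ℝ) (hz : ∀ j, 0 ≤ z j) :
    (∑ j, z j) ^ p ≤ m ^ p * ∑ j, z j ^ p := by
  have hp := hpq.lt
  refine (Real.rpow_sum_le_const_mul_sum_rpow_of_nonneg Finset.univ hp.le fun j _ => hz j).trans ?_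
  refine mul_le_mul_of_nonneg_right ?_ (Finset.sum_nonneg fun j _ => Real.rpow_nonneg (hz j) _)
  calc ((Finset.univ : Finset ι).card : ℝ) ^ (p - 1) ≤ (m ^ q) ^ (p - 1) :=
        Real.rpow_le_rpow (by positivity) hn (by linarith)
    _ = m ^ p := by rw [← Real.rpow_mul hm.le, mul_comm, hpq.sub_one_mul_conj]

theorem lineSum_moment {p m : ℝ} (hp : 1 < p) {h : ℕ} (hh : (h : ℝ) ≤ m)
    (b : ι → (ι → R) → ℝ) (hb : ∀ j x, 0 ≤ b j x) (j : ι) :
    𝔼 y, lineSum h b j y ^ p ≤ m ^ p * 𝔼 x, b j x ^ p := by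
  have h0 : 0 ≤ 𝔼 x, b j x ^ p := ex_nonneg fun x => Real.rpow_nonneg (hb j x) _
  calc 𝔼 y, lineSum h b j y ^ p
      ≤ 𝔼 y : ι → R, (h : ℝ) ^ (p - 1) *
          ∑ i ∈ Finset.range h, b j (y - (Pi.single j ((i : ℕ) : R) : ι → R)) ^ p := by
        refine ex_le fun y => ?_
        have := Real.rpow_sum_le_const_mul_sum_rpow_of_nonneg (Finset.range h) hp.le
          (f := fun i : ℕ => b j (y - (Pi.single j (i : R) : ι → R))) fun i _ => hb j _
        rwa [Finset.card_range] at this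
    _ = (h : ℝ) ^ (p - 1) * (h * 𝔼 x, b j x ^ p) := by
        rw [ex_mul, ex_sum, Finset.sum_congr rfl fun i _ => ex_shift' _ (fun x => b j x ^ p)]
        simp
    _ = (h : ℝ) ^ p * 𝔼 x, b j x ^ p := by
        rw [← mul_assoc, ← Real.rpow_add_one' (by positivity) (by linarith), sub_add_cancel]
    _ ≤ _ := by gcongr

/-- boundary terms -/
def bdry (h : ℕ) (b : ι → (ι → R) → ℝ) (j : ι) (y : ι → R) : ℝ :=
  (b j (y + Pi.single j 1) + b j (y + (Pi.single j 1 - Pi.single j (h : R)))) +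
    (b j y + b j (y - Pi.single j (h : R)))

theorem bdry_moment {p : ℝ} (hp : 1 < p) (h : ℕ)
    (b : ι → (ι → R) → ℝ) (hb : ∀ j x, 0 ≤ b j x) (j : ι) :
    𝔼 y, bdry h b j y ^ p ≤ 4 * (2 ^ p * 2 ^ p) * 𝔼 x, b j x ^ p := by
  have hp0 : 0 ≤ p := by linarith
  calc 𝔼 y, bdry h b j y ^ p ≤ 𝔼 y, 2 ^ p * (2 ^ p * (b j (y + Pi.single j 1) ^ p +
        b j (y + (Pi.single j 1 - Pi.single j (h : R))) ^ p) +
        2 ^ p * (b j y ^ p + b j (y - Pi.single j (h : R)) ^ p)) := by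
        refine ex_le fun y => ?_
        refine (add_rpow_le hp0 (add_nonneg (hb _ _) (hb _ _)) (add_nonneg (hb _ _) (hb _ _))).trans ?_
        gcongr
        · exact add_rpow_le hp0 (hb _ _) (hb _ _)
        · exact add_rpow_le hp0 (hb _ _) (hb _ _)
    _ = _ := by
        simp only [ex_mul, ex_add]
        rw [ex_shift _ (fun x => b j x ^ p), ex_shift _ (fun x => b j x ^ p),
          ex_shift' _ (fun x => b j x ^ p)]
        ring

end

theorem vector_bound {p q C : ℝ} (hq : 2 ≤ q) (hC : 0 ≤ C) (hpq : p.HolderConjugate q) :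
    ∃ C1 C2 : ℝ, 0 < C1 ∧ 0 ≤ C2 ∧ ∀ (K : Type) [Fintype K] (S : LatSemi K q C)
      (ι R : Type) [Fintype ι] [DecidableEq ι] [CommRing R] [Fintype R] (h : ℕ) (m : ℝ),
      0 < m → (h : ℝ) ≤ m → (Fintype.card ι : ℝ) ≤ m ^ q →
      ∀ (cf : (ι → R) → K → ℝ) (sv : ι → (ι → R) → K → ℝ) (b : ι → (ι → R) → ℝ),
        (∀ j x, 0 ≤ b j x) → (∀ j x (t : K → ℝ), ∑ A, |sv j x A| * |t A| ≤ b j x * S.N t) →
        ∑ j, 𝔼 x, ∑ A, sv j x A * (cf (x + Pi.single j (h : R)) A - cf x A) ≤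
          C1 * m ^ p * ∑ j, 𝔼 x, b j x ^ p +
            C2 * E3 (fun (c : ι → R) (a e : ι → Bool) =>
              S.N (fun A => cf (c + bv e) A - cf (c + bv a) A) ^ q) := by
  have hp := hpq.lt
  have hp0 : 0 < p := by linarith
  have hq0 : 0 < q := by linarith
  set r : ℕ := 2 * ⌈q⌉₊ with hr
  have hr2 : 2 * q ≤ r := by
    rw [hr]; push_cast; linarith [Nat.le_ceil q]
  have hr1 : 1 ≤ r := by
    have : (1 : ℝ) ≤ r := by linarith
    exact_mod_cast this
  have hsr : (Real.conjExponent r).HolderConjugate r :=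
    (Real.HolderConjugate.conjExponent (by linarith)).symm
  set s := Real.conjExponent r with hsdef
  have hs1 : 1 < s := hsr.lt
  have hs2 : s ≤ 2 := by
    rw [hsdef, Real.conjExponent, div_le_iff₀ (by linarith)]; linarith
  obtain ⟨M, hM, hconc⟩ := exists_avgConc (q := q) (C := C) (r := r) (by linarith) hr2 hC
  obtain ⟨Cs, hCs, hsc⟩ := scalar_bound hs1 hs2
  set M2 : ℝ := C ^ q * (M * (4 * r.factorial : ℝ) ^ q) with hM2
  have hM20 : 0 ≤ M2 := by
    have := Real.rpow_nonneg hC q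
    positivity
  set M3 : ℝ := M2 ^ (1 / q) with hM3
  have hM30 : 0 ≤ M3 := Real.rpow_nonneg hM20 _
  set C3 : ℝ := 2 ^ p * (M3 ^ p + 4 * (2 ^ p * 2 ^ p)) with hC3
  have hC30 : 0 ≤ C3 := by positivity
  refine ⟨8 * Cs * C3 + 4, 8 * Cs * M + 4, by positivity, by positivity, ?_⟩
  intro K _ S ι R _ _ _ _ h m hm hh hn cf sv b hb hdual
  set D := ∑ j, 𝔼 x, b j x ^ p with hD
  set RR := E3 (fun (c : ι → R) (a e : ι → Bool) =>
    S.N (fun A => cf (c + bv e) A - cf (c + bv a) A) ^ q) with hRR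
  let SA : K → ι → (ι → R) → ℝ := fun A => lineSum h (fun j x => sv j x A)
  let F : (ι → R) → K → ℝ := fun y A =>
    √(∑ j, SA A j y ^ 2) + ∑ j, bdry h (fun j x => |sv j x A|) j y
  let Φ : (ι → R) → ℝ := fun y =>
    M3 * (∑ j, lineSum h b j y ^ p) ^ (1 / p) + ∑ j, bdry h b j y
  have hls0 : ∀ j y, 0 ≤ lineSum h b j y := fun j y => Finset.sum_nonneg fun i _ => hb _ _
  have hbd0 : ∀ j y, 0 ≤ bdry h b j y := fun j y =>
    add_nonneg (add_nonneg (hb _ _) (hb _ _)) (add_nonneg (hb _ _) (hb _ _))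
  have hbdA : ∀ A j y, 0 ≤ bdry h (fun j x => |sv j x A|) j y := fun A j y => by
    unfold bdry; positivity
  have hF0 : ∀ y A, 0 ≤ F y A := fun y A =>
    add_nonneg (Real.sqrt_nonneg _) (Finset.sum_nonneg fun j _ => hbdA A j y)
  have hlsp : ∀ y, 0 ≤ ∑ j, lineSum h b j y ^ p := fun y =>
    Finset.sum_nonneg fun j _ => Real.rpow_nonneg (hls0 j y) _
  have hΦ0 : ∀ y, 0 ≤ Φ y := fun y =>
    add_nonneg (mul_nonneg hM30 (Real.rpow_nonneg (hlsp y) _))
      (Finset.sum_nonneg fun j _ => hbd0 j y)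
  have hd1 : ∀ j y (t : K → ℝ), ∑ A, |SA A j y| * |t A| ≤ lineSum h b j y * S.N t := by
    intro j y t
    calc ∑ A, |SA A j y| * |t A|
        ≤ ∑ A, ∑ i ∈ Finset.range h, |sv j (y - Pi.single j (i : R)) A| * |t A| := by
          refine Finset.sum_le_sum fun A _ => ?_
          rw [← Finset.sum_mul]
          exact mul_le_mul_of_nonneg_right (Finset.abs_sum_le_sum_abs _ _) (abs_nonneg _)
      _ ≤ _ := by
          rw [Finset.sum_comm, lineSum, Finset.sum_mul]
          exact Finset.sum_le_sum fun i _ => hdual _ _ _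
  have hΦ : ∀ y (t : K → ℝ), ∑ A, F y A * |t A| ≤ Φ y * S.N t := by
    intro y t
    simp only [F, Φ, add_mul, Finset.sum_add_distrib]
    refine add_le_add ?_ ?_
    · let ρ : K → ℝ := fun A => √(∑ j, SA A j y ^ 2)
      have hρ2 : ∀ A, ρ A ^ 2 = ∑ j, SA A j y ^ 2 := fun A =>
        Real.sq_sqrt (Finset.sum_nonneg fun j _ => sq_nonneg _)
      let θ : ι → K → ℝ := fun j A => SA A j y / ρ A
      have hθ : ∀ A, ∑ j, θ j A ^ 2 ≤ 1 := by
        intro A
        simp only [θ, div_pow]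
        rw [← Finset.sum_div, ← hρ2]
        exact div_self_le_one _
      have hρθ : ∀ A, ρ A = ∑ j, SA A j y * θ j A := by
        intro A
        simp only [θ, ← mul_div_assoc, ← sq]
        rw [← Finset.sum_div, ← hρ2, sq, mul_self_div_self]
      have h2 := two_concave hr1 hC (hconc K S) ι θ hθ t
      calc ∑ A, ρ A * |t A| ≤ ∑ A, ∑ j, |SA A j y| * |θ j A * t A| := by
            refine Finset.sum_le_sum fun A _ => ?_
            rw [hρθ, Finset.sum_mul]
            refine Finset.sum_le_sum fun j _ => ?_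
            rw [abs_mul, ← mul_assoc, ← abs_mul]
            exact mul_le_mul_of_nonneg_right (le_abs_self _) (abs_nonneg _)
        _ ≤ ∑ j, lineSum h b j y * S.N (fun A => θ j A * t A) := by
            rw [Finset.sum_comm]
            exact Finset.sum_le_sum fun j _ => hd1 j y _
        _ ≤ (∑ j, lineSum h b j y ^ p) ^ (1 / p) *
              (∑ j, S.N (fun A => θ j A * t A) ^ q) ^ (1 / q) :=
            Real.inner_le_Lp_mul_Lq_of_nonneg _ hpq (fun j _ => hls0 j y) fun j _ => S.nonneg _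
        _ ≤ (∑ j, lineSum h b j y ^ p) ^ (1 / p) * (M3 * S.N t) := by
            refine mul_le_mul_of_nonneg_left ?_ (Real.rpow_nonneg (hlsp y) _)
            refine (Real.rpow_le_rpow (Finset.sum_nonneg fun j _ =>
              Real.rpow_nonneg (S.nonneg _) _) h2 (by positivity)).trans (le_of_eq ?_)
            rw [Real.mul_rpow hM20 (Real.rpow_nonneg (S.nonneg _) _), one_div,
              Real.rpow_rpow_inv (S.nonneg _) hq0.ne', hM3, one_div]
        _ = _ := by ring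
    · simp only [Finset.sum_mul]
      rw [Finset.sum_comm]
      refine Finset.sum_le_sum fun j _ => ?_
      simp only [bdry, add_mul, Finset.sum_add_distrib]
      exact add_le_add (add_le_add (hdual _ _ _) (hdual _ _ _))
        (add_le_add (hdual _ _ _) (hdual _ _ _))
  have hΦp : 𝔼 y, Φ y ^ p ≤ C3 * m ^ p * D := by
    have hmp : 0 ≤ m ^ p := by positivity
    calc 𝔼 y, Φ y ^ p
        ≤ 𝔼 y, 2 ^ p * (M3 ^ p * ∑ j, lineSum h b j y ^ p + m ^ p * ∑ j, bdry h b j y ^ p) := by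
          refine ex_le fun y => ?_
          refine (add_rpow_le hp0.le (mul_nonneg hM30 (Real.rpow_nonneg (hlsp y) _))
            (Finset.sum_nonneg fun j _ => hbd0 j y)).trans ?_
          gcongr
          · rw [Real.mul_rpow hM30 (Real.rpow_nonneg (hlsp y) _), one_div,
              Real.rpow_inv_rpow (hlsp y) hp0.ne']
          · exact sum_rpow_le hpq hm hn _ fun j => hbd0 j y
      _ = 2 ^ p * (M3 ^ p * ∑ j, 𝔼 y, lineSum h b j y ^ p +
            m ^ p * ∑ j, 𝔼 y, bdry h b j y ^ p) := by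
          simp only [ex_mul, ex_add, ex_sum]
      _ ≤ 2 ^ p * (M3 ^ p * ∑ j, m ^ p * 𝔼 x, b j x ^ p +
            m ^ p * ∑ j, 4 * (2 ^ p * 2 ^ p) * 𝔼 x, b j x ^ p) := by
          gcongr with j _ j _
          · exact lineSum_moment hp hh b hb j
          · exact bdry_moment hp h b hb j
      _ = _ := by
          rw [← Finset.mul_sum, ← Finset.mul_sum, ← hD, hC3]; ring
  have hmain : ∑ A, E3 (fun c a e => Wt (SA A) c a e * Dl (fun x => cf x A) c a e) ≤
      4 * Cs * (C3 * m ^ p * D + M * RR) := by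
    calc ∑ A, E3 (fun c a e => Wt (SA A) c a e * Dl (fun x => cf x A) c a e)
        ≤ ∑ A, Cs * ∑ k : Bool × Bool, E3 (fun c a e =>
            (𝔼 ξ, F (c + vv k a e ξ) A ^ s) ^ s⁻¹ * |Dl (fun x => cf x A) c a e|) := by
          refine Finset.sum_le_sum fun A _ => ?_
          refine le_trans (E3_le fun c a e => ?_)
            (hsc ι R (SA A) (fun y => F y A) (fun x => cf x A) (fun y => hF0 y A)
              (fun y => ?_) (fun y σ => ?_))
          · rw [← abs_mul]; exact le_abs_self _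
          · rw [← Real.sq_sqrt (Finset.sum_nonneg fun j _ => sq_nonneg (SA A j y))]
            refine pow_le_pow_left₀ (Real.sqrt_nonneg _) ?_ 2
            exact le_add_of_nonneg_right (Finset.sum_nonneg fun j _ => hbdA A j y)
          · refine le_trans ?_ (le_add_of_nonneg_left (Real.sqrt_nonneg _))
            refine Finset.sum_le_sum fun j _ => ?_
            simp only [SA, bdry]
            cases σ j
            · simp only [Bool.false_eq_true, if_false]
              rw [lineSum_succ, add_sub_assoc]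
              refine (abs_sub _ _).trans (le_add_of_nonneg_right (by positivity))
            · simp only [if_true]
              rw [lineSum_pred]
              refine (abs_sub _ _).trans ?_
              rw [add_comm]
              exact le_add_of_nonneg_left (by positivity)
      _ = Cs * ∑ k : Bool × Bool, E3 (fun c a e =>
            ∑ A, (𝔼 ξ, F (c + vv k a e ξ) A ^ s) ^ s⁻¹ * |Dl (fun x => cf x A) c a e|) := by
          rw [← Finset.mul_sum, Finset.sum_comm]
          congr 1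
          exact Finset.sum_congr rfl fun k _ => (E3_sum _ _).symm
      _ ≤ Cs * ∑ _k : Bool × Bool, (C3 * m ^ p * D + M * RR) := by
          refine mul_le_mul_of_nonneg_left (Finset.sum_le_sum fun k _ => ?_) hCs
          refine (E3_le fun c a e => dual_avg hpq hsr (hconc K S) _ (fun ξ => F (c + vv k a e ξ))
            (fun ξ A => hF0 _ A) (fun ξ => Φ (c + vv k a e ξ)) (fun ξ => hΦ0 _)
            (fun ξ t => hΦ _ t) (fun A => Dl (fun x => cf x A) c a e)).trans ?_
          rw [E3_add, E3_mul, E3_shift (fun y => Φ y ^ p)]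
          exact add_le_add hΦp le_rfl
      _ = _ := by simp; ring
  let B' : (ι → R) → ℝ := fun x =>
    𝔼 γ : ι → Bool, 𝔼 π : ι → Bool, S.N (fun A => cf (x - bv γ + bv π) A - cf x A)
  have hB0 : ∀ x, 0 ≤ B' x := fun x => ex_nonneg fun γ => ex_nonneg fun π => S.nonneg _
  have hBq : 𝔼 x, B' x ^ q ≤ RR := by
    rw [hRR, ← E3_edge (fun y x => S.N (fun A => cf y A - cf x A) ^ q)]
    refine ex_le fun x => ?_
    refine (jensen_rpow (by linarith) fun γ => ex_nonneg fun π => S.nonneg _).trans ?_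
    exact ex_le fun γ => jensen_rpow (by linarith) fun π => S.nonneg _
  have herr1 : ∀ j x x', |∑ A, sv j x A * err (fun x => cf x A) j x'| ≤ b j x * B' x' := by
    intro j x x'
    simp only [err, ← ex_mul, ← ex_sum, B']
    refine (ex_abs _).trans (ex_le fun γ => (ex_abs _).trans (ex_le fun π => ?_))
    split_ifs
    · simpa using mul_nonneg (hb j x) (S.nonneg _)
    · refine (Finset.abs_sum_le_sum_abs _ _).trans ?_
      simp only [abs_mul]
      exact hdual j x _
  have herr2 : ∀ v : ι → ι → R, ∑ j, 𝔼 x, b j x * B' (x + v j) ≤ m ^ p * D + RR := by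
    intro v
    calc ∑ j, 𝔼 x, b j x * B' (x + v j) = 𝔼 x, (∑ j, b j (x - v j)) * B' x := by
          simp only [Finset.sum_mul]
          rw [ex_sum]
          refine Finset.sum_congr rfl fun j _ => ?_
          refine Eq.trans ?_ (ex_shift (v j) _)
          exact ex_congr fun x => by rw [add_sub_cancel_right]
      _ ≤ 𝔼 x, (m ^ p * ∑ j, b j (x - v j) ^ p + B' x ^ q) := by
          refine ex_le fun x => ?_
          refine (young' hpq (Finset.sum_nonneg fun j _ => hb _ _) (hB0 x)).trans ?_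
          exact add_le_add (sum_rpow_le hpq hm hn _ fun j => hb _ _) le_rfl
      _ ≤ _ := by
          rw [ex_add, ex_mul, ex_sum,
            Finset.sum_congr rfl fun j _ => ex_shift' (v j) (fun x => b j x ^ p)]
          exact add_le_add le_rfl hBq
  have herr : - ∑ A, ∑ j, 𝔼 x, sv j x A * (err (fun x => cf x A) j (x + Pi.single j (h : R)) -
      err (fun x => cf x A) j x) ≤ 2 * (m ^ p * D + RR) := by
    have e1 := herr2 (fun j => Pi.single j (h : R))
    have e2 := herr2 (fun _ => 0)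
    simp only [add_zero] at e2
    rw [Finset.sum_comm, ← Finset.sum_neg_distrib]
    refine le_trans ?_ (show ∑ j, 𝔼 x, b j x * B' (x + Pi.single j (h : R)) +
      ∑ j, 𝔼 x, b j x * B' x ≤ _ by linarith)
    rw [← Finset.sum_add_distrib]
    refine Finset.sum_le_sum fun j _ => ?_
    rw [← ex_sum, ← ex_add, ← Finset.expect_neg_distrib]
    refine ex_le fun x => ?_
    simp only [mul_sub, Finset.sum_sub_distrib]
    have a1 := abs_le.1 (herr1 j x (x + Pi.single j (h : R)))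
    have a2 := abs_le.1 (herr1 j x x)
    linarith [a1.1, a2.2]
  have hid : ∑ j, 𝔼 x, ∑ A, sv j x A * (cf (x + Pi.single j (h : R)) A - cf x A) =
      2 * ∑ A, E3 (fun c a e => Wt (SA A) c a e * Dl (fun x => cf x A) c a e) -
      2 * ∑ A, ∑ j, 𝔼 x, sv j x A * (err (fun x => cf x A) j (x + Pi.single j (h : R)) -
        err (fun x => cf x A) j x) := by
    simp only [ex_sum]
    rw [Finset.sum_comm, Finset.mul_sum, Finset.mul_sum, ← Finset.sum_sub_distrib]
    exact Finset.sum_congr rfl fun A _ => main_identity h (fun j x => sv j x A) (fun x => cf x A)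
  rw [hid]
  linarith

end Pool.Agent.MP_f492a7_an

end

section

namespace Pool.Agent.MP_f492a7_an

open Finset
open scoped BigOperators

theorem ex_piFinset {ι B : Type} [Fintype ι] [DecidableEq ι] [Fintype B] (φ : B → ℤ)
    (hφ : Function.Injective φ) (s : Finset ℤ) (hs : ∀ z, z ∈ s ↔ ∃ b, φ b = z)
    (F : (ι → ℤ) → ℝ) :
    𝔼 ε ∈ Fintype.piFinset fun _ : ι => s, F ε = 𝔼 ω : ι → B, F (fun i => φ (ω i)) := by
  symm
  refine Finset.expect_nbij (fun ω i => φ (ω i)) ?_ (fun _ _ => rfl) ?_ ?_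
  · intro ω _
    exact Fintype.mem_piFinset.2 fun i => (hs _).2 ⟨_, rfl⟩
  · intro ω _ ω' _ h
    funext i
    exact hφ (congrFun h i)
  · intro ε hε
    have hε' := Fintype.mem_piFinset.1 (Finset.mem_coe.1 hε)
    choose ω hω using fun i => (hs _).1 (hε' i)
    exact ⟨ω, by simp, funext hω⟩

/-- integer sign of a bit -/
def sgz (b : Bool) : ℤ := if b then 1 else -1

theorem HasCotype.bool {Y : Type*} [NormedAddCommGroup Y] [NormedSpace ℝ Y] {q K : ℝ}
    (h : HasCotype Y q K) (J : Type) [Fintype J] [DecidableEq J] (y : J → Y) :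
    ∑ j, ‖y j‖ ^ q ≤ K ^ q * 𝔼 σ : J → Bool, ‖∑ j, sg (σ j) • y j‖ ^ q := by
  let e := (Fintype.equivFin J).symm
  have h1 := h _ (fun i => y (e i))
  rw [ex_piFinset sgz (by intro a b; cases a <;> cases b <;> simp [sgz]) _
    (by intro z; simp [sgz, eq_comm])] at h1
  rw [← e.sum_comp]
  refine h1.trans (le_of_eq ?_)
  congr 1
  refine Fintype.expect_equiv (Equiv.arrowCongr e (Equiv.refl Bool)) _ _ fun σ => ?_
  rw [← e.sum_comp]
  congr 2
  refine Finset.sum_congr rfl fun i _ => ?_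
  simp only [Equiv.arrowCongr_apply, Equiv.coe_refl, Function.comp, id, Equiv.symm_apply_apply]
  cases σ i <;> simp [sgz, sg]

section
variable {Y : Type*} [NormedAddCommGroup Y] [NormedSpace ℝ Y] [Lattice Y] [HasSolidNorm Y]
  [IsOrderedAddMonoid Y] {K : Type} [Fintype K]

theorem comb_le {u : K → Y} (hu : ∀ A, 0 ≤ u A) {w w' : K → ℝ} (h : ∀ A, w A ≤ w' A) :
    ∑ A, w A • u A ≤ ∑ A, w' A • u A := by
  refine Finset.sum_le_sum fun A _ => ?_
  rw [← sub_nonneg, ← sub_smul]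
  exact smul_nonneg_of_solid (hu A) (sub_nonneg.2 (h A))

theorem norm_comb_le {u : K → Y} (hu : ∀ A, 0 ≤ u A) {w w' : K → ℝ} (h : ∀ A, |w A| ≤ w' A) :
    ‖∑ A, w A • u A‖ ≤ ‖∑ A, w' A • u A‖ := by
  refine HasSolidNorm.solid (le_trans ?_ (le_abs_self _))
  rw [abs_le']
  refine ⟨comb_le hu fun A => (le_abs_self _).trans (h A), ?_⟩
  rw [← Finset.sum_neg_distrib]
  simp only [← neg_smul]
  exact comb_le hu fun A => (neg_le_abs _).trans (h A)

/-- the lattice seminorm generated by positive vectors -/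
noncomputable def latOf {q C : ℝ} (hq : 0 ≤ q) (hC : 0 ≤ C) (hY : HasCotype Y q C) (u : K → Y)
    (hu : ∀ A, 0 ≤ u A) : LatSemi K q C where
  N t := ‖∑ A, |t A| • u A‖
  nonneg t := norm_nonneg _
  mono t t' h := norm_comb_le hu fun A => by rw [abs_abs]; exact h A
  add t t' := by
    refine le_trans (norm_comb_le hu (w' := fun A => |t A| + |t' A|) fun A => ?_) ?_
    · rw [abs_abs]; exact abs_add_le _ _
    · simp only [add_smul, Finset.sum_add_distrib]
      exact norm_add_le _ _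
  smul a t := by
    simp only [abs_mul, mul_smul]
    rw [← Finset.smul_sum, norm_smul, Real.norm_eq_abs, abs_abs]
  cot J _ _ t := by
    refine (hY.bool J fun j => ∑ A, |t j A| • u A).trans ?_
    refine mul_le_mul_of_nonneg_left (ex_le fun σ => ?_) (Real.rpow_nonneg hC _)
    refine Real.rpow_le_rpow (norm_nonneg _) ?_ hq
    simp only [Finset.smul_sum, smul_smul]
    rw [Finset.sum_comm]
    simp only [← Finset.sum_smul]
    exact norm_comb_le hu fun A => le_rfl
  norming t0 := by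
    obtain ⟨φ, hφ1, hφ2⟩ := exists_dual_vector'' ℝ (∑ A, |t0 A| • u A)
    refine ⟨fun A => SignType.sign (t0 A) * φ (u A), ?_, fun t => ?_⟩
    · simp only [RCLike.ofReal_real_eq_id, id] at hφ2
      rw [← hφ2, map_sum]
      refine Finset.sum_congr rfl fun A _ => ?_
      rw [map_smul, smul_eq_mul, ← sign_mul_self]; ring
    · calc ∑ A, |(SignType.sign (t0 A) : ℝ) * φ (u A)| * |t A|
          ≤ ∑ A, (SignType.sign (φ (u A)) * |t A|) * φ (u A) := by
            refine Finset.sum_le_sum fun A _ => ?_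
            have h1 : |(SignType.sign (t0 A) : ℝ)| ≤ 1 := by
              rcases lt_trichotomy (t0 A) 0 with h | h | h <;> simp [h]
            have h2 : (SignType.sign (φ (u A)) : ℝ) * |t A| * φ (u A) = |φ (u A)| * |t A| := by
              rw [← sign_mul_self (φ (u A))]; ring
            rw [h2, abs_mul]
            exact mul_le_mul_of_nonneg_right
              (mul_le_of_le_one_left (abs_nonneg _) h1) (abs_nonneg _)
        _ = φ (∑ A, ((SignType.sign (φ (u A)) : ℝ) * |t A|) • u A) := by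
            rw [map_sum]
            exact Finset.sum_congr rfl fun A _ => by rw [map_smul, smul_eq_mul]
        _ ≤ ‖∑ A, ((SignType.sign (φ (u A)) : ℝ) * |t A|) • u A‖ := by
            refine (le_abs_self _).trans ((φ.le_opNorm _).trans ?_)
            exact mul_le_of_le_one_left (norm_nonneg _) hφ1
        _ ≤ _ := by
            refine norm_comb_le hu fun A => ?_
            rw [abs_mul, abs_abs]
            refine mul_le_of_le_one_left (abs_nonneg _) ?_
            rcases lt_trichotomy (φ (u A)) 0 with h | h | h <;> simp [h]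

end

/-- the coupling table -/
def tab : Fin 24 → (Bool × Bool) × (Fin 3 × Fin 3) :=
  ![((false, true), (2, 1)), ((false, true), (2, 1)), ((false, true), (2, 1)),
    ((false, true), (1, 2)), ((false, true), (1, 2)), ((false, true), (1, 2)),
    ((true, false), (0, 1)), ((true, false), (0, 1)), ((true, false), (0, 1)),
    ((true, false), (1, 0)), ((true, false), (1, 0)), ((true, false), (1, 0)),
    ((false, false), (1, 1)), ((false, false), (2, 0)), ((false, false), (2, 0)),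
    ((false, false), (2, 0)), ((false, false), (2, 0)), ((false, false), (2, 0)),
    ((true, true), (1, 1)), ((true, true), (0, 2)), ((true, true), (0, 2)),
    ((true, true), (0, 2)), ((true, true), (0, 2)), ((true, true), (0, 2))]

/-- values -/
def val3 (i : Fin 3) : ℤ := (i : ℕ) - 1

theorem tab_sum : ∀ i : Fin 24, (if (tab i).1.2 then (1 : ℤ) else 0) =
    (if (tab i).1.1 then (1 : ℤ) else 0) + val3 (tab i).2.1 + val3 (tab i).2.2 := by decide

theorem ex_fiber {Ω B : Type} [Fintype Ω] [Fintype B] [DecidableEq B] [Nonempty B] (φ : Ω → B)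
    (k : ℕ) (hk : 0 < k) (h : ∀ b, (Finset.univ.filter fun ω => φ ω = b).card = k) (g : B → ℝ) :
    𝔼 ω, g (φ ω) = 𝔼 b, g b := by
  have h1 : ∀ g : B → ℝ, ∑ ω, g (φ ω) = k * ∑ b, g b := by
    intro g
    rw [← Finset.sum_fiberwise Finset.univ φ, Finset.mul_sum]
    refine Finset.sum_congr rfl fun b _ => ?_
    rw [Finset.sum_congr rfl (g := fun _ => g b) fun ω hω => by rw [(Finset.mem_filter.1 hω).2]]
    simp [h b]
  have h2 := h1 (fun _ => 1)
  simp only [Finset.sum_const, Finset.card_univ, nsmul_eq_mul, mul_one] at h2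
  rw [Fintype.expect_eq_sum_div_card, Fintype.expect_eq_sum_div_card, h1, h2]
  have : (k : ℝ) ≠ 0 := by positivity
  rw [mul_div_mul_left _ _ this]

theorem couple {ι R : Type} [Fintype ι] [DecidableEq ι] [CommRing R] [Fintype R] {q : ℝ}
    (hq : 0 ≤ q) {Y : Type*} [NormedAddCommGroup Y] (f : (ι → R) → Y) :
    E3 (fun (c : ι → R) (a e : ι → Bool) => ‖f (c + bv e) - f (c + bv a)‖ ^ q) ≤
      2 * 2 ^ q * 𝔼 ω : ι → Fin 3, 𝔼 x, ‖f (x + fun j => (val3 (ω j) : R)) - f x‖ ^ q := by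
  set G : (ι → Fin 3) → ℝ := fun ω => 𝔼 x, ‖f (x + fun j => (val3 (ω j) : R)) - f x‖ ^ q with hG
  have e1 := ex_push (ι := ι) (fun i => (tab i).1) (ex_fiber _ 6 (by norm_num) (by decide))
    (fun z => 𝔼 c : ι → R, ‖f (c + bv fun i => (z i).2) - f (c + bv fun i => (z i).1)‖ ^ q)
  have e2 := ex_push (ι := ι) (fun i => (tab i).2.1) (ex_fiber _ 8 (by norm_num) (by decide)) G
  have e3 := ex_push (ι := ι) (fun i => (tab i).2.2) (ex_fiber _ 8 (by norm_num) (by decide)) G
  have e0 : E3 (fun (c : ι → R) (a e : ι → Bool) => ‖f (c + bv e) - f (c + bv a)‖ ^ q) =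
      𝔼 z : ι → Bool × Bool,
        𝔼 c : ι → R, ‖f (c + bv fun i => (z i).2) - f (c + bv fun i => (z i).1)‖ ^ q := by
    rw [ex_comm, E3]
    refine ex_congr fun c => ?_
    rw [← ex_prod (fun w : (ι → Bool) × (ι → Bool) => ‖f (c + bv w.2) - f (c + bv w.1)‖ ^ q)]
    exact (Fintype.expect_equiv (Equiv.arrowProdEquivProdArrow _ _ _) _ _ fun z => rfl).symm
  rw [e0, ← e1]
  calc _ ≤ 𝔼 ω : ι → Fin 24, 2 ^ q * (G (fun i => (tab (ω i)).2.2) + G (fun i => (tab (ω i)).2.1)) := by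
        refine ex_le fun ω => ?_
        set A : ι → R := bv fun i => (tab (ω i)).1.1
        set v1 : ι → R := fun j => (val3 (tab (ω j)).2.1 : R)
        set v2 : ι → R := fun j => (val3 (tab (ω j)).2.2 : R)
        have hv : (bv fun i => (tab (ω i)).1.2 : ι → R) = A + v1 + v2 := by
          funext i
          have := congrArg (Int.cast : ℤ → R) (tab_sum (ω i))
          simpa [A, v1, v2, bv, bt] using this
        simp only [hG]
        rw [hv, ← ex_shift (A + v1) (fun x => ‖f (x + v2) - f x‖ ^ q),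
          ← ex_shift A (fun x => ‖f (x + v1) - f x‖ ^ q), ← ex_add, ← ex_mul]
        refine ex_le fun c => ?_
        refine le_trans (Real.rpow_le_rpow (norm_nonneg _) ?_ hq)
          (add_rpow_le hq (norm_nonneg _) (norm_nonneg _))
        simp only [add_assoc]
        exact norm_sub_le_norm_sub_add_norm_sub _ _ _
    _ = _ := by
        rw [ex_mul, ex_add, e2, e3]; ring

universe u

theorem lattice_sharp {q C : ℝ} (hq : 2 ≤ q) (hC : 0 ≤ C) :
    ∃ Γ : ℝ, 0 < Γ ∧ ∀ (Y : Type u) [NormedAddCommGroup Y] [NormedSpace ℝ Y] [Lattice Y]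
      [HasSolidNorm Y] [IsOrderedAddMonoid Y], HasCotype Y q C →
      ∀ (n m : ℕ) [NeZero m], (n : ℝ) ^ (1 / q) ≤ m → MetricCotype Y q Γ n m := by
  have hq0 : 0 < q := by linarith
  have hpq : (Real.conjExponent q).HolderConjugate q :=
    (Real.HolderConjugate.conjExponent (by linarith)).symm
  set p := Real.conjExponent q
  have hp := hpq.lt
  obtain ⟨C1, C2, hC1, hC2, H⟩ := vector_bound hq hC hpq
  set T : ℝ := 2 * (2 * C1) ^ (q - 1) * (C2 + 1) * (2 * 2 ^ q) with hT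
  have hT0 : 0 < T := by positivity
  refine ⟨T ^ q⁻¹, by positivity, ?_⟩
  intro Y _ _ _ _ _ hY n m _ hnm f
  have hm : (0 : ℝ) < m := by exact_mod_cast Nat.pos_of_neZero m
  have hn : (Fintype.card (Fin n) : ℝ) ≤ (m : ℝ) ^ q := by
    rw [Fintype.card_fin]
    have := Real.rpow_le_rpow (by positivity) hnm hq0.le
    rwa [one_div, Real.rpow_inv_rpow (by positivity) hq0.ne'] at this
  obtain ⟨u, c, hu, hc⟩ := exists_cut f
  let S := latOf hq0.le hC hY u hu
  have hN : ∀ x y, S.N (fun A => c x A - c y A) = ‖f x - f y‖ := by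
    intro x y
    rw [← norm_abs_eq_norm, hc]; rfl
  set h : ℕ := m / 2
  let a : Fin n → (Fin n → ZMod m) → ℝ := fun j x => ‖f (x + Pi.single j (h : ZMod m)) - f x‖
  have ha : ∀ j x, 0 ≤ a j x := fun j x => norm_nonneg _
  choose s hs1 hs2 using fun (j : Fin n) (x : Fin n → ZMod m) =>
    S.norming (fun A => c (x + Pi.single j (h : ZMod m)) A - c x A)
  set L : ℝ := (2 * C1) ^ (q - 1) * (m : ℝ) ^ q with hL
  have hL0 : 0 < L := by positivity
  have hb : ∀ j x, 0 ≤ L⁻¹ * a j x ^ (q - 1) := fun j x =>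
    mul_nonneg (by positivity) (Real.rpow_nonneg (ha j x) _)
  have key := H _ S (Fin n) (ZMod m) h m hm
    (by exact_mod_cast Nat.div_le_self m 2) hn c
    (fun j x A => L⁻¹ * a j x ^ (q - 1) * s j x A) (fun j x => L⁻¹ * a j x ^ (q - 1)) hb
    (by
      intro j x t
      simp only [abs_mul (L⁻¹ * _), abs_of_nonneg (hb j x), mul_assoc (L⁻¹ * _)]
      rw [← Finset.mul_sum]
      exact mul_le_mul_of_nonneg_left (hs2 j x t) (hb j x))
  set D := ∑ j, 𝔼 x, a j x ^ q with hD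
  have k1 : ∑ j, 𝔼 x, ∑ A, L⁻¹ * a j x ^ (q - 1) * s j x A *
      (c (x + Pi.single j (h : ZMod m)) A - c x A) = L⁻¹ * D := by
    rw [hD, Finset.mul_sum]
    refine Finset.sum_congr rfl fun j _ => ?_
    rw [← ex_mul]
    refine ex_congr fun x => ?_
    simp only [mul_assoc (L⁻¹ * _)]
    rw [← Finset.mul_sum, hs1, hN, mul_assoc]
    congr 1
    exact (Real.rpow_add_one' (ha j x) (by linarith)).symm.trans (by rw [sub_add_cancel])
  have k2 : C1 * (m : ℝ) ^ p * ∑ j, 𝔼 x, (L⁻¹ * a j x ^ (q - 1)) ^ p = L⁻¹ * D / 2 := by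
    have e1 : ∀ j x, (L⁻¹ * a j x ^ (q - 1)) ^ p = L⁻¹ ^ p * a j x ^ q := by
      intro j x
      rw [Real.mul_rpow (by positivity) (Real.rpow_nonneg (ha j x) _), ← Real.rpow_mul (ha j x),
        hpq.symm.sub_one_mul_conj]
    have e2 : L ^ (p - 1) = 2 * C1 * (m : ℝ) ^ p := by
      have h1 : (q - 1) * (p - 1) = 1 := by
        have := hpq.symm.sub_one_mul_conj
        have h2 := hpq.sub_one_mul_conj
        nlinarith
      rw [hL, Real.mul_rpow (by positivity) (by positivity), ← Real.rpow_mul (by positivity),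
        ← Real.rpow_mul hm.le, h1, Real.rpow_one, mul_comm q, hpq.sub_one_mul_conj]
    have e3 : L⁻¹ ^ p = L⁻¹ * (2 * C1 * (m : ℝ) ^ p)⁻¹ := by
      rw [← e2, Real.inv_rpow hL0.le, ← mul_inv]
      congr 1
      rw [mul_comm, ← Real.rpow_add_one hL0.ne', sub_add_cancel]
    simp only [e1, ex_mul]
    rw [← Finset.mul_sum, ← hD, e3]
    have : (0 : ℝ) < (m : ℝ) ^ p := by positivity
    field_simp
  simp only [hN] at key
  rw [k1, k2] at key
  have k3 := couple (ι := Fin n) (R := ZMod m) hq0.le f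
  rw [ex_piFinset val3 (by decide) _ (by
    intro z
    simp only [Finset.mem_insert, Finset.mem_singleton, Fin.exists_fin_succ, val3]
    simp [eq_comm]), Real.rpow_inv_rpow hT0.le hq0.ne']
  set W := 𝔼 ω : Fin n → Fin 3, 𝔼 x, ‖f (x + fun j => (val3 (ω j) : ZMod m)) - f x‖ ^ q
  have hW : 0 ≤ W := ex_nonneg fun ω => ex_nonneg fun x => Real.rpow_nonneg (norm_nonneg _) _
  have k4 : L⁻¹ * D ≤ 2 * ((C2 + 1) * (2 * 2 ^ q * W)) := by
    have := mul_le_mul_of_nonneg_left k3 hC2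
    have h2 : 0 ≤ 2 * 2 ^ q * W := by positivity
    nlinarith
  rw [inv_mul_le_iff₀ hL0] at k4
  refine k4.trans (le_of_eq ?_)
  rw [hL, hT]; ring

end Pool.Agent.MP_f492a7_an

end
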