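import Mathlib
import Pool.Agent.Mg.Ff492a7p.Ge3ab80

section

namespace Pool.Agent.MP_f492a7_an

open Finset
open scoped BigOperators

variable {J : Type} [Fintype J] [DecidableEq J]

/-- imaginary part of a Riesz product -/
noncomputable def rz (σ : J → Bool) (b : J → ℝ) : ℝ :=
  (∏ l, (1 + Complex.I * ((sg (σ l) * b l : ℝ) : ℂ))).im

theorem rz_coef (b : J → ℝ) (j : J) : 𝔼 σ : J → Bool, sg (σ j) * rz σ b = b j := by
  let F : J → Bool → ℂ := fun l s =>
    (if l = j then (sg s : ℂ) else 1) * (1 + Complex.I * ((sg s * b l : ℝ) : ℂ))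
  have h1 : ∀ σ : J → Bool, sg (σ j) * rz σ b = (∏ l, F l (σ l)).im := by
    intro σ
    simp only [F, Finset.prod_mul_distrib, Finset.prod_ite_eq', Finset.mem_univ, if_true, rz]
    rw [Complex.im_ofReal_mul]
  have h2 : ∀ l, ∑ s, F l s = 2 * (if l = j then Complex.I * b j else 1) := by
    intro l
    by_cases h : l = j
    · subst h
      simp [F, sg]; ring
    · simp [F, sg, h]; ring
  simp only [h1]
  rw [Fintype.expect_eq_sum_div_card, ← Complex.im_sum, ← Fintype.piFinset_univ,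
    ← Finset.prod_univ_sum (fun _ => Finset.univ) F]
  simp only [h2, Finset.prod_mul_distrib, Finset.prod_ite_eq', Finset.mem_univ, if_true,
    Finset.prod_const, Finset.card_univ]
  rw [show (2 : ℂ) ^ Fintype.card J = ((2 ^ Fintype.card J : ℝ) : ℂ) by push_cast; rfl,
    Complex.im_ofReal_mul]
  simp

omit [Fintype J] [DecidableEq J] in
theorem norm_prod_sub_le (s : Finset J) (z z' : J → ℂ) (R : J → ℝ) (hR : ∀ l, 1 ≤ R l)
    (hz : ∀ l, ‖z l‖ ≤ R l) (hz' : ∀ l, ‖z' l‖ ≤ R l) :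
    ‖∏ l ∈ s, z l - ∏ l ∈ s, z' l‖ ≤ (∏ l ∈ s, R l) * ∑ l ∈ s, ‖z l - z' l‖ := by
  classical
  induction s using Finset.induction_on with
  | empty => simp
  | insert a s ha ih =>
    rw [Finset.prod_insert ha, Finset.prod_insert ha, Finset.prod_insert ha, Finset.sum_insert ha]
    have hP : ‖∏ l ∈ s, z' l‖ ≤ ∏ l ∈ s, R l := by
      rw [norm_prod]
      exact Finset.prod_le_prod (fun l _ => norm_nonneg _) fun l _ => hz' l
    have hP0 : 0 ≤ ∏ l ∈ s, R l := (norm_nonneg _).trans hP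
    have hS : 0 ≤ ∑ l ∈ s, ‖z l - z' l‖ := Finset.sum_nonneg fun l _ => norm_nonneg _
    calc ‖z a * ∏ l ∈ s, z l - z' a * ∏ l ∈ s, z' l‖
        = ‖z a * (∏ l ∈ s, z l - ∏ l ∈ s, z' l) + (z a - z' a) * ∏ l ∈ s, z' l‖ := by
          congr 1; ring
      _ ≤ R a * ((∏ l ∈ s, R l) * ∑ l ∈ s, ‖z l - z' l‖) + ‖z a - z' a‖ * ∏ l ∈ s, R l := by
          refine (norm_add_le _ _).trans (add_le_add ?_ ?_)
          · rw [norm_mul]
            exact mul_le_mul (hz a) ih (norm_nonneg _) (by linarith [hR a])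
          · rw [norm_mul]
            exact mul_le_mul_of_nonneg_left hP (norm_nonneg _)
      _ ≤ _ := by
          have := mul_le_mul_of_nonneg_right (hR a) (mul_nonneg (norm_nonneg (z a - z' a)) hP0)
          nlinarith

omit [Fintype J] [DecidableEq J] in
theorem norm_factor_le {s : Bool} {a b : ℝ} (h : |b| ≤ a) :
    ‖1 + Complex.I * ((sg s * b : ℝ) : ℂ)‖ ≤ Real.exp (a ^ 2 / 2) := by
  have h1 : b ^ 2 ≤ a ^ 2 := sq_le_sq' (abs_le.1 h).1 (abs_le.1 h).2
  have h2 : ‖1 + Complex.I * ((sg s * b : ℝ) : ℂ)‖ ^ 2 = 1 + b ^ 2 := by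
    rw [Complex.sq_norm, Complex.normSq_apply]
    cases s <;> simp [sg] <;> ring
  refine le_trans ?_ (Real.add_one_le_exp _)
  refine le_of_sq_le_sq ?_ (by positivity)
  rw [h2]; nlinarith [sq_nonneg (a ^ 2)]

omit [DecidableEq J] in
theorem prod_exp_le {a : J → ℝ} (ha : ∑ l, a l ^ 2 ≤ 1) : ∏ l, Real.exp (a l ^ 2 / 2) ≤ 2 := by
  rw [← Real.exp_sum, ← Finset.sum_div]
  calc Real.exp ((∑ l, a l ^ 2) / 2) ≤ Real.exp (1 / 2) := by gcongr
    _ ≤ 2 := by
      refine le_of_sq_le_sq ?_ (by norm_num)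
      rw [← Real.exp_nat_mul]
      norm_num
      linarith [Real.exp_one_lt_d9]

omit [DecidableEq J] in
theorem rz_abs_le {a b : J → ℝ} (ha : ∑ l, a l ^ 2 ≤ 1) (hb : ∀ l, |b l| ≤ a l) (σ : J → Bool) :
    |rz σ b| ≤ 2 := by
  refine (Complex.abs_im_le_norm _).trans (le_trans ?_ (prod_exp_le ha))
  rw [norm_prod]
  exact Finset.prod_le_prod (fun l _ => norm_nonneg _) fun l _ => norm_factor_le (hb l)

omit [DecidableEq J] in
theorem rz_lip {a b b' : J → ℝ} (ha : ∑ l, a l ^ 2 ≤ 1) (hb : ∀ l, |b l| ≤ a l)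
    (hb' : ∀ l, |b' l| ≤ a l) (σ : J → Bool) :
    |rz σ b - rz σ b'| ≤ 2 * ∑ l, |b l - b' l| := by
  rw [rz, rz, ← Complex.sub_im]
  refine (Complex.abs_im_le_norm _).trans ?_
  refine (norm_prod_sub_le _ _ _ (fun l => Real.exp (a l ^ 2 / 2))
    (fun l => Real.one_le_exp (by positivity)) (fun l => norm_factor_le (hb l))
    (fun l => norm_factor_le (hb' l))).trans ?_
  refine mul_le_mul (prod_exp_le ha) (le_of_eq ?_)
    (Finset.sum_nonneg fun l _ => norm_nonneg _) (by norm_num)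
  refine Finset.sum_congr rfl fun l _ => ?_
  rw [add_sub_add_left_eq_sub, ← mul_sub, norm_mul, Complex.norm_I, one_mul,
    ← Complex.ofReal_sub, Complex.norm_real, Real.norm_eq_abs, ← mul_sub, abs_mul, abs_sg, one_mul]

theorem lin_coef (c : J → ℝ) (j : J) :
    𝔼 σ : J → Bool, sg (σ j) * ∑ l, sg (σ l) * c l = c j := by
  simp only [Finset.mul_sum, ← mul_assoc]
  rw [ex_sum, Finset.sum_eq_single j]
  · rw [ex_mul', ex_coord j (fun s => sg s * sg s), ex_bool]
    simp [sg]
  · intro l _ hl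
    rw [ex_mul', ex_pair hl.symm, ex_bool]
    simp [sg]
  · simp

end Pool.Agent.MP_f492a7_an

end

section

namespace Pool.Agent.MP_f492a7_an

open Finset
open scoped BigOperators

theorem geom_up {r B : ℝ} (hr : 1 < r) (hB : 0 ≤ B) (u : ℕ → ℝ) (h0 : ∀ k, 0 ≤ u k)
    (hu : ∀ k, u (k + 1) = r * u k) (K : ℕ) :
    ∑ k ∈ Finset.range K, (if u k ≤ B then u k else 0) ≤ r / (r - 1) * B := by
  have key : ∀ K, (r - 1) * ∑ k ∈ Finset.range K, (if u k ≤ B then u k else 0) ≤
      min (r * B) (u K) := by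
    intro K
    induction K with
    | zero => simpa using ⟨by positivity, h0 0⟩
    | succ K ih =>
      rw [Finset.sum_range_succ, mul_add, hu]
      have i1 := ih.trans (min_le_left _ _)
      have i2 := ih.trans (min_le_right _ _)
      have := h0 K
      split_ifs with h
      · refine le_min ?_ ?_ <;> nlinarith
      · refine le_min ?_ ?_ <;> nlinarith
  rw [div_mul_eq_mul_div, le_div_iff₀ (by linarith), mul_comm]
  exact (key K).trans (min_le_left _ _)

theorem geom_down {s B : ℝ} (hs0 : 0 ≤ s) (hs : s < 1) (hB : 0 ≤ B) (v : ℕ → ℝ)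
    (h0 : ∀ k, 0 ≤ v k) (hv : ∀ k, v (k + 1) = s * v k) (K : ℕ) :
    ∑ k ∈ Finset.range K, (if v k ≤ B then v k else 0) ≤ 1 / (1 - s) * B := by
  have key : ∀ K, (1 - s) * ∑ k ∈ Finset.range K, (if v k ≤ B then v k else 0) +
      min B (v K) ≤ B := by
    intro K
    induction K with
    | zero => simp
    | succ K ih =>
      rw [Finset.sum_range_succ, mul_add, hv]
      have := h0 K
      split_ifs with h
      · rw [min_eq_right h] at ih
        have := min_le_right B (s * v K)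
        nlinarith
      · rw [min_eq_left (not_le.1 h).le] at ih
        have := min_le_left B (s * v K)
        nlinarith
  rw [div_mul_eq_mul_div, le_div_iff₀ (by linarith), mul_comm, one_mul]
  have := key K
  have h1 : 0 ≤ min B (v K) := le_min hB (h0 K)
  linarith

theorem rpow_le_split {θ t d : ℝ} (h0 : 0 < θ) (h1 : θ < 1) (ht : 0 < t) (hd : 0 ≤ d) :
    d ^ θ ≤ t ^ θ + t ^ (θ - 1) * d := by
  have a1 : 0 ≤ t ^ θ := by positivity
  have a2 : 0 ≤ t ^ (θ - 1) * d := by positivity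
  rcases le_total d t with h | h
  · linarith [Real.rpow_le_rpow hd h h0.le]
  · have hd0 : 0 < d := lt_of_lt_of_le ht h
    have e : d ^ θ = d ^ (θ - 1) * d := by
      rw [← Real.rpow_add_one hd0.ne', sub_add_cancel]
    have := Real.rpow_le_rpow_of_nonpos ht h (by linarith : θ - 1 ≤ 0)
    rw [e]
    nlinarith

theorem weight_split {θ a T d : ℝ} (h0 : 0 < θ) (h1 : θ < 1) (ha : 0 ≤ a) (hT : 0 < T)
    (hd : 0 ≤ d) : a ^ (1 + θ) * d ^ θ ≤ a * T ^ θ + a ^ 2 * T ^ (θ - 1) * d := by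
  rcases ha.eq_or_lt with h | h
  · subst h
    rw [Real.zero_rpow (by linarith)]
    simp
  · have := rpow_le_split h0 h1 hT (mul_nonneg ha hd)
    rw [Real.mul_rpow ha hd] at this
    rw [Real.rpow_add h, Real.rpow_one]
    nlinarith

section
variable {M : Type} [Fintype M] [Nonempty M]

/-- inf-convolution -/
noncomputable def reg (d : M → M → ℕ) (lam : ℝ) (h : M → ℝ) (x : M) : ℝ :=
  Finset.univ.inf' Finset.univ_nonempty fun y => h y + lam * d x y

theorem reg_le {d : M → M → ℕ} (hd0 : ∀ x, d x x = 0) (lam : ℝ) (h : M → ℝ) (x : M) :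
    reg d lam h x ≤ h x := by
  refine (Finset.inf'_le _ (Finset.mem_univ x)).trans ?_
  simp [hd0]

theorem le_reg {d : M → M → ℕ} {lam A : ℝ} {h : M → ℝ}
    (H : ∀ x y, h x - h y ≤ A + lam * d x y) (x : M) : h x - A ≤ reg d lam h x :=
  (Finset.le_inf'_iff _ _).2 fun y _ => by linarith [H x y]

theorem reg_lip {d : M → M → ℕ} (hs : ∀ x y, d x y = d y x)
    (ht : ∀ x y z, d x z ≤ d x y + d y z) {lam : ℝ} (hl : 0 ≤ lam) (h : M → ℝ) (x y : M) :
    |reg d lam h x - reg d lam h y| ≤ lam * d x y := by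
  have key : ∀ x y, reg d lam h x - lam * d x y ≤ reg d lam h y := by
    intro x y
    refine (Finset.le_inf'_iff _ _).2 fun z _ => ?_
    have h1 : reg d lam h x ≤ h z + lam * d x z := Finset.inf'_le _ (Finset.mem_univ z)
    have h2 : (d x z : ℝ) ≤ d x y + d y z := by exact_mod_cast ht x y z
    nlinarith
  have k1 := key x y
  have k2 := key y x
  rw [hs y x] at k2
  rw [abs_le]; constructor <;> linarith

end

theorem lift {θ : ℝ} (h0 : 0 < θ) (h1 : θ < 1) : ∃ L : ℝ, 0 < L ∧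
    ∀ (M : Type) [Fintype M] [Nonempty M] (d : M → M → ℕ), (∀ x, d x x = 0) →
      (∀ x y, d x y = d y x) → (∀ x y z, d x z ≤ d x y + d y z) →
      ∀ (J : Type) [Fintype J] [DecidableEq J] (a : J → ℝ), (∀ j, 0 ≤ a j) → ∑ j, a j ^ 2 ≤ 1 →
      ∀ h : J → M → ℝ, (∀ j x y, |h j x - h j y| ≤ a j ^ (1 + θ) * (d x y : ℝ) ^ θ) →
      ∃ G : (J → Bool) → M → ℝ, (∀ σ x y, d x y ≠ 0 → |G σ x - G σ y| ≤ L * (d x y : ℝ) ^ θ) ∧
        ∀ j x, 𝔼 σ : J → Bool, sg (σ j) * G σ x = h j x := by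
  set r : ℝ := 2 ^ θ with hr
  set s : ℝ := 2 ^ (θ - 1) with hs
  have hr1 : 1 < r := Real.one_lt_rpow (by norm_num) h0
  have hs0 : 0 < s := by positivity
  have hs1 : s < 1 := Real.rpow_lt_one_of_one_lt_of_neg (by norm_num) (by linarith)
  have hc1 : 0 < r / (r - 1) := div_pos (by linarith) (by linarith)
  have hc2 : 0 < 1 / (1 - s) := div_pos (by linarith) (by linarith)
  refine ⟨5 + 4 * r * (r / (r - 1)) + 4 * (1 / (1 - s)), by positivity, ?_⟩
  intro M _ _ d hd0 hds hdt J _ _ a ha0 ha h hh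
  let u : ℕ → ℝ := fun k => ((2 : ℝ) ^ k) ^ θ
  let v : ℕ → ℝ := fun k => ((2 : ℝ) ^ k) ^ (θ - 1)
  have hu0 : ∀ k, 0 < u k := fun k => by positivity
  have hv0 : ∀ k, 0 < v k := fun k => by positivity
  have hu : ∀ k, u (k + 1) = r * u k := fun k => by
    simp only [u]; rw [pow_succ, Real.mul_rpow (by positivity) (by norm_num), mul_comm]
  have hv : ∀ k, v (k + 1) = s * v k := fun k => by
    simp only [v]; rw [pow_succ, Real.mul_rpow (by positivity) (by norm_num), mul_comm]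
  let H : ℕ → J → M → ℝ := fun k j => reg d (a j ^ 2 * v k) (h j)
  have hH1 : ∀ k j x, H k j x ≤ h j x := fun k j x => reg_le hd0 _ _ _
  have hH2 : ∀ k j x, h j x - a j * u k ≤ H k j x := fun k j x =>
    le_reg (fun x y => (le_abs_self _).trans ((hh j x y).trans
      (weight_split h0 h1 (ha0 j) (by positivity) (by positivity)))) x
  have hH3 : ∀ k j x y, |H k j x - H k j y| ≤ a j ^ 2 * v k * d x y := fun k j x y =>
    reg_lip hds hdt (mul_nonneg (sq_nonneg _) (hv0 k).le) _ _ _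
  obtain ⟨K, hK⟩ : ∃ K : ℕ, ∀ x y, (d x y : ℝ) ≤ 2 ^ K := by
    refine ⟨Finset.univ.sup fun z : M × M => d z.1 z.2, fun x y => ?_⟩
    have h1 : d x y ≤ Finset.univ.sup fun z : M × M => d z.1 z.2 :=
      Finset.le_sup (f := fun z : M × M => d z.1 z.2) (Finset.mem_univ (x, y))
    exact_mod_cast h1.trans Nat.lt_two_pow_self.le
  let P : ℕ → M → J → ℝ := fun k x j => (H k j x - H (k + 1) j x) / u (k + 1)
  have hP : ∀ k x j, |P k x j| ≤ a j := by
    intro k x j
    have e1 : a j * u k ≤ a j * u (k + 1) := by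
      rw [hu]
      exact mul_le_mul_of_nonneg_left (by nlinarith [hu0 k]) (ha0 j)
    simp only [P]
    rw [abs_div, abs_of_pos (hu0 _), div_le_iff₀ (hu0 _), abs_le]
    constructor <;> linarith [hH1 k j x, hH2 k j x, hH1 (k + 1) j x, hH2 (k + 1) j x]
  have hB : ∀ x j, |h j x - H 0 j x| ≤ a j := by
    intro x j
    have := hH2 0 j x
    simp only [u, pow_zero, Real.one_rpow, mul_one] at this
    rw [abs_le]
    constructor <;> linarith [hH1 0 j x, ha0 j]
  refine ⟨fun σ x => rz σ (fun j => h j x - H 0 j x) +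
    ∑ k ∈ Finset.range K, u (k + 1) * rz σ (P k x) + ∑ l, sg (σ l) * H K l x, ?_, ?_⟩
  · intro σ x y hxy
    set B : ℝ := (d x y : ℝ) ^ θ with hBdef
    have hd1 : (1 : ℝ) ≤ d x y := by exact_mod_cast Nat.one_le_iff_ne_zero.2 hxy
    have hB1 : 1 ≤ B := Real.one_le_rpow hd1 h0.le
    have hBe : B = (d x y : ℝ) ^ (θ - 1) * d x y := by
      rw [← Real.rpow_add_one (by linarith), sub_add_cancel]
    have hvB : ∀ k, (d x y : ℝ) ≤ 2 ^ k → v k * d x y ≤ B := fun k hk => by
      rw [hBe]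
      exact mul_le_mul_of_nonneg_right
        (Real.rpow_le_rpow_of_nonpos (by linarith) hk (by linarith)) (by linarith)
    have t1 : |rz σ (fun j => h j x - H 0 j x) - rz σ (fun j => h j y - H 0 j y)| ≤ 4 * B := by
      refine (abs_sub _ _).trans ?_
      linarith [rz_abs_le ha (hB x) σ, rz_abs_le ha (hB y) σ]
    have t3 : |∑ l, sg (σ l) * H K l x - ∑ l, sg (σ l) * H K l y| ≤ B := by
      rw [← Finset.sum_sub_distrib]
      refine (Finset.abs_sum_le_sum_abs _ _).trans ?_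
      calc ∑ l, |sg (σ l) * H K l x - sg (σ l) * H K l y| ≤ ∑ l, a l ^ 2 * (v K * d x y) := by
            refine Finset.sum_le_sum fun l _ => ?_
            rw [← mul_sub, abs_mul, abs_sg, one_mul, ← mul_assoc]
            exact hH3 K l x y
        _ ≤ 1 * B := by
            rw [← Finset.sum_mul]
            exact mul_le_mul ha (hvB K (hK x y)) (by have := hv0 K; positivity) (by norm_num)
        _ = B := one_mul B
    have t2 : ∀ k, |u (k + 1) * rz σ (P k x) - u (k + 1) * rz σ (P k y)| ≤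
        4 * r * (if u k ≤ B then u k else 0) +
          4 * (if v k * d x y ≤ B then v k * d x y else 0) := by
      intro k
      have p1 : 0 ≤ (if u k ≤ B then u k else 0) := by split_ifs; exacts [(hu0 k).le, le_rfl]
      have p2 : 0 ≤ (if v k * d x y ≤ B then v k * d x y else 0) := by
        split_ifs
        · have := hv0 k; positivity
        · exact le_rfl
      rw [← mul_sub, abs_mul, abs_of_pos (hu0 _)]
      rcases le_total (2 ^ k : ℝ) (d x y) with hk | hk
      · have q1 : u k ≤ B := Real.rpow_le_rpow (by positivity) hk h0.le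
        rw [if_pos q1, hu]
        have q2 : |rz σ (P k x) - rz σ (P k y)| ≤ 4 := by
          refine (abs_sub _ _).trans ?_
          linarith [rz_abs_le ha (hP k x) σ, rz_abs_le ha (hP k y) σ]
        have q3 : 0 < r * u k := by have := hu0 k; positivity
        nlinarith
      · rw [if_pos (hvB k hk)]
        have q2 : u (k + 1) * |rz σ (P k x) - rz σ (P k y)| ≤ 4 * (v k * d x y) := by
          calc u (k + 1) * |rz σ (P k x) - rz σ (P k y)|
              ≤ u (k + 1) * (2 * ∑ l, |P k x l - P k y l|) :=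
                mul_le_mul_of_nonneg_left (rz_lip ha (hP k x) (hP k y) σ) (hu0 _).le
            _ = 2 * ∑ l, u (k + 1) * |P k x l - P k y l| := by rw [← Finset.mul_sum]; ring
            _ ≤ 2 * ∑ l, a l ^ 2 * (2 * (v k * d x y)) := by
                refine mul_le_mul_of_nonneg_left (Finset.sum_le_sum fun l _ => ?_) (by norm_num)
                simp only [P]
                rw [← sub_div, abs_div, abs_of_pos (hu0 _), mul_div_cancel₀ _ (hu0 _).ne']
                have b1 := abs_le.1 (hH3 k l x y)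
                have b2 := abs_le.1 (hH3 (k + 1) l x y)
                have b3 : a l ^ 2 * v (k + 1) * d x y ≤ a l ^ 2 * v k * d x y := by
                  rw [hv]
                  have := hv0 k
                  gcongr
                  nlinarith
                rw [abs_le]
                constructor <;> nlinarith
            _ ≤ 2 * (1 * (2 * (v k * d x y))) := by
                rw [← Finset.sum_mul]
                have := hv0 k
                gcongr
            _ = _ := by ring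
        have : 0 ≤ 4 * r * (if u k ≤ B then u k else 0) := by positivity
        linarith
    have t2' : |∑ k ∈ Finset.range K, u (k + 1) * rz σ (P k x) -
        ∑ k ∈ Finset.range K, u (k + 1) * rz σ (P k y)| ≤
        4 * r * (r / (r - 1) * B) + 4 * (1 / (1 - s) * B) := by
      rw [← Finset.sum_sub_distrib]
      refine (Finset.abs_sum_le_sum_abs _ _).trans ((Finset.sum_le_sum fun k _ => t2 k).trans ?_)
      rw [Finset.sum_add_distrib, ← Finset.mul_sum, ← Finset.mul_sum]
      have g1 := geom_up hr1 (by linarith : 0 ≤ B) u (fun k => (hu0 k).le) hu K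
      have g2 := geom_down hs0.le hs1 (by linarith : 0 ≤ B) (fun k => v k * d x y)
        (fun k => by have := hv0 k; positivity) (fun k => by simp only [hv]; ring) K
      gcongr
    have a1 := abs_le.1 t1
    have a2 := abs_le.1 t2'
    have a3 := abs_le.1 t3
    rw [abs_le]
    constructor <;> nlinarith
  · intro j x
    simp only [mul_add, ex_add]
    rw [rz_coef, lin_coef]
    simp only [Finset.mul_sum, mul_left_comm (sg _)]
    rw [ex_sum]
    simp only [ex_mul, rz_coef, P, mul_div_cancel₀ _ (hu0 _).ne']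
    rw [Finset.sum_range_sub' (fun k => H k j x)]
    ring

end Pool.Agent.MP_f492a7_an

end

section

namespace Pool.Agent.MP_f492a7_an

open Finset
open scoped BigOperators

section
variable {J : Type} [Fintype J] [DecidableEq J]

/-- a homogeneous bounded section of the Rademacher projection -/
noncomputable def sec (v : J → ℝ) (σ : J → Bool) : ℝ :=
  √(∑ j, v j ^ 2) * rz σ (fun j => v j / √(∑ j, v j ^ 2))

omit [DecidableEq J] in
theorem sec_sq_le (v : J → ℝ) (σ : J → Bool) : sec v σ ^ 2 ≤ 4 * ∑ j, v j ^ 2 := by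
  have h0 : 0 ≤ ∑ j, v j ^ 2 := Finset.sum_nonneg fun j _ => sq_nonneg _
  have h1 : |rz σ (fun j => v j / √(∑ j, v j ^ 2))| ≤ 2 := by
    refine rz_abs_le (a := fun j => |v j / √(∑ j, v j ^ 2)|) ?_ (fun _ => le_rfl) σ
    simp only [sq_abs, div_pow]
    rw [← Finset.sum_div, Real.sq_sqrt h0]
    exact div_self_le_one _
  have h2 : rz σ (fun j => v j / √(∑ j, v j ^ 2)) ^ 2 ≤ 4 := by
    rw [← sq_abs]
    nlinarith [abs_nonneg (rz σ (fun j => v j / √(∑ j, v j ^ 2)))]
  rw [sec, mul_pow, Real.sq_sqrt h0, mul_comm]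
  exact mul_le_mul_of_nonneg_right h2 h0

theorem sec_coef (v : J → ℝ) (j : J) : 𝔼 σ : J → Bool, sg (σ j) * sec v σ = v j := by
  have h0 : 0 ≤ ∑ j, v j ^ 2 := Finset.sum_nonneg fun j _ => sq_nonneg _
  simp only [sec, mul_left_comm (sg _)]
  rw [ex_mul, rz_coef]
  rcases h0.eq_or_lt with h | h
  · have := (Finset.sum_eq_zero_iff_of_nonneg fun j _ => sq_nonneg (v j)).1 h.symm j
      (Finset.mem_univ j)
    rw [pow_eq_zero_iff (by norm_num)] at this
    simp [this]
  · exact mul_div_cancel₀ _ (Real.sqrt_pos.2 h).ne'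

end

section
variable {M : Type} [Fintype M]

/-- mass of a ball -/
def pm (d : M → M → ℕ) (ν : M → ℝ) (r : ℕ) (z : M) : ℝ := ∑ y, if d z y ≤ r then ν y else 0

/-- mass of an annulus -/
def nm (d : M → M → ℕ) (ν : M → ℝ) (r : ℕ) (z : M) : ℝ := pm d ν (3 * r) z - pm d ν r z

variable {d : M → M → ℕ} {ν : M → ℝ}

theorem pm_nonneg (hν : ∀ y, 0 ≤ ν y) (r : ℕ) (z : M) : 0 ≤ pm d ν r z :=
  Finset.sum_nonneg fun y _ => by split_ifs; exacts [hν y, le_rfl]

theorem pm_le (hν : ∀ y, 0 ≤ ν y) (r : ℕ) (z : M) : pm d ν r z ≤ ∑ y, ν y :=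
  Finset.sum_le_sum fun y _ => by split_ifs; exacts [le_rfl, hν y]

theorem nm_nonneg (hν : ∀ y, 0 ≤ ν y) (r : ℕ) (z : M) : 0 ≤ nm d ν r z := by
  rw [nm, sub_nonneg]
  refine Finset.sum_le_sum fun y _ => ?_
  have := hν y
  split_ifs <;> first | omega | linarith

theorem pm_near (hν : ∀ y, 0 ≤ ν y) (hs : ∀ x y, d x y = d y x)
    (ht : ∀ x y z, d x z ≤ d x y + d y z) {r : ℕ} {z z' : M} (h : d z z' ≤ 2 * r) :
    pm d ν r z ≤ pm d ν (3 * r) z' := by
  refine Finset.sum_le_sum fun y _ => ?_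
  have := hν y
  have h1 := ht z' z y
  have h2 := hs z z'
  split_ifs <;> first | omega | linarith

theorem pm_split (hν : ∀ y, 0 ≤ ν y) (hs : ∀ x y, d x y = d y x)
    (ht : ∀ x y z, d x z ≤ d x y + d y z) {r : ℕ} {z z' z'' : M} (h : d z z' ≤ 2 * r)
    (h' : d z'' z' ≤ 2 * r) (hn : ¬ ∃ y, d z y ≤ r ∧ d z'' y ≤ r) :
    pm d ν r z' ≤ nm d ν r z + nm d ν r z'' := by
  have : pm d ν r z' + pm d ν r z + pm d ν r z'' ≤ pm d ν (3 * r) z + pm d ν (3 * r) z'' := by
    simp only [pm, ← Finset.sum_add_distrib]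
    refine Finset.sum_le_sum fun y _ => ?_
    have := hν y
    have h1 := ht z z' y
    have h2 := ht z'' z' y
    have h3 : ¬ (d z y ≤ r ∧ d z'' y ≤ r) := fun hh => hn ⟨y, hh⟩
    split_ifs <;> first | omega | linarith
  simp only [nm]
  linarith

theorem cluster_lift (hν : ∀ y, 0 ≤ ν y) (hd0 : ∀ x, d x x = 0) (hs : ∀ x y, d x y = d y x)
    (ht : ∀ x y z, d x z ≤ d x y + d y z) (r : ℕ) {J : Type} [Fintype J] [DecidableEq J]
    (v : M → J → ℝ) (h1 : ∀ z, ∑ j, v z j ^ 2 ≤ pm d ν (3 * r) z)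
    (h2 : ∀ z z', d z z' ≤ 2 * r → ∑ j, (v z j - v z' j) ^ 2 ≤ nm d ν r z + nm d ν r z') :
    ∃ G : (J → Bool) → M → ℝ, (∀ z j, 𝔼 σ : J → Bool, sg (σ j) * G σ z = v z j) ∧
      (∀ σ z, G σ z ^ 2 ≤ 32 ^ 2 * pm d ν (3 * r) z) ∧
      ∀ σ z z', d z z' ≤ 2 * r → (G σ z - G σ z') ^ 2 ≤ 32 ^ 2 * (nm d ν r z + nm d ν r z') := by
  classical
  set p := pm d ν r with hp
  set n := nm d ν r with hn
  have hW : ∀ z, pm d ν (3 * r) z = p z + n z := fun z => by simp [hp, hn, nm]
  have p0 : ∀ z, 0 ≤ p z := pm_nonneg hν r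
  have n0 : ∀ z, 0 ≤ n z := nm_nonneg hν r
  let rel : M → M → Prop := fun z z' => ∃ y, d z y ≤ r ∧ d z' y ≤ r
  have rel_near : ∀ z z', rel z z' → d z z' ≤ 2 * r := by
    rintro z z' ⟨y, a, b⟩
    have := ht z y z'
    have := hs y z'
    omega
  have rel_symm : ∀ z z', rel z z' → rel z' z := by
    rintro z z' ⟨y, a, b⟩
    exact ⟨y, b, a⟩
  have F1 : ∀ z z', d z z' ≤ 2 * r → p z ≤ p z' + n z' := fun z z' h => by
    rw [← hW]; exact pm_near hν hs ht h
  have rel_trans : ∀ z z' z'', 3 * n z < p z → 3 * n z' < p z' → 3 * n z'' < p z'' →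
      rel z z' → rel z' z'' → rel z z'' := by
    intro z z' z'' a b c e f
    by_contra hc
    have g1 := rel_near _ _ e
    have g2 := rel_near _ _ (rel_symm _ _ f)
    have := pm_split hν hs ht g1 g2 hc
    linarith [F1 _ _ g1, F1 _ _ g2, n0 z']
  let cls : M → Finset M := fun z => Finset.univ.filter fun z' => 3 * n z' < p z' ∧ rel z z'
  have cls_self : ∀ z, 3 * n z < p z → z ∈ cls z := fun z h =>
    Finset.mem_filter.2 ⟨Finset.mem_univ _, h, z, by simp [hd0], by simp [hd0]⟩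
  have cls_eq : ∀ z z', 3 * n z < p z → 3 * n z' < p z' → rel z z' → cls z = cls z' := by
    intro z z' a b e
    ext w
    simp only [cls, Finset.mem_filter, Finset.mem_univ, true_and]
    exact ⟨fun h => ⟨h.1, rel_trans _ _ _ b a h.1 (rel_symm _ _ e) h.2⟩,
      fun h => ⟨h.1, rel_trans _ _ _ a b h.1 e h.2⟩⟩
  have hpick : ∀ S : Finset M, ∃ c : J → ℝ, ∀ z ∈ S, ∃ w ∈ S, c = v w ∧ n w ≤ n z := by
    intro S
    rcases S.eq_empty_or_nonempty with h | h
    · exact ⟨0, by simp [h]⟩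
    · obtain ⟨w, hw, hw'⟩ := S.exists_min_image n h
      exact ⟨v w, fun z hz => ⟨w, hw, rfl, hw' z hz⟩⟩
  choose pick hpick using hpick
  have heavy : ∀ z, 3 * n z < p z → ∑ j, pick (cls z) j ^ 2 ≤ 2 * (p z + n z) ∧
      ∑ j, (v z j - pick (cls z) j) ^ 2 ≤ 2 * n z := by
    intro z h
    obtain ⟨w, hw, e, hle⟩ := hpick (cls z) z (cls_self z h)
    have hzw := rel_near _ _ (Finset.mem_filter.1 hw).2.2
    rw [e]
    have a := h1 w
    rw [hW] at a
    have b := F1 w z (by rw [hs]; exact hzw)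
    exact ⟨by linarith [p0 z], by linarith [h2 z w hzw]⟩
  let G : (J → Bool) → M → ℝ := fun σ z =>
    if 3 * n z < p z then sec (pick (cls z)) σ + sec (fun j => v z j - pick (cls z) j) σ
    else sec (v z) σ
  have hG : ∀ σ z, G σ z ^ 2 ≤ 32 * (p z + n z) := by
    intro σ z
    simp only [G]
    split_ifs with h
    · obtain ⟨a, b⟩ := heavy z h
      have a' := sec_sq_le (pick (cls z)) σ
      have b' := sec_sq_le (fun j => v z j - pick (cls z) j) σ
      nlinarith [sq_nonneg (sec (pick (cls z)) σ - sec (fun j => v z j - pick (cls z) j) σ), p0 z]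
    · have a := h1 z
      rw [hW] at a
      linarith [sec_sq_le (v z) σ, p0 z, n0 z]
  refine ⟨G, fun z j => ?_, fun σ z => ?_, fun σ z z' h => ?_⟩
  · simp only [G]
    split_ifs
    · simp only [mul_add, ex_add, sec_coef]; ring
    · exact sec_coef _ _
  · rw [hW]; linarith [hG σ z, p0 z, n0 z]
  · have h' : d z' z ≤ 2 * r := by rw [hs]; exact h
    by_cases hc : 3 * n z < p z ∧ 3 * n z' < p z' ∧ rel z z'
    · obtain ⟨a, b, e⟩ := hc
      have b1 := (heavy z a).2
      have b2 := (heavy z' b).2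
      simp only [G, if_pos a, if_pos b]
      rw [← cls_eq z z' a b e] at b2 ⊢
      have c1 := sec_sq_le (fun j => v z j - pick (cls z) j) σ
      have c2 := sec_sq_le (fun j => v z' j - pick (cls z) j) σ
      nlinarith [sq_nonneg (sec (fun j => v z j - pick (cls z) j) σ +
        sec (fun j => v z' j - pick (cls z) j) σ), n0 z, n0 z']
    · have key : p z + p z' ≤ 7 * (n z + n z') := by
        have f1 := F1 z z' h
        have f2 := F1 z' z h'
        by_cases a : 3 * n z < p z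
        · by_cases b : 3 * n z' < p z'
          · have e : ¬ rel z z' := fun e => hc ⟨a, b, e⟩
            have g1 := pm_split hν hs ht (z := z) (z' := z) (z'' := z') (by simp [hd0]) h' e
            have g2 := pm_split hν hs ht (z := z) (z' := z') (z'' := z') h (by simp [hd0]) e
            linarith [n0 z, n0 z']
          · linarith [n0 z, n0 z']
        · linarith [n0 z, n0 z']
      nlinarith [hG σ z, hG σ z', sq_nonneg (G σ z + G σ z'), n0 z, n0 z']

/-- the class of test functions -/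
def InG (d : M → M → ℕ) (L : ℕ) (g : M → ℝ) : Prop :=
  ∃ ν : M → ℝ, (∀ y, 0 ≤ ν y) ∧ ∑ y, ν y ≤ 1 ∧ ∃ γ : ℕ → M → ℝ,
    (∀ z, g z = ∑ k ∈ Finset.range L, γ k z) ∧ (∀ k z, γ k z ^ 2 ≤ pm d ν (3 * 3 ^ k) z) ∧
    ∀ k z z', d z z' ≤ 2 * 3 ^ k → (γ k z - γ k z') ^ 2 ≤ nm d ν (3 ^ k) z + nm d ν (3 ^ k) z'

theorem InG.abs_le {L : ℕ} {g : M → ℝ} (h : InG d L g) (z : M) : |g z| ≤ L := by
  obtain ⟨ν, hν, hν1, γ, e, h1, -⟩ := h
  rw [e]
  refine (Finset.abs_sum_le_sum_abs _ _).trans ?_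
  calc ∑ k ∈ Finset.range L, |γ k z| ≤ ∑ _k ∈ Finset.range L, (1 : ℝ) :=
        Finset.sum_le_sum fun k _ =>
          (sq_le_one_iff_abs_le_one _).1 ((h1 k z).trans ((pm_le hν _ _).trans hν1))
    _ = L := by simp

theorem InG.edge {L : ℕ} {g : M → ℝ} (h : InG d L g) {z z' : M} (hz : d z z' ≤ 1) :
    (g z - g z') ^ 2 ≤ 2 * L := by
  obtain ⟨ν, hν, hν1, γ, e, -, h2⟩ := h
  have tel : ∀ z, ∑ k ∈ Finset.range L, nm d ν (3 ^ k) z ≤ 1 := by
    intro z
    have := Finset.sum_range_sub (fun k => pm d ν (3 ^ k) z) L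
    simp only [pow_succ'] at this
    simp only [nm]
    rw [this]
    linarith [pm_le (d := d) hν (3 ^ L) z, pm_nonneg (d := d) hν (3 ^ 0) z]
  rw [e, e, ← Finset.sum_sub_distrib]
  refine sq_sum_le_card_mul_sum_sq.trans ?_
  rw [Finset.card_range, mul_comm]
  refine mul_le_mul_of_nonneg_right ?_ (by positivity)
  calc _ ≤ ∑ k ∈ Finset.range L, (nm d ν (3 ^ k) z + nm d ν (3 ^ k) z') :=
        Finset.sum_le_sum fun k _ => h2 k z z' (by have := Nat.one_le_pow k 3 (by norm_num); omega)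
    _ ≤ 2 := by rw [Finset.sum_add_distrib]; linarith [tel z, tel z']

theorem inG_radial [DecidableEq M] (hs : ∀ x y, d x y = d y x)
    (ht : ∀ x y z, d x z ≤ d x y + d y z) (L : ℕ) (y : M) :
    InG d L (fun z => ∑ k ∈ Finset.range L, if d z y ≤ 3 ^ k then 1 else 0) := by
  have e : ∀ r z, pm d (fun w => if w = y then 1 else 0) r z = if d z y ≤ r then 1 else 0 := by
    intro r z
    rw [pm, Finset.sum_eq_single y] <;> simp +contextual
  refine ⟨fun w => if w = y then 1 else 0, fun w => by positivity, by simp,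
    fun k z => if d z y ≤ 3 ^ k then 1 else 0, fun z => rfl, fun k z => ?_, fun k z z' h => ?_⟩
  · simp only [e]
    split_ifs <;> first | omega | norm_num
  · simp only [nm, e]
    have a := ht z z' y
    have b := ht z' z y
    have c := hs z z'
    split_ifs <;> first | omega | norm_num

theorem inG_lift (hd0 : ∀ x, d x x = 0) (hs : ∀ x y, d x y = d y x)
    (ht : ∀ x y z, d x z ≤ d x y + d y z) {L : ℕ} {J : Type} [Fintype J] [DecidableEq J]
    (a : J → ℝ) (ha : ∑ j, a j ^ 2 ≤ 1) (g : J → M → ℝ) (hg : ∀ j, InG d L (g j)) :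
    ∃ G : (J → Bool) → M → ℝ, (∀ σ, InG d L (G σ)) ∧
      ∀ z j, 32 * 𝔼 σ : J → Bool, sg (σ j) * G σ z = a j * g j z := by
  choose ν hν hν1 γ e h1 h2 using hg
  let μ : M → ℝ := fun y => ∑ j, a j ^ 2 * ν j y
  have hμ : ∀ y, 0 ≤ μ y := fun y => Finset.sum_nonneg fun j _ => mul_nonneg (sq_nonneg _) (hν j y)
  have hpm : ∀ r z, pm d μ r z = ∑ j, a j ^ 2 * pm d (ν j) r z := by
    intro r z
    simp only [pm, μ, Finset.mul_sum]
    rw [Finset.sum_comm]
    refine Finset.sum_congr rfl fun y _ => ?_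
    split_ifs <;> simp
  have hnm : ∀ r z, nm d μ r z = ∑ j, a j ^ 2 * nm d (ν j) r z := by
    intro r z
    simp only [nm, hpm, mul_sub, Finset.sum_sub_distrib]
  have hμ1 : ∑ y, μ y ≤ 1 := by
    simp only [μ]
    rw [Finset.sum_comm]
    refine le_trans (Finset.sum_le_sum fun j _ => ?_) ha
    rw [← Finset.mul_sum]
    exact mul_le_of_le_one_right (sq_nonneg _) (hν1 j)
  choose G c1 c2 c3 using fun k => cluster_lift hμ hd0 hs ht (3 ^ k) (fun z j => a j * γ j k z)
    (fun z => by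
      rw [hpm]
      refine Finset.sum_le_sum fun j _ => ?_
      rw [mul_pow]
      exact mul_le_mul_of_nonneg_left (h1 j k z) (sq_nonneg _))
    (fun z z' h => by
      rw [hnm, hnm, ← Finset.sum_add_distrib]
      refine Finset.sum_le_sum fun j _ => ?_
      rw [← mul_sub, mul_pow, ← mul_add]
      exact mul_le_mul_of_nonneg_left (h2 j k z z' h) (sq_nonneg _))
  refine ⟨fun σ z => ∑ k ∈ Finset.range L, G k σ z / 32, fun σ => ⟨μ, hμ, hμ1,
    fun k z => G k σ z / 32, fun z => rfl, fun k z => ?_, fun k z z' h => ?_⟩, fun z j => ?_⟩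
  · linarith [c2 k σ z, div_pow (G k σ z) 32 2]
  · rw [← sub_div, div_pow]
    linarith [c3 k σ z z' h]
  · simp only [Finset.mul_sum, ← mul_div_assoc, div_eq_mul_inv]
    rw [ex_sum, e, Finset.mul_sum, Finset.mul_sum]
    refine Finset.sum_congr rfl fun k _ => ?_
    simp only [← mul_assoc]
    rw [ex_mul', c1]
    ring

end

end Pool.Agent.MP_f492a7_an

end
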