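import Mathlib
import Pool.Agent.Mg.Ff492a7p.Ge3ab80
import Pool.Agent.Mg.Ff492a7p.G6f9c41

section

namespace Pool.Agent.MP_f492a7_an

open Finset
open scoped BigOperators

section
variable {M : Type} (d : M → M → ℕ) (θ : ℝ)

/-- difference quotients -/
noncomputable def dq : (M → ℝ) →ₗ[ℝ] (M × M → ℝ) where
  toFun g z := (g z.1 - g z.2) / (d z.1 z.2 : ℝ) ^ θ
  map_add' g g' := by funext z; simp only [Pi.add_apply]; ring
  map_smul' c g := by funext z; simp only [Pi.smul_apply, smul_eq_mul, RingHom.id_apply]; ring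

/-- the space of Hoelder functions modulo constants -/
noncomputable abbrev Hol : Submodule ℝ (M × M → ℝ) := LinearMap.range (dq d θ)

/-- the class of a function -/
noncomputable def hol : (M → ℝ) →ₗ[ℝ] Hol d θ := LinearMap.rangeRestrict (dq d θ)

variable [Fintype M]

/-- the free space over the snowflake -/
noncomputable abbrev Fr : Type := Hol d θ →L[ℝ] ℝ

/-- point evaluation -/
noncomputable def delta (x0 x : M) : Fr d θ :=
  ((d x x0 : ℝ) ^ θ) • (ContinuousLinearMap.proj (x, x0)).comp (Hol d θ).subtypeL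

variable {d θ}

theorem norm_hol_le (h0 : 0 < θ) {g : M → ℝ} {L : ℝ} (hL : 0 ≤ L)
    (H : ∀ x y, d x y ≠ 0 → |g x - g y| ≤ L * (d x y : ℝ) ^ θ) : ‖hol d θ g‖ ≤ L := by
  change ‖dq d θ g‖ ≤ L
  refine (pi_norm_le_iff_of_nonneg hL).2 fun z => ?_
  change |(g z.1 - g z.2) / (d z.1 z.2 : ℝ) ^ θ| ≤ L
  by_cases hz : d z.1 z.2 = 0
  · simp [hz, Real.zero_rpow h0.ne', hL]
  · have : (0 : ℝ) < (d z.1 z.2 : ℝ) ^ θ :=
      Real.rpow_pos_of_pos (by exact_mod_cast Nat.pos_of_ne_zero hz) _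
    rw [abs_div, abs_of_pos this, div_le_iff₀ this]
    exact H _ _ hz

omit [Fintype M] in
theorem dq_mul (hsep : ∀ x y, d x y = 0 → x = y) (g : M → ℝ) (x y : M) :
    (d x y : ℝ) ^ θ * dq d θ g (x, y) = g x - g y := by
  change (d x y : ℝ) ^ θ * ((g x - g y) / (d x y : ℝ) ^ θ) = _
  by_cases hz : d x y = 0
  · rw [hsep x y hz]; simp
  · have : (0 : ℝ) < (d x y : ℝ) ^ θ :=
      Real.rpow_pos_of_pos (by exact_mod_cast Nat.pos_of_ne_zero hz) _
    field_simp

theorem hol_bound (hsep : ∀ x y, d x y = 0 → x = y) (g : M → ℝ) (x y : M) :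
    |g x - g y| ≤ (d x y : ℝ) ^ θ * ‖hol d θ g‖ := by
  rw [← dq_mul (θ := θ) hsep, abs_mul, abs_of_nonneg (by positivity)]
  exact mul_le_mul_of_nonneg_left (norm_le_pi_norm (dq d θ g) (x, y)) (by positivity)

theorem delta_apply (hsep : ∀ x y, d x y = 0 → x = y) (x0 x : M) (g : M → ℝ) :
    delta d θ x0 x (hol d θ g) = g x - g x0 := dq_mul hsep g x x0

omit [Fintype M] in
theorem hol_surj (w : Hol d θ) : ∃ g, hol d θ g = w :=
  LinearMap.surjective_rangeRestrict _ w

theorem norm_delta_le (hsep : ∀ x y, d x y = 0 → x = y) (x0 x y : M) :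
    ‖delta d θ x0 x - delta d θ x0 y‖ ≤ (d x y : ℝ) ^ θ := by
  refine ContinuousLinearMap.opNorm_le_bound _ (by positivity) fun w => ?_
  obtain ⟨g, rfl⟩ := hol_surj w
  rw [ContinuousLinearMap.sub_apply, delta_apply hsep, delta_apply hsep, sub_sub_sub_cancel_right]
  exact hol_bound hsep g x y

theorem le_norm_delta (h0 : 0 < θ) (h1 : θ < 1) (hd0 : ∀ x, d x x = 0)
    (hs : ∀ x y, d x y = d y x) (ht : ∀ x y z, d x z ≤ d x y + d y z)
    (hsep : ∀ x y, d x y = 0 → x = y) (x0 x y : M) :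
    (d x y : ℝ) ^ θ ≤ ‖delta d θ x0 x - delta d θ x0 y‖ := by
  have key : ∀ a b, (d a y : ℝ) ^ θ ≤ (d a b : ℝ) ^ θ + (d b y : ℝ) ^ θ := fun a b =>
    (Real.rpow_le_rpow (by positivity) (by exact_mod_cast ht a b y) h0.le).trans
      (Real.rpow_add_le_add_rpow (by positivity) (by positivity) h0.le h1.le)
  have hn : ‖hol d θ (fun z => (d z y : ℝ) ^ θ)‖ ≤ 1 := by
    refine norm_hol_le h0 (by norm_num) fun a b _ => ?_
    have k1 := key a b
    have k2 := key b a
    rw [hs b a] at k2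
    rw [abs_le]; constructor <;> linarith
  have := (delta d θ x0 x - delta d θ x0 y).le_opNorm (hol d θ (fun z => (d z y : ℝ) ^ θ))
  rw [ContinuousLinearMap.sub_apply, delta_apply hsep, delta_apply hsep, sub_sub_sub_cancel_right,
    hd0, Nat.cast_zero, Real.zero_rpow h0.ne', sub_zero] at this
  exact (le_abs_self _).trans (this.trans (mul_le_of_le_one_right (norm_nonneg _) hn))

end

theorem exists_half_norming {E : Type} [NormedAddCommGroup E] [NormedSpace ℝ E] (μ : E →L[ℝ] ℝ) :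
    ∃ w, ‖w‖ ≤ 1 ∧ ‖μ‖ / 2 ≤ μ w := by
  rcases (norm_nonneg μ).eq_or_lt with h | h
  · exact ⟨0, by simp, by simp [← h]⟩
  · obtain ⟨w, hw1, hw2⟩ := μ.exists_lt_apply_of_lt_opNorm (r := ‖μ‖ / 2) (by linarith)
    rcases le_total 0 (μ w) with h' | h'
    · exact ⟨w, hw1.le, by rw [Real.norm_eq_abs, abs_of_nonneg h'] at hw2; exact hw2.le⟩
    · refine ⟨-w, by simpa using hw1.le, ?_⟩
      rw [Real.norm_eq_abs, abs_of_nonpos h'] at hw2
      rw [map_neg]; exact hw2.le

theorem free_cotype {q : ℝ} (hq : 2 < q) : ∃ K : ℝ, 0 < K ∧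
    ∀ (M : Type) [Fintype M] [Nonempty M] (d : M → M → ℕ), (∀ x, d x x = 0) →
      (∀ x y, d x y = d y x) → (∀ x y z, d x z ≤ d x y + d y z) → (∀ x y, d x y = 0 → x = y) →
      ∀ (J : Type) [Fintype J] [DecidableEq J] (μ : J → Fr d (1 - 2 / q)),
        ∑ j, ‖μ j‖ ^ q ≤ K ^ q * 𝔼 σ : J → Bool, ‖∑ j, sg (σ j) • μ j‖ ^ q := by
  have hq0 : 0 < q := by linarith
  set θ := 1 - 2 / q with hθ
  have h0 : 0 < θ := by rw [hθ, sub_pos, div_lt_one hq0]; exact hq
  have h1 : θ < 1 := by rw [hθ]; linarith [div_pos two_pos hq0]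
  obtain ⟨L, hL, H⟩ := lift h0 h1
  refine ⟨2 * L, by positivity, ?_⟩
  intro M _ _ d hd0 hds hdt hsep J _ _ μ
  set T := ∑ j, ‖μ j‖ ^ q with hT
  have hE : 0 ≤ 𝔼 σ : J → Bool, ‖∑ j, sg (σ j) • μ j‖ :=
    ex_nonneg fun σ => ContinuousLinearMap.opNorm_nonneg _
  have hT0 : 0 ≤ T := Finset.sum_nonneg fun j _ => by positivity
  rcases hT0.eq_or_lt with hz | hpos
  · rw [← hz]
    exact mul_nonneg (by positivity) (ex_nonneg fun σ => by positivity)
  set S := T ^ q⁻¹ with hS
  have hS0 : 0 < S := by positivity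
  have hSq : S ^ q = T := Real.rpow_inv_rpow hT0 hq0.ne'
  choose w hw1 hw2 using fun j => exists_half_norming (μ j)
  choose g hg using fun j => hol_surj (w j)
  let a : J → ℝ := fun j => (‖μ j‖ / S) ^ (q / 2)
  have ha0 : ∀ j, 0 ≤ a j := fun j => by positivity
  have ha2 : ∀ j, a j ^ 2 = ‖μ j‖ ^ q / T := fun j => by
    simp only [a]
    rw [← Real.rpow_natCast, ← Real.rpow_mul (by positivity), ← hSq,
      ← Real.div_rpow (norm_nonneg (μ j)) hS0.le]
    congr 1; push_cast; ring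
  have ha : ∑ j, a j ^ 2 ≤ 1 := by
    simp only [ha2]
    rw [← Finset.sum_div, div_self hpos.ne']
  have ha3 : ∀ j, a j ^ (1 + θ) * ‖μ j‖ = S * (‖μ j‖ ^ q / T) := fun j => by
    simp only [a]
    rw [← Real.rpow_mul (by positivity), ← hSq, ← Real.div_rpow (norm_nonneg (μ j)) hS0.le,
      show q / 2 * (1 + θ) = q - 1 by rw [hθ]; field_simp; ring]
    conv_rhs => rw [show q = q - 1 + 1 by ring, Real.rpow_add_one' (by positivity) (by linarith)]
    field_simp
  obtain ⟨G, hG1, hG2⟩ := H M d hd0 hds hdt J a ha0 ha (fun j x => a j ^ (1 + θ) * g j x) (by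
    intro j x y
    have hp : 0 ≤ a j ^ (1 + θ) := Real.rpow_nonneg (ha0 j) _
    rw [← mul_sub, abs_mul, abs_of_nonneg hp]
    refine mul_le_mul_of_nonneg_left ((hol_bound (θ := θ) hsep _ x y).trans ?_) hp
    rw [hg]
    exact mul_le_of_le_one_right (by positivity) (hw1 j))
  have hGn : ∀ σ, ‖hol d θ (G σ)‖ ≤ L := fun σ => norm_hol_le h0 hL.le (hG1 σ)
  have hcoef : ∀ j, 𝔼 σ : J → Bool, sg (σ j) * μ j (hol d θ (G σ)) =
      a j ^ (1 + θ) * μ j (w j) := by
    intro j
    have e : (Fintype.card (J → Bool) : ℝ)⁻¹ • ∑ σ : J → Bool, sg (σ j) • G σ =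
        a j ^ (1 + θ) • g j := by
      funext x
      have := hG2 j x
      rw [Fintype.expect_eq_sum_div_card] at this
      simp only [Pi.smul_apply, Finset.sum_apply, smul_eq_mul]
      rw [← this]; ring
    have e2 := congrArg (fun z => μ j (hol d θ z)) e
    simp only [map_smul, map_sum, smul_eq_mul, hg] at e2
    rw [Fintype.expect_eq_sum_div_card, ← e2]; ring
  have main : S / 2 ≤ L * 𝔼 σ : J → Bool, ‖∑ j, sg (σ j) • μ j‖ := by
    calc S / 2 = ∑ j, a j ^ (1 + θ) * (‖μ j‖ / 2) := by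
          simp only [← mul_div_assoc, ha3]
          rw [← Finset.sum_div, ← Finset.sum_div, ← Finset.mul_sum, ← hT, mul_div_assoc,
            div_self hpos.ne', mul_one]
      _ ≤ ∑ j, a j ^ (1 + θ) * μ j (w j) := Finset.sum_le_sum fun j _ =>
          mul_le_mul_of_nonneg_left (hw2 j) (Real.rpow_nonneg (ha0 j) _)
      _ = 𝔼 σ : J → Bool, (∑ j, sg (σ j) • μ j) (hol d θ (G σ)) := by
          simp only [← hcoef, ContinuousLinearMap.sum_apply, ContinuousLinearMap.smul_apply,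
            smul_eq_mul]
          rw [ex_sum]
      _ ≤ _ := by
          rw [← ex_mul]
          refine ex_le fun σ => (le_abs_self _).trans ?_
          refine ((∑ j, sg (σ j) • μ j).le_opNorm (hol d θ (G σ))).trans ?_
          rw [mul_comm]
          exact mul_le_mul_of_nonneg_right (hGn σ) (ContinuousLinearMap.opNorm_nonneg _)
  calc T = S ^ q := hSq.symm
    _ ≤ (2 * L * 𝔼 σ : J → Bool, ‖∑ j, sg (σ j) • μ j‖) ^ q :=
        Real.rpow_le_rpow hS0.le (by linarith) hq0.le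
    _ ≤ _ := by
        rw [Real.mul_rpow (by positivity) hE]
        exact mul_le_mul_of_nonneg_left (jensen_rpow (by linarith) fun σ =>
          ContinuousLinearMap.opNorm_nonneg _)
          (by positivity)

theorem HasCotype.of_bool {Y : Type*} [NormedAddCommGroup Y] [NormedSpace ℝ Y] {q K : ℝ}
    (h : ∀ (n : ℕ) (y : Fin n → Y),
      ∑ j, ‖y j‖ ^ q ≤ K ^ q * 𝔼 σ : Fin n → Bool, ‖∑ j, sg (σ j) • y j‖ ^ q) :
    HasCotype Y q K := by
  intro n y
  rw [ex_piFinset sgz (by intro a b; cases a <;> cases b <;> simp [sgz]) _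
    (by intro z; simp [sgz, eq_comm])]
  refine (h n y).trans (le_of_eq ?_)
  congr 1
  refine ex_congr fun σ => ?_
  congr 2
  refine Finset.sum_congr rfl fun i _ => ?_
  beta_reduce
  cases σ i <;> simp [sgz, sg]

theorem lp_cotype {I : Type} (E : I → Type) [∀ i, NormedAddCommGroup (E i)]
    [∀ i, NormedSpace ℝ (E i)] (p : ENNReal) [Fact (1 ≤ p)] {q K : ℝ} (hq : 0 < q)
    (hp : p.toReal = q)
    (h : ∀ (i : I) (n : ℕ) (y : Fin n → E i),
      ∑ j, ‖y j‖ ^ q ≤ K ^ q * 𝔼 σ : Fin n → Bool, ‖∑ j, sg (σ j) • y j‖ ^ q) :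
    HasCotype (lp E p) q K := by
  refine HasCotype.of_bool fun n y => ?_
  have hs : ∀ f : lp E p, HasSum (fun i => ‖f i‖ ^ q) (‖f‖ ^ q) := fun f => by
    have := lp.hasSum_norm (by rw [hp]; exact hq) f
    rwa [hp] at this
  have s1 := hasSum_sum (s := Finset.univ) fun j _ => hs (y j)
  have s2 := ((hasSum_sum (s := Finset.univ) fun (σ : Fin n → Bool) _ =>
    hs (∑ j, sg (σ j) • y j)).div_const (Fintype.card (Fin n → Bool) : ℝ)).mul_left (K ^ q)
  rw [Fintype.expect_eq_sum_div_card]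
  refine hasSum_le (fun i => ?_) s1 s2
  have := h i n (fun j => y j i)
  rw [Fintype.expect_eq_sum_div_card] at this
  simp only [lp.coeFn_sum, Finset.sum_apply, lp.coeFn_smul, Pi.smul_apply]
  exact this

/-- the sup metric on the discrete torus -/
def tor (n m : ℕ) (x y : Fin n → ZMod m) : ℕ :=
  Finset.univ.sup fun j => (x j - y j).valMinAbs.natAbs

theorem tor_self (n m : ℕ) (x : Fin n → ZMod m) : tor n m x x = 0 := by simp [tor]

theorem tor_comm (n m : ℕ) (x y : Fin n → ZMod m) : tor n m x y = tor n m y x := by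
  unfold tor
  congr 1
  funext j
  rw [← ZMod.natAbs_valMinAbs_neg, neg_sub]

theorem le_tor (n m : ℕ) (x y : Fin n → ZMod m) (j : Fin n) :
    (x j - y j).valMinAbs.natAbs ≤ tor n m x y :=
  Finset.le_sup (f := fun j => (x j - y j).valMinAbs.natAbs) (Finset.mem_univ j)

theorem tor_triangle (n m : ℕ) (x y z : Fin n → ZMod m) :
    tor n m x z ≤ tor n m x y + tor n m y z := by
  refine Finset.sup_le fun j _ => ?_
  rw [← sub_add_sub_cancel (x j) (y j) (z j)]
  exact (ZMod.natAbs_valMinAbs_add_le _ _).trans ((Int.natAbs_add_le _ _).trans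
    (add_le_add (le_tor n m x y j) (le_tor n m y z j)))

theorem tor_sep (n m : ℕ) (x y : Fin n → ZMod m) (h : tor n m x y = 0) : x = y := by
  funext j
  have := le_tor n m x y j
  rw [h, Nat.le_zero, Int.natAbs_eq_zero, ZMod.valMinAbs_eq_zero] at this
  exact sub_eq_zero.1 this

theorem counterexample {q : ℝ} (hq : 2 < q) :
    ∃ (Y : Type) (_ : NormedAddCommGroup Y) (_ : NormedSpace ℝ Y) (_ : CompleteSpace Y),
      (∃ K, 0 < K ∧ HasCotype Y q K) ∧ ∀ (Γ : ℝ) (n m : ℕ) [NeZero m], Even m →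
        MetricCotype Y q Γ n m → (n : ℝ) ≤ |Γ ^ q| * 2 ^ (q - 2) * m ^ 2 := by
  have hq0 : 0 < q := by linarith
  set θ := 1 - 2 / q with hθ
  have h0 : 0 < θ := by rw [hθ, sub_pos, div_lt_one hq0]; exact hq
  have h1 : θ < 1 := by rw [hθ]; linarith [div_pos two_pos hq0]
  obtain ⟨K, hK, H⟩ := free_cotype hq
  haveI : Fact (1 ≤ ENNReal.ofReal q) := ⟨ENNReal.one_le_ofReal.2 (by linarith)⟩
  let E : ℕ × ℕ → Type := fun i => Fr (tor i.1 (i.2 + 1)) θ
  refine ⟨lp E (ENNReal.ofReal q), inferInstance, inferInstance, inferInstance, ⟨K, hK, ?_⟩, ?_⟩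
  · exact lp_cotype E _ hq0 (ENNReal.toReal_ofReal hq0.le) fun i n y =>
      H _ _ (tor_self _ _) (tor_comm _ _) (tor_triangle _ _) (tor_sep _ _) _ y
  · intro Γ n m _ hm hM
    obtain ⟨m', rfl⟩ := Nat.exists_eq_succ_of_ne_zero (NeZero.ne m)
    obtain ⟨k, hk⟩ := hm
    have hk2 : (m' + 1) / 2 = k := by omega
    have hk1 : 1 ≤ (m' + 1) / 2 := by omega
    have hp0 : 0 < ENNReal.ofReal q := ENNReal.ofReal_pos.2 hq0
    have hf : ∀ a b : E (n, m'), ‖lp.single (E := E) (ENNReal.ofReal q) (n, m') a -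
        lp.single (E := E) (ENNReal.ofReal q) (n, m') b‖ = ‖a - b‖ := fun a b => by
      rw [← lp.single_sub, lp.norm_single hp0]
    have := hM fun x => lp.single (E := E) (ENNReal.ofReal q) (n, m') (delta _ θ 0 x)
    simp only [hf] at this
    have lo : (n : ℝ) * (k : ℝ) ^ (q - 2) ≤ ∑ j : Fin n, 𝔼 x : Fin n → ZMod (m' + 1),
        ‖delta (tor n (m' + 1)) θ 0 (x + Pi.single j (((m' + 1) / 2 : ℕ) : ZMod (m' + 1))) -
          delta (tor n (m' + 1)) θ 0 x‖ ^ q := by
      calc (n : ℝ) * (k : ℝ) ^ (q - 2) = ∑ _j : Fin n, 𝔼 _x : Fin n → ZMod (m' + 1),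
            ((k : ℝ) ^ θ) ^ q := by
            rw [← Real.rpow_mul (by positivity), show θ * q = q - 2 by rw [hθ]; field_simp]
            simp
        _ ≤ _ := by
            refine Finset.sum_le_sum fun j _ => ex_le fun x => ?_
            refine Real.rpow_le_rpow (by positivity) (le_trans ?_ (le_norm_delta h0 h1
              (tor_self _ _) (tor_comm _ _) (tor_triangle _ _) (tor_sep _ _) _ _ _)) hq0.le
            refine Real.rpow_le_rpow (by positivity) ?_ h0.le
            have := le_tor n (m' + 1) (x + Pi.single j (((m' + 1) / 2 : ℕ) : ZMod (m' + 1))) x j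
            rw [Pi.add_apply, Pi.single_eq_same, add_sub_cancel_left,
              ZMod.valMinAbs_natCast_of_le_half le_rfl, Int.natAbs_natCast] at this
            exact Nat.cast_le.2 (hk2.ge.trans this)
    set W := 𝔼 ε ∈ Fintype.piFinset fun _ : Fin n => ({-1, 0, 1} : Finset ℤ),
      𝔼 x : Fin n → ZMod (m' + 1), ‖delta (tor n (m' + 1)) θ 0 (x + fun j => (ε j : ZMod (m' + 1))) -
        delta (tor n (m' + 1)) θ 0 x‖ ^ q with hW
    have W0 : 0 ≤ W := Finset.expect_nonneg fun ε _ => ex_nonneg fun x => by positivity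
    have W1 : W ≤ 1 := by
      refine Finset.expect_le ⟨0, by simp⟩ fun ε hε => ?_
      refine le_trans (ex_le fun x => ?_) (ex_const (1 : ℝ)).le
      refine Real.rpow_le_one (ContinuousLinearMap.opNorm_nonneg _)
        ((norm_delta_le (tor_sep _ _) _ _ _).trans ?_) hq0.le
      refine Real.rpow_le_one (by positivity) ?_ h0.le
      have : tor n (m' + 1) (x + fun j => (ε j : ZMod (m' + 1))) x ≤ 1 := by
        refine Finset.sup_le fun j _ => ?_
        have h11 : (1 : ZMod (m' + 1)).valMinAbs.natAbs = 1 := by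
          have := ZMod.valMinAbs_natCast_of_le_half hk1
          rw [Nat.cast_one] at this
          rw [this]; rfl
        have hj := Fintype.mem_piFinset.1 hε j
        simp only [Finset.mem_insert, Finset.mem_singleton] at hj
        rw [Pi.add_apply, add_sub_cancel_left]
        rcases hj with hj | hj | hj <;> rw [hj]
        · rw [Int.cast_neg, ZMod.natAbs_valMinAbs_neg, Int.cast_one, h11]
        · simp
        · rw [Int.cast_one, h11]
      exact_mod_cast this
    have hkpos : (0 : ℝ) < k := by exact_mod_cast (by omega : 0 < k)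
    have hmk : ((m' + 1 : ℕ) : ℝ) = 2 * k := by exact_mod_cast (by omega : m' + 1 = 2 * k)
    have up : (n : ℝ) * (k : ℝ) ^ (q - 2) ≤ |Γ ^ q| * (2 * k : ℝ) ^ q := by
      refine lo.trans (this.trans ?_)
      simp only [Nat.succ_eq_add_one]
      rw [hmk]
      have hb : 0 ≤ (2 * k : ℝ) ^ q := by positivity
      calc _ ≤ |Γ ^ q| * (2 * k : ℝ) ^ q * W := by gcongr; exact le_abs_self _
        _ ≤ _ := mul_le_of_le_one_right (by positivity) W1
    simp only [Nat.succ_eq_add_one]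
    rw [hmk]
    have e : (2 * k : ℝ) ^ q = 2 ^ (q - 2) * (2 * k) ^ 2 * (k : ℝ) ^ (q - 2) := by
      conv_lhs => rw [show q = q - 2 + 2 by ring, Real.rpow_add (by positivity),
        Real.mul_rpow (by norm_num) hkpos.le, Real.rpow_two]
      ring
    rw [e, ← mul_assoc] at up
    have := le_of_mul_le_mul_right up (by positivity)
    linarith

end Pool.Agent.MP_f492a7_an

end

section

namespace Pool.Agent.MP_f492a7_an

open Finset
open scoped BigOperators

section
variable {M : Type} [Fintype M] (d : M → M → ℕ) (L : ℕ)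

/-- pairing of a measure with all test functions -/
noncomputable def pairG : (M → ℝ) →ₗ[ℝ] lp (fun _ : {g : M → ℝ // InG d L g} => ℝ) ⊤ where
  toFun μ := ⟨fun g => ∑ z, μ z * g.1 z, memℓp_infty ⟨∑ z, |μ z| * L, by
    rintro _ ⟨g, rfl⟩
    refine (Finset.abs_sum_le_sum_abs _ _).trans (Finset.sum_le_sum fun z _ => ?_)
    rw [abs_mul]
    exact mul_le_mul_of_nonneg_left (g.2.abs_le z) (abs_nonneg _)⟩⟩
  map_add' μ μ' := by
    ext g
    simp [add_mul, Finset.sum_add_distrib]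
  map_smul' c μ := by
    ext g
    simp [Finset.mul_sum, mul_assoc]

/-- the space -/
noncomputable abbrev Yg : Type := LinearMap.range (pairG d L)

/-- the class of a measure -/
noncomputable def toY : (M → ℝ) →ₗ[ℝ] Yg d L := LinearMap.rangeRestrict (pairG d L)

instance : CompleteSpace (Yg d L) := FiniteDimensional.complete ℝ _

variable {d L}

theorem le_norm_toY (μ : M → ℝ) {g : M → ℝ} (hg : InG d L g) :
    |∑ z, μ z * g z| ≤ ‖toY d L μ‖ :=
  lp.norm_apply_le_norm ENNReal.top_ne_zero (pairG d L μ) ⟨g, hg⟩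

theorem norm_toY_le (μ : M → ℝ) {B : ℝ} (hB : 0 ≤ B)
    (h : ∀ g, InG d L g → |∑ z, μ z * g z| ≤ B) : ‖toY d L μ‖ ≤ B :=
  lp.norm_le_of_forall_le (f := pairG d L μ) hB fun g => h g.1 g.2

theorem Yg_cotype [Nonempty M] (hd0 : ∀ x, d x x = 0) (hs : ∀ x y, d x y = d y x)
    (ht : ∀ x y z, d x z ≤ d x y + d y z) {q : ℝ} (hq : 2 ≤ q)
    (J : Type) [Fintype J] [DecidableEq J] (y : J → Yg d L) :
    ∑ j, ‖y j‖ ^ q ≤ 64 ^ q * 𝔼 σ : J → Bool, ‖∑ j, sg (σ j) • y j‖ ^ q := by
  classical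
  have hq0 : 0 < q := by linarith
  choose μ hμ using fun j => LinearMap.surjective_rangeRestrict (pairG d L) (y j)
  have hμ' : ∀ j, toY d L (μ j) = y j := hμ
  have hg : ∀ j, ∃ g, InG d L g ∧ ‖y j‖ / 2 ≤ |∑ z, μ j z * g z| := by
    intro j
    by_contra hc
    push Not at hc
    have h1 := norm_toY_le (μ j) (by positivity) fun g hg => (hc g hg).le
    have h2 := hc _ (inG_radial hs ht L (Classical.arbitrary M))
    rw [hμ'] at h1
    linarith [abs_nonneg (∑ z, μ j z * ∑ k ∈ Finset.range L,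
      if d z (Classical.arbitrary M) ≤ 3 ^ k then (1 : ℝ) else 0)]
  choose g hg1 hg2 using hg
  set T := ∑ j, ‖y j‖ ^ 2 with hT
  have hT0 : 0 ≤ T := Finset.sum_nonneg fun j _ => by positivity
  set S := √T with hS
  have hSq : S ^ 2 = T := Real.sq_sqrt hT0
  have hE : 0 ≤ 𝔼 σ : J → Bool, ‖∑ j, sg (σ j) • y j‖ := ex_nonneg fun σ => norm_nonneg _
  have main : S ≤ 64 * 𝔼 σ : J → Bool, ‖∑ j, sg (σ j) • y j‖ := by
    rcases (Real.sqrt_nonneg T).eq_or_lt with h0 | hS0
    · rw [hS, ← h0]; positivity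
    let c : J → ℝ := fun j => ∑ z, μ j z * g j z
    let a : J → ℝ := fun j => SignType.sign (c j) * (‖y j‖ / S)
    have ha : ∑ j, a j ^ 2 ≤ 1 := by
      calc ∑ j, a j ^ 2 ≤ ∑ j, ‖y j‖ ^ 2 / T := by
            refine Finset.sum_le_sum fun j _ => ?_
            simp only [a]
            rw [mul_pow, div_pow, hSq]
            refine mul_le_of_le_one_left (by positivity) ?_
            rcases lt_trichotomy (c j) 0 with h | h | h <;> simp [h]
        _ ≤ 1 := by rw [← Finset.sum_div]; exact div_self_le_one _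
    obtain ⟨G, hG1, hG2⟩ := inG_lift hd0 hs ht a ha g hg1
    have h1 : S / 2 ≤ ∑ j, a j * c j := by
      calc S / 2 = ∑ j, ‖y j‖ / S * (‖y j‖ / 2) := by
            have : ∀ j, ‖y j‖ / S * (‖y j‖ / 2) = ‖y j‖ ^ 2 / (2 * S) := fun j => by ring
            simp only [this]
            rw [← Finset.sum_div, ← hT, ← hSq]
            field_simp
        _ ≤ _ := by
            refine Finset.sum_le_sum fun j _ => ?_
            have : a j * c j = ‖y j‖ / S * |c j| := by
              simp only [a]; rw [← sign_mul_self (c j)]; ring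
            rw [this]
            exact mul_le_mul_of_nonneg_left (hg2 j) (by positivity)
    have h2 : ∑ j, a j * c j =
        32 * 𝔼 σ : J → Bool, ∑ z, (∑ j, sg (σ j) • μ j) z * G σ z := by
      simp only [c, Finset.mul_sum, mul_left_comm (a _), ← hG2, Finset.sum_apply, Pi.smul_apply,
        smul_eq_mul, Finset.sum_mul, ex_sum]
      rw [Finset.sum_comm]
      refine Finset.sum_congr rfl fun z _ => Finset.sum_congr rfl fun j _ => ?_
      rw [mul_left_comm, ← ex_mul]
      congr 1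
      exact ex_congr fun σ => by ring
    have h3 : 𝔼 σ : J → Bool, ∑ z, (∑ j, sg (σ j) • μ j) z * G σ z ≤
        𝔼 σ : J → Bool, ‖∑ j, sg (σ j) • y j‖ := by
      refine ex_le fun σ => (le_abs_self _).trans ((le_norm_toY _ (hG1 σ)).trans (le_of_eq ?_))
      simp only [map_sum, map_smul, hμ']
    linarith
  calc ∑ j, ‖y j‖ ^ q ≤ ∑ j, ‖y j‖ ^ 2 * S ^ (q - 2) := by
        refine Finset.sum_le_sum fun j _ => ?_
        have hj : ‖y j‖ ≤ S := Real.le_sqrt_of_sq_le
          (Finset.single_le_sum (f := fun j => ‖y j‖ ^ 2) (fun j _ => by positivity)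
            (Finset.mem_univ j))
        rw [show q = 2 + (q - 2) by ring, Real.rpow_add' (norm_nonneg _) (by linarith),
          Real.rpow_two, add_sub_cancel_left]
        gcongr
    _ = S ^ q := by
        rw [← Finset.sum_mul, ← hT, ← hSq, ← Real.rpow_two,
          ← Real.rpow_add' (Real.sqrt_nonneg _) (by linarith), add_sub_cancel]
    _ ≤ (64 * 𝔼 σ : J → Bool, ‖∑ j, sg (σ j) • y j‖) ^ q :=
        Real.rpow_le_rpow (Real.sqrt_nonneg _) main hq0.le
    _ ≤ _ := by
        rw [Real.mul_rpow (by positivity) hE]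
        exact mul_le_mul_of_nonneg_left (jensen_rpow (by linarith) fun σ => norm_nonneg _)
          (by positivity)

theorem pair_dirac [DecidableEq M] (x y : M) (g : M → ℝ) :
    ∑ z, (Pi.single x (1 : ℝ) - Pi.single y (1 : ℝ) : M → ℝ) z * g z = g x - g y := by
  simp [sub_mul, Finset.sum_sub_distrib, Pi.single_apply]

theorem edge_le [DecidableEq M] {t : ℕ} {x y : M} (h : d x y ≤ 1) :
    ‖toY d (2 * t ^ 2) (Pi.single x 1) - toY d (2 * t ^ 2) (Pi.single y 1)‖ ≤ 2 * t := by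
  rw [← map_sub]
  refine norm_toY_le _ (by positivity) fun g hg => ?_
  rw [pair_dirac]
  have := hg.edge h
  push_cast at this
  exact abs_le_of_sq_le_sq' (by nlinarith) (by positivity) |> abs_le.2

theorem far_le [DecidableEq M] (hd0 : ∀ x, d x x = 0) (hs : ∀ x y, d x y = d y x)
    (ht : ∀ x y z, d x z ≤ d x y + d y z) {x y : M} (h : 3 ^ L ≤ d x y) :
    (L : ℝ) ≤ ‖toY d L (Pi.single x 1) - toY d L (Pi.single y 1)‖ := by
  rw [← map_sub]
  refine le_trans (le_of_eq ?_) (le_norm_toY _ (inG_radial hs ht L y))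
  rw [pair_dirac, Finset.sum_eq_zero]
  · simp [hd0]
  · intro k hk
    have := Nat.pow_lt_pow_right (by norm_num : 1 < 3) (Finset.mem_range.1 hk)
    rw [if_neg (by omega)]

end

theorem tor_edge (n m : ℕ) (hm : 1 ≤ m / 2) (x : Fin n → ZMod m) (ε : Fin n → ℤ)
    (hε : ε ∈ Fintype.piFinset fun _ : Fin n => ({-1, 0, 1} : Finset ℤ)) :
    tor n m (x + fun j => (ε j : ZMod m)) x ≤ 1 := by
  refine Finset.sup_le fun j _ => ?_
  have h11 : (1 : ZMod m).valMinAbs.natAbs = 1 := by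
    have := ZMod.valMinAbs_natCast_of_le_half hm
    rw [Nat.cast_one] at this
    rw [this]; rfl
  have hj := Fintype.mem_piFinset.1 hε j
  simp only [Finset.mem_insert, Finset.mem_singleton] at hj
  rw [Pi.add_apply, add_sub_cancel_left]
  rcases hj with hj | hj | hj <;> rw [hj]
  · rw [Int.cast_neg, ZMod.natAbs_valMinAbs_neg, Int.cast_one, h11]
  · simp
  · rw [Int.cast_one, h11]

theorem tor_far (n m : ℕ) (x : Fin n → ZMod m) (j : Fin n) :
    m / 2 ≤ tor n m (x + Pi.single j ((m / 2 : ℕ) : ZMod m)) x := by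
  have := le_tor n m (x + Pi.single j ((m / 2 : ℕ) : ZMod m)) x j
  rwa [Pi.add_apply, Pi.single_eq_same, add_sub_cancel_left,
    ZMod.valMinAbs_natCast_of_le_half le_rfl, Int.natAbs_natCast] at this

theorem counterexample_two {q : ℝ} (hq : 2 ≤ q) :
    ∃ (Y : Type) (_ : NormedAddCommGroup Y) (_ : NormedSpace ℝ Y) (_ : CompleteSpace Y),
      HasCotype Y q 64 ∧ ∀ (Γ : ℝ) (n m t : ℕ) [NeZero m], 1 ≤ t → 3 ^ (2 * t ^ 2) ≤ m / 2 →
        MetricCotype Y q Γ n m → (n : ℝ) * (t : ℝ) ^ q ≤ |Γ ^ q| * (m : ℝ) ^ q := by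
  have hq0 : 0 < q := by linarith
  haveI : Fact (1 ≤ ENNReal.ofReal q) := ⟨ENNReal.one_le_ofReal.2 (by linarith)⟩
  let E : ℕ × ℕ × ℕ → Type := fun i => Yg (tor i.1 (i.2.1 + 1)) (2 * i.2.2 ^ 2)
  refine ⟨lp E (ENNReal.ofReal q), inferInstance, inferInstance, inferInstance, ?_, ?_⟩
  · exact lp_cotype E _ hq0 (ENNReal.toReal_ofReal hq0.le) fun i n y =>
      Yg_cotype (tor_self _ _) (tor_comm _ _) (tor_triangle _ _) hq _ y
  · intro Γ n m t _ ht hm hM
    obtain ⟨m', rfl⟩ := Nat.exists_eq_succ_of_ne_zero (NeZero.ne m)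
    have hk1 : 1 ≤ (m' + 1) / 2 := le_trans (Nat.one_le_pow _ _ (by norm_num)) hm
    have hp0 : 0 < ENNReal.ofReal q := ENNReal.ofReal_pos.2 hq0
    have hf : ∀ a b : E (n, m', t), ‖lp.single (E := E) (ENNReal.ofReal q) (n, m', t) a -
        lp.single (E := E) (ENNReal.ofReal q) (n, m', t) b‖ = ‖a - b‖ := fun a b => by
      rw [← lp.single_sub, lp.norm_single hp0]
    have := hM fun x => lp.single (E := E) (ENNReal.ofReal q) (n, m', t) (toY _ _ (Pi.single x 1))
    simp only [hf] at this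
    have ht0 : (0 : ℝ) < t := by exact_mod_cast ht
    have lo : (n : ℝ) * ((t : ℝ) ^ q * (2 * t : ℝ) ^ q) ≤ ∑ j : Fin n, 𝔼 x : Fin n → ZMod (m' + 1),
        ‖toY (tor n (m' + 1)) (2 * t ^ 2)
            (Pi.single (x + Pi.single j (((m' + 1) / 2 : ℕ) : ZMod (m' + 1))) 1) -
          toY (tor n (m' + 1)) (2 * t ^ 2) (Pi.single x 1)‖ ^ q := by
      calc (n : ℝ) * ((t : ℝ) ^ q * (2 * t : ℝ) ^ q) =
            ∑ _j : Fin n, 𝔼 _x : Fin n → ZMod (m' + 1), (((2 * t ^ 2 : ℕ) : ℝ)) ^ q := by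
            rw [← Real.mul_rpow ht0.le (by positivity)]
            simp only [Fintype.expect_const, Finset.sum_const, Finset.card_univ, Fintype.card_fin,
              nsmul_eq_mul]
            congr 2
            push_cast; ring
        _ ≤ _ := by
            refine Finset.sum_le_sum fun j _ => ex_le fun x => ?_
            exact Real.rpow_le_rpow (by positivity) (far_le (tor_self _ _) (tor_comm _ _)
              (tor_triangle _ _) (hm.trans (tor_far _ _ _ _))) hq0.le
    set W := 𝔼 ε ∈ Fintype.piFinset fun _ : Fin n => ({-1, 0, 1} : Finset ℤ),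
      𝔼 x : Fin n → ZMod (m' + 1), ‖toY (tor n (m' + 1)) (2 * t ^ 2)
        (Pi.single (x + fun j => (ε j : ZMod (m' + 1))) 1) -
        toY (tor n (m' + 1)) (2 * t ^ 2) (Pi.single x 1)‖ ^ q with hW
    have W0 : 0 ≤ W := Finset.expect_nonneg fun ε _ => ex_nonneg fun x => by positivity
    have W1 : W ≤ (2 * t : ℝ) ^ q := by
      refine Finset.expect_le ⟨0, by simp⟩ fun ε hε => ?_
      refine le_trans (ex_le fun x => ?_) (ex_const _).le
      exact Real.rpow_le_rpow (norm_nonneg _) (edge_le (tor_edge _ _ hk1 x ε hε)) hq0.le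
    have hb : 0 ≤ ((m'.succ : ℕ) : ℝ) ^ q := by positivity
    have up : (n : ℝ) * (t : ℝ) ^ q * (2 * t : ℝ) ^ q ≤
        |Γ ^ q| * ((m'.succ : ℕ) : ℝ) ^ q * (2 * t : ℝ) ^ q := by
      rw [mul_assoc]
      refine lo.trans (this.trans ?_)
      calc _ ≤ |Γ ^ q| * ((m'.succ : ℕ) : ℝ) ^ q * W := by gcongr; exact le_abs_self _
        _ ≤ _ := by gcongr
    exact le_of_mul_le_mul_right up (by positivity)

end Pool.Agent.MP_f492a7_an

end
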